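import Pool.Agent.Helper40.TV.All
import Pool.Agent.Helper10.AL.P.A1
import Pool.Agent.Helper10.AL.P.A2
import Pool.Agent.Helper10.AL.P.G0
import Pool.Agent.Helper10.AL.P.CA
import Pool.Agent.Helper10.AL.P.H4d
import Pool.Agent.Helper10.AL.P.G1u
import Pool.Agent.Helper10.AL.P.M1
import Pool.Agent.Helper10.AL.P.M3
import Pool.Agent.Helper10.AL.P.C1
import Pool.Agent.Helper10.AL.P.VF6
import Pool.Agent.Helper10.AL.P.VF4
import Pool.Agent.Helper10.AL.P.VMf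
import Pool.Agent.Helper10.AL.P.S1e
import Pool.Agent.Helper10.AL.P.S1
import Pool.Agent.Helper10.AL.P.D1a
import Pool.Agent.Helper10.AL.P.D1b
import Pool.Agent.Helper10.AL.P.D1
import Pool.Agent.Helper10.AL.P.L3
import Pool.Agent.Helper10.AL.P.P1z
import Pool.Agent.Helper10.AL.P.D2a
import Pool.Agent.Helper10.AL.P.P1
import Pool.Agent.Helper10.AL.P.D2b
import Pool.Agent.Helper10.AL.P.P2
import Pool.Agent.Helper10.AL.P.S2e
import Pool.Agent.Helper10.AL.P.S3e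
import Pool.Agent.Helper10.AL.P.G2ac
import Pool.Agent.Helper10.AL.P.G3c
import Pool.Agent.Helper10.AL.P.HHc
import Pool.Agent.Helper10.AL.P.I1g
import Pool.Agent.Helper10.AL.P.A3
import Pool.Agent.Helper10.AL.P.A4
import Pool.Agent.Helper10.AL.P.B0
import Pool.Agent.Helper10.AL.P.B1
import Pool.Agent.Helper10.AL.P.VF1
import Pool.Agent.Helper10.AL.P.VF2
import Pool.Agent.Helper10.AL.P.VF3
import Pool.Agent.Helper10.AL.P.VF5
import Pool.Agent.Helper10.AL.P.B2b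
import Pool.Agent.Helper10.AL.P.B2c
import Pool.Agent.Helper10.AL.P.B5
import Pool.Agent.Helper10.AL.P.K1
import Pool.Agent.Helper10.AL.P.K2u
import Pool.Agent.Helper10.AL.P.M2
import Pool.Agent.Helper10.AL.P.K3u
import Pool.Agent.Helper10.AL.P.S4e
import Pool.Agent.Helper10.AL.P.MainC
import Pool.Agent.Helper10.AL.P.CH
import Pool.Agent.Helper10.AL.P.B2a
import Pool.Agent.Helper10.AL.P.B3
import Pool.Agent.Helper10.AL.P.B6
import Pool.Agent.Helper10.AL.P.C2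
import Pool.Agent.Helper10.AL.P.D0
import Pool.Agent.Helper10.AL.P.A8
import Pool.Agent.Helper10.AL.P.D3
import Pool.Agent.Helper10.AL.P.D3r
import Pool.Agent.Helper10.AL.P.E2
import Pool.Agent.Helper10.AL.P.ZC
import Pool.Agent.Helper10.AL.P.ZCr
import Pool.Agent.Helper10.AL.P.CLe
import Pool.Agent.Helper10.AL.P.CLf
import Pool.Agent.Helper10.AL.P.A9
import Pool.Agent.Helper10.AL.P.A10s
import Pool.Agent.Helper10.AL.P.A10
import Pool.Agent.Helper10.AL.P.N0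
import Pool.Agent.Helper10.AL.P.A11
import Pool.Agent.Helper10.AL.P.B7
import Pool.Agent.Helper10.AL.P.N1
import Pool.Agent.Helper10.AL.P.E1
import Pool.Agent.Helper10.AL.P.E3L
import Pool.Agent.Helper10.AL.P.LS
import Pool.Agent.Helper10.AL.P.E6e
import Pool.Agent.Helper10.AL.P.N2
import Pool.Agent.Helper10.AL.P.N3
import Pool.Agent.Helper10.AL.P.E8e
import Pool.Agent.Helper10.AL.P.G0u
import Pool.Agent.Helper10.AL.P.G2av
import Pool.Agent.Helper10.AL.P.G3r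
import Pool.Agent.Helper10.AL.P.FT
import Pool.Agent.Helper10.AL.P.Hm
import Pool.Agent.Helper10.AL.P.CHe
import Pool.Agent.Helper10.AL.P.NP1
import Pool.Agent.Helper10.AL.P.NP
import Pool.Agent.Helper10.AL.P.Pw
import Pool.Agent.Helper10.AL.P.U5w
import Pool.Agent.Helper10.AL.P.X0
import Pool.Agent.Helper10.AL.P.G3s
import Pool.Agent.Helper10.AL.P.FR
import Pool.Agent.Helper10.AL.P.H1
import Pool.Agent.Helper10.AL.P.H3e
import Pool.Agent.Helper10.AL.P.H4a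
import Pool.Agent.Helper10.AL.P.H4b
import Pool.Agent.Helper10.AL.P.H4c
import Pool.Agent.Helper10.AL.P.H4g
import Pool.Agent.Helper10.AL.P.HHl
import Pool.Agent.Helper10.AL.P.FL
import Pool.Agent.Helper10.AL.P.HHs
import Pool.Agent.Helper10.AL.P.MainE
import Pool.Agent.Helper10.AL.P.MainF
import Pool.Agent.Helper10.AL.P.Mk
import Pool.Agent.Helper10.AL.P.Nn
import Pool.Agent.Helper10.AL.P.Sw
import Pool.Agent.Helper10.AL.P.Nh
import Pool.Agent.Helper10.AL.P.Nc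
import Pool.Agent.Helper10.AL.P.Pe
import Pool.Agent.Helper10.AL.P.Bi
import Pool.Agent.Helper10.AL.P.Ia
import Pool.Agent.Helper10.AL.P.Fh
import Pool.Agent.Helper10.AL.P.Shf
import Pool.Agent.Helper10.AL.P.Br
import Pool.Agent.Helper10.AL.P.Iw
import Pool.Agent.Helper10.AL.P.Zs
import Pool.Agent.Helper10.AL.P.HHh
import Pool.Agent.Helper10.AL.P.Np1
import Pool.Agent.Helper10.AL.P.Np2
import Pool.Agent.Helper10.AL.P.X1
import Pool.Agent.Helper10.AL.P.Oz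
import Pool.Agent.Helper10.AL.P.Bl
import Pool.Agent.Helper10.AL.P.G3h
import Pool.Agent.Helper10.AL.P.Half
import Pool.Agent.Helper10.AL.P.MainH
import Pool.Agent.Helper10.AL.P.MainG

/-!
Arc length of polynomials over windows, large degree: assembly of the pieces.
-/

set_option autoImplicit false

namespace Pool.Agent.Helper10.AL.AsmG

open Pool.Agent.Helper10.AL

theorem hA1 : A1 := a1

theorem hA2 : A2 := a2 hA1

theorem hG0 : G0 := g0

theorem hCA : CA := cA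

theorem hH4d : H4d := h4d hA2

theorem hG1u : G1u := g1u hA1 hA2 hCA hH4d

theorem hM1 : M1 := m1 hA1 hA2

theorem hM3 : M3 := m3

theorem hC1 : C1 := c1

theorem hVF6 : VF6 := vF6

theorem hVF4 : VF4 := vF4 hVF6

theorem hVMf : VMf := vMf hVF4 hVF6

theorem hS1e : S1e := s1e hVMf hVF6

theorem hS1 : S1 := s1 hA1 hA2 hS1e hVMf

theorem hD1a : D1a := d1a

theorem hD1b : D1b := d1b

theorem hD1 : D1 := d1 hD1a hD1b

theorem hL3 : L3 := l3

theorem hP1z : P1z := p1z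

theorem hD2a : D2a := d2a

theorem hP1 : P1 := p1 hP1z hD2a

theorem hD2b : D2b := d2b

theorem hP2 : P2 := p2 hP1z hD2b

theorem hS2e : S2e := s2e hA1 hA2 hC1 hD1 hL3 hP1 hP1z hP2 hVF6 hVMf

theorem hS3e : S3e := s3e hA1 hA2 hC1 hS1 hS2e hVMf

theorem hG2ac : G2ac := g2ac hA1 hA2 hM1 hM3 hS3e

theorem hG3c : G3c := g3c hG0 hG1u hG2ac hS3e

theorem hHHc : HHc := hHc hG0 hG1u hG2ac hS3e

theorem hI1g : I1g := i1g

theorem hA3 : A3 := a3 hA2

theorem hA4 : A4 := a4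

theorem hB0 : B0 := b0

theorem hB1 : B1 := b1 hA1 hA2 hB0

theorem hVF1 : VF1 := vF1

theorem hVF2 : VF2 := vF2 hVF6

theorem hVF3 : VF3 := vF3 hVF2 hVF6

theorem hVF5 : VF5 := vF5 hVF1 hVF3 hVF4 hVF6

theorem hB2b : B2b := b2b hA1 hA2 hA3 hB0 hB1 hVF6 hVF5

theorem hB2c : B2c := b2c hA3 hB0 hB1

theorem hB5 : B5 := b5 hA1 hA4 hB2b hB2c hVF5 hVF6

theorem hK1 : K1 := k1

theorem hK2u : K2u := k2u hA1 hA2

theorem hM2 : M2 := m2

theorem hK3u : K3u := k3u hA1 hA2 hK1 hK2u hM1 hM2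

theorem hS4e : S4e := s4e hA1 hA2 hA3 hB5 hC1 hK3u hS2e hS3e hVF6 hVMf

theorem hMainC : MainC := mainC hA1 hA2 hG3c hHHc hI1g hS3e hS4e

theorem hCH : CH := cH hA1 hA4

theorem hB2a : B2a := b2a hB1 hVF1

theorem hB3 : B3 := b3 hA1 hA4 hB2a hB2b hB2c hVF1 hVF2 hVF5

theorem hB6 : B6 := b6 hB1 hA2

theorem hC2 : C2 := c2 hC1

theorem hD0 : D0 := d0

theorem hA8 : A8 := a8

theorem hD3 : D3 := d3 hD0 hA8

theorem hD3r : D3r := d3r hD3 hD0 hA8

theorem hE2 : E2 := e2 hA2 hB1 hB3 hC1 hC2 hVF1 hVF3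

theorem hZC : ZC := zC hD0 hD1 hD3 hP1 hP1z hP2 hL3

theorem hZCr : ZCr := zCr hZC

theorem hCLe : CLe := cLe hA1 hA2 hC1 hC2 hD0 hD1 hD3 hD3r hE2 hL3 hP1 hP1z hP2 hVF6 hZC hZCr

theorem hCLf : CLf := cLf hA1 hA2 hB3 hB5 hB6 hC1 hC2 hCLe hVF1 hVF2 hVF3 hVF6

theorem hA9 : A9 := a9 hA8 hA1

theorem hA10s : A10s := a10s

theorem hA10 : A10 := a10 hA1 hA9 hA10s

theorem hN0 : N0 := n0

theorem hA11 : A11 := a11 hA2 hA10 hN0

theorem hB7 : B7 := b7 hA1 hA2 hA11 hN0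

theorem hN1 : N1 := n1 hN0

theorem hE1 : E1 := e1 hA2 hB3 hB7 hC1 hC2 hN1 hVF1 hVF3

theorem hE3L : E3L := e3L hA2 hE1 hK3u

theorem hLS : LS := lS hA1 hA2 hB3 hB7

theorem hE6e : E6e := e6e hA1 hA2 hCH hCLf hE1 hE2 hE3L hLS hN1 hVF1 hVF2

theorem hN2 : N2 := n2 hN0

theorem hN3 : N3 := n3 hN0

theorem hE8e : E8e := e8e hA1 hA2 hA4 hA11 hCH hCLf hE2 hE3L hE6e hK3u hLS hN0 hN2 hN3 hVF1 hVF2

theorem hG0u : G0u := g0u

theorem hG2av : G2av := g2av hA1 hA2 hM3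

theorem hG3r : G3r := g3r hG0 hG0u hG1u hG2av

theorem hFT : FT := fT hA1 hA2 hH4d

theorem hHm : Hm := hm

theorem hCHe : CHe := cHe hA1 hA2 hA4 hCH hE2 hE6e hE8e

theorem hNP1 : NP1 := nP1 hA1 hA2 hB1 hB5 hB6 hC1 hC2 hCHe hCLf hVF1 hVF2 hVF3 hVF4 hVF6 hZC hZCr

theorem hNP : NP := nP hA1 hA2 hA3 hB1 hNP1 hVF6

theorem hPw : Pw := pw

theorem hU5w : U5w := u5w hA2 hPw

theorem hX0 : X0 := x0

theorem hG3s : G3s := g3s hA2 hE6e hFT hG0 hG0u hG1u hG2av hHm hNP hU5w hX0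

theorem hFR : FR := fR hG0 hG0u hG1u hG2av

theorem hH1 : H1 := h1 hA1 hA2

theorem hH3e : H3e := h3e hA1 hA2 hB6 hC1 hC2 hVF1 hVF3 hVF4 hVF6

theorem hH4a : H4a := h4a

theorem hH4b : H4b := h4b

theorem hH4c : H4c := h4c hA1 hA2 hA3

theorem hH4g : H4g := h4g hA1 hA2 hB6 hCA hH4a hH4b hH4c hH4d

theorem hHHl : HHl := hHl hA1 hA2 hCHe hE6e hFR hH1 hH3e hH4g hX0

theorem hFL : FL := fL hG0 hG0u hG1u hG2av

theorem hHHs : HHs := hHs hE6e hFL hFR hFT hG1u hHm hNP hU5w hX0 hA2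

theorem hMainE : MainE := mainE hA1 hA2 hE6e hE8e hG3r hG3s hHHl hHHs hI1g hX0

theorem hMainF : MainF := mainF hMainC hMainE

theorem hMk : Mk := mk hA2

theorem hNn : Nn := nn hA2 hB3 hB7 hC1 hC2 hMk hN1 hVF1 hVF2 hVF6

theorem hSw : Sw := sw hA2 hMk

theorem hTV1 : TV1 := Pool.Agent.Helper40.TV.main.1

theorem hTV2 : TV2 := Pool.Agent.Helper40.TV.main.2

theorem hNh : Nh := nh hNn hSw hTV2

theorem hNc : Nc := nc hMk hNh hTV1

theorem hPe : Pe := pe hA2 hMk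

theorem hBi : Bi := bi hMk hNc hNh hPe hTV1

theorem hIa : Ia := ia hMk

theorem hFh : Fh := fh hIa hK1 hMk hNh

theorem hShf : Shf := shf hMk

theorem hBr : Br := br hFh hMk hNh hShf

theorem hIw : Iw := iw hIa hNh

theorem hZs : Zs := zs hMk

theorem hHHh : HHh := hHh hG0 hIw hNh hZs

theorem hNp1 : Np1 := np1 hA2

theorem hNp2 : Np2 := np2 hA1 hA2 hB1

theorem hX1 : X1 := x1

theorem hOz : Oz := oz hG0 hX1

theorem hBl : Bl := bl hA1 hA2 hBi hBr hFh hHHh hMk hNc hNh hNp1 hNp2 hOz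

theorem hG3h : G3h := g3h hG0 hIw hNh

theorem hHalf : Half := half

theorem hMainH : MainH := mainH hBi hBl hBr hG3h hHHh hHalf hI1g hNh

theorem hMainG : MainG := mainG hMainF hMainH hX0

end Pool.Agent.Helper10.AL.AsmG
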