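import Pool.Agent.Helper10.AL.P.A1
import Pool.Agent.Helper10.AL.P.A2
import Pool.Agent.Helper10.AL.P.G0
import Pool.Agent.Helper10.AL.P.G0u
import Pool.Agent.Helper10.AL.P.CA
import Pool.Agent.Helper10.AL.P.H4d
import Pool.Agent.Helper10.AL.P.G1u
import Pool.Agent.Helper10.AL.P.M1
import Pool.Agent.Helper10.AL.P.M3
import Pool.Agent.Helper10.AL.P.G2au
import Pool.Agent.Helper10.AL.P.G3o
import Pool.Agent.Helper10.AL.P.A4
import Pool.Agent.Helper10.AL.P.CH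
import Pool.Agent.Helper10.AL.P.B0
import Pool.Agent.Helper10.AL.P.B1
import Pool.Agent.Helper10.AL.P.VF1
import Pool.Agent.Helper10.AL.P.B2a
import Pool.Agent.Helper10.AL.P.A3
import Pool.Agent.Helper10.AL.P.VF6
import Pool.Agent.Helper10.AL.P.VF2
import Pool.Agent.Helper10.AL.P.VF3
import Pool.Agent.Helper10.AL.P.VF4
import Pool.Agent.Helper10.AL.P.VF5
import Pool.Agent.Helper10.AL.P.B2b
import Pool.Agent.Helper10.AL.P.B2c
import Pool.Agent.Helper10.AL.P.B3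
import Pool.Agent.Helper10.AL.P.C1
import Pool.Agent.Helper10.AL.P.C2
import Pool.Agent.Helper10.AL.P.E2
import Pool.Agent.Helper10.AL.P.G2o
import Pool.Agent.Helper10.AL.P.H1
import Pool.Agent.Helper10.AL.P.B6
import Pool.Agent.Helper10.AL.P.H3o
import Pool.Agent.Helper10.AL.P.H4a
import Pool.Agent.Helper10.AL.P.H4b
import Pool.Agent.Helper10.AL.P.H4c
import Pool.Agent.Helper10.AL.P.H4g
import Pool.Agent.Helper10.AL.P.A8
import Pool.Agent.Helper10.AL.P.A9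
import Pool.Agent.Helper10.AL.P.A10s
import Pool.Agent.Helper10.AL.P.A10
import Pool.Agent.Helper10.AL.P.N0
import Pool.Agent.Helper10.AL.P.A11
import Pool.Agent.Helper10.AL.P.B7
import Pool.Agent.Helper10.AL.P.LS
import Pool.Agent.Helper10.AL.P.N1
import Pool.Agent.Helper10.AL.P.O1
import Pool.Agent.Helper10.AL.P.K1
import Pool.Agent.Helper10.AL.P.K2u
import Pool.Agent.Helper10.AL.P.M2
import Pool.Agent.Helper10.AL.P.K3u
import Pool.Agent.Helper10.AL.P.N2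
import Pool.Agent.Helper10.AL.P.N3
import Pool.Agent.Helper10.AL.P.O8
import Pool.Agent.Helper10.AL.P.HHo
import Pool.Agent.Helper10.AL.P.I1g
import Pool.Agent.Helper10.AL.P.MainO
import Pool.Agent.Helper10.AL.P.P0
import Pool.Agent.Helper10.AL.P.P1z
import Pool.Agent.Helper10.AL.P.D2a
import Pool.Agent.Helper10.AL.P.P1
import Pool.Agent.Helper10.AL.P.TE
import Pool.Agent.Helper10.AL.P.X0
import Pool.Agent.Helper10.AL.P.X1
import Pool.Agent.Helper10.AL.P.X2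
import Pool.Agent.Helper10.AL.P.X3
import Pool.Agent.Helper10.AL.P.D2b
import Pool.Agent.Helper10.AL.P.P2
import Pool.Agent.Helper10.AL.P.X4
import Pool.Agent.Helper10.AL.P.Half
import Pool.Agent.Helper10.AL.P.MainX
import Pool.Agent.Helper10.AL.P.B5
import Pool.Agent.Helper10.AL.P.D1a
import Pool.Agent.Helper10.AL.P.D1b
import Pool.Agent.Helper10.AL.P.D1
import Pool.Agent.Helper10.AL.P.D2
import Pool.Agent.Helper10.AL.P.D0
import Pool.Agent.Helper10.AL.P.D3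
import Pool.Agent.Helper10.AL.P.D3r
import Pool.Agent.Helper10.AL.P.D4
import Pool.Agent.Helper10.AL.P.CL1L
import Pool.Agent.Helper10.AL.P.CLL
import Pool.Agent.Helper10.AL.P.E1
import Pool.Agent.Helper10.AL.P.E3L
import Pool.Agent.Helper10.AL.P.VMf
import Pool.Agent.Helper10.AL.P.S1e
import Pool.Agent.Helper10.AL.P.S1
import Pool.Agent.Helper10.AL.P.S2
import Pool.Agent.Helper10.AL.P.S3
import Pool.Agent.Helper10.AL.P.E6L
import Pool.Agent.Helper10.AL.P.S4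
import Pool.Agent.Helper10.AL.P.E8L
import Pool.Agent.Helper10.AL.P.G2aL
import Pool.Agent.Helper10.AL.P.G3L
import Pool.Agent.Helper10.AL.P.G2L
import Pool.Agent.Helper10.AL.P.H3L
import Pool.Agent.Helper10.AL.P.HHL
import Pool.Agent.Helper10.AL.P.MainL
import Pool.Agent.Helper10.AL.P.P5
import Pool.Agent.Helper10.AL.P.P6a
import Pool.Agent.Helper10.AL.P.P6
import Pool.Agent.Helper10.AL.P.P3
import Pool.Agent.Helper10.AL.P.PV
import Pool.Agent.Helper10.AL.P.T1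
import Pool.Agent.Helper10.AL.P.P3b
import Pool.Agent.Helper10.AL.P.T2
import Pool.Agent.Helper10.AL.P.T3
import Pool.Agent.Helper10.AL.P.MainT
import Pool.Agent.Helper10.AL.P.PA
import Pool.Agent.Helper10.AL.P.MainA
import Pool.Agent.Helper10.AL.P.Main3

/-!
Arc length of polynomials over windows, large degree: assembly of the pieces.
-/

set_option autoImplicit false

namespace Pool.Agent.Helper10.AL.Asm

open Pool.Agent.Helper10.AL

theorem hA1 : A1 := a1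

theorem hA2 : A2 := a2 hA1

theorem hG0 : G0 := g0

theorem hG0u : G0u := g0u

theorem hCA : CA := cA

theorem hH4d : H4d := h4d hA2

theorem hG1u : G1u := g1u hA1 hA2 hCA hH4d

theorem hM1 : M1 := m1 hA1 hA2

theorem hM3 : M3 := m3

theorem hG2au : G2au := g2au hA1 hA2 hM1 hM3

theorem hG3o : G3o := g3o hA1 hA2 hG0 hG0u hG1u hG2au

theorem hA4 : A4 := a4

theorem hCH : CH := cH hA1 hA4

theorem hB0 : B0 := b0

theorem hB1 : B1 := b1 hA1 hA2 hB0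

theorem hVF1 : VF1 := vF1

theorem hB2a : B2a := b2a hB1 hVF1

theorem hA3 : A3 := a3 hA2

theorem hVF6 : VF6 := vF6

theorem hVF2 : VF2 := vF2 hVF6

theorem hVF3 : VF3 := vF3 hVF2 hVF6

theorem hVF4 : VF4 := vF4 hVF6

theorem hVF5 : VF5 := vF5 hVF1 hVF3 hVF4 hVF6

theorem hB2b : B2b := b2b hA1 hA2 hA3 hB0 hB1 hVF6 hVF5

theorem hB2c : B2c := b2c hA3 hB0 hB1

theorem hB3 : B3 := b3 hA1 hA4 hB2a hB2b hB2c hVF1 hVF2 hVF5

theorem hC1 : C1 := c1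

theorem hC2 : C2 := c2 hC1

theorem hE2 : E2 := e2 hA2 hB1 hB3 hC1 hC2 hVF1 hVF3

theorem hG2o : G2o := g2o hA1 hA2 hG0 hG0u hG1u hG2au

theorem hH1 : H1 := h1 hA1 hA2

theorem hB6 : B6 := b6 hB1 hA2

theorem hH3o : H3o := h3o hA1 hA2 hB2c hB6 hC1 hC2 hE2 hVF1 hVF2 hVF4 hVF6

theorem hH4a : H4a := h4a

theorem hH4b : H4b := h4b

theorem hH4c : H4c := h4c hA1 hA2 hA3

theorem hH4g : H4g := h4g hA1 hA2 hB6 hCA hH4a hH4b hH4c hH4d

theorem hA8 : A8 := a8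

theorem hA9 : A9 := a9 hA8 hA1

theorem hA10s : A10s := a10s

theorem hA10 : A10 := a10 hA1 hA9 hA10s

theorem hN0 : N0 := n0

theorem hA11 : A11 := a11 hA2 hA10 hN0

theorem hB7 : B7 := b7 hA1 hA2 hA11 hN0

theorem hLS : LS := lS hA1 hA2 hB3 hB7

theorem hN1 : N1 := n1 hN0

theorem hO1 : O1 := o1 hA1 hA2 hB3 hB7 hC1 hC2 hLS hN1 hVF1 hVF2

theorem hK1 : K1 := k1

theorem hK2u : K2u := k2u hA1 hA2

theorem hM2 : M2 := m2

theorem hK3u : K3u := k3u hA1 hA2 hK1 hK2u hM1 hM2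

theorem hN2 : N2 := n2 hN0

theorem hN3 : N3 := n3 hN0

theorem hO8 : O8 := o8 hA1 hA2 hA11 hC1 hC2 hK3u hLS hN0 hN2 hN3 hO1 hVF1 hVF2

theorem hHHo : HHo := hHo hA1 hA2 hCH hE2 hG2o hH1 hH3o hH4g hO1 hO8

theorem hI1g : I1g := i1g

theorem hMainO : MainO := mainO hA1 hA2 hG3o hHHo hI1g hO1 hO8

theorem hP0 : P0 := p0

theorem hP1z : P1z := p1z

theorem hD2a : D2a := d2a

theorem hP1 : P1 := p1 hP1z hD2a

theorem hTE : TE := tE

theorem hX0 : X0 := x0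

theorem hX1 : X1 := x1

theorem hX2 : X2 := x2 hA2 hG0u hG2au hM1

theorem hX3 : X3 := x3 hO1 hX1 hX2

theorem hD2b : D2b := d2b

theorem hP2 : P2 := p2 hP1z hD2b

theorem hX4 : X4 := x4 hO1 hP1z hP2 hX1 hC1 hC2 hM1 hA2 hVF6

theorem hHalf : Half := half

theorem hMainX : MainX := mainX hMainO hP0 hP1 hTE hX0 hX3 hX4 hHalf

theorem hB5 : B5 := b5 hA1 hA4 hB2b hB2c hVF5 hVF6

theorem hD1a : D1a := d1a

theorem hD1b : D1b := d1b

theorem hD1 : D1 := d1 hD1a hD1b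

theorem hD2 : D2 := d2 hD2a hD2b

theorem hD0 : D0 := d0

theorem hD3 : D3 := d3 hD0 hA8

theorem hD3r : D3r := d3r hD3 hD0 hA8

theorem hD4 : D4 := d4 hVF6

theorem hCL1L : CL1L := cL1L hA1 hA2 hC1 hD1 hD2 hD3 hD3r hD4 hVF6

theorem hCLL : CLL := cLL hA1 hA2 hB3 hB5 hB6 hC1 hC2 hCL1L hVF1 hVF3 hVF6

theorem hE1 : E1 := e1 hA2 hB3 hB7 hC1 hC2 hN1 hVF1 hVF3

theorem hE3L : E3L := e3L hA2 hE1 hK3u

theorem hVMf : VMf := vMf hVF4 hVF6

theorem hS1e : S1e := s1e hVMf hVF6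

theorem hS1 : S1 := s1 hA1 hA2 hS1e hVMf

theorem hS2 : S2 := s2 hA1 hA2 hC1 hD1 hD2 hVF6 hVMf

theorem hS3 : S3 := s3 hA1 hA2 hC1 hS1 hS2 hVMf

theorem hE6L : E6L := e6L hA1 hA2 hCH hCLL hE1 hE2 hE3L hLS hN1 hS3 hVF1 hVF2

theorem hS4 : S4 := s4 hA1 hA2 hA3 hB5 hC1 hK3u hS2 hS3 hVF6 hVMf

theorem hE8L : E8L := e8L hA1 hA2 hA4 hA11 hCH hCLL hE2 hE3L hE6L hK3u hLS hN0 hN2 hN3 hS4 hVF1 hVF2

theorem hG2aL : G2aL := g2aL hA1 hA2 hM1 hM3 hS3 hE6L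

theorem hG3L : G3L := g3L hA2 hG0 hG2aL

theorem hG2L : G2L := g2L hA2 hE6L hG0 hG1u hG2aL

theorem hH3L : H3L := h3L hA1 hA2 hB3 hB6 hC1 hC2 hVF1 hVF3 hVF4 hVF6

theorem hHHL : HHL := hHL hA1 hA2 hCH hE6L hE8L hG2L hH1 hH3L hH4g

theorem hMainL : MainL := mainL hA1 hA2 hE6L hE8L hG3L hHHL hI1g

theorem hP5 : P5 := p5 hA2 hC1 hE6L hM1

theorem hP6a : P6a := p6a hP0

theorem hP6 : P6 := p6 hP0 hP6a hA2 hC1 hC2 hVF6

theorem hP3 : P3 := p3 hP0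

theorem hPV : PV := pV hP0 hP2 hP3

theorem hT1 : T1 := t1 hP0 hVF6

theorem hP3b : P3b := p3b

theorem hT2 : T2 := t2 hX1

theorem hT3 : T3 := t3 hP0 hP2 hP3 hP3b hTE hT2

theorem hMainT : MainT := mainT hMainL hP0 hP1 hP2 hP5 hP6 hPV hT1 hT3 hX0 hC1 hC2 hVF6

theorem hPA : PA := pA hP0 hP1 hP2 hP3

theorem hMainA : MainA := mainA hMainL hP1z hPA hP5 hP6 hA2 hC1

theorem hMain3 : Main3 := main3 hMainL hMainO hHalf

end Pool.Agent.Helper10.AL.Asm
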