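import Pool.Agent.Helper10.AL.P.A1
import Pool.Agent.Helper10.AL.P.A2
import Pool.Agent.Helper10.AL.P.G0
import Pool.Agent.Helper10.AL.P.G0u
import Pool.Agent.Helper10.AL.P.CA
import Pool.Agent.Helper10.AL.P.H4d
import Pool.Agent.Helper10.AL.P.G1u
import Pool.Agent.Helper10.AL.P.M1
import Pool.Agent.Helper10.AL.P.M3
import Pool.Agent.Helper10.AL.P.G2au
import Pool.Agent.Helper10.AL.P.G3o
import Pool.Agent.Helper10.AL.P.A4
import Pool.Agent.Helper10.AL.P.CH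
import Pool.Agent.Helper10.AL.P.B0
import Pool.Agent.Helper10.AL.P.B1
import Pool.Agent.Helper10.AL.P.VF1
import Pool.Agent.Helper10.AL.P.B2a
import Pool.Agent.Helper10.AL.P.A3
import Pool.Agent.Helper10.AL.P.VF6
import Pool.Agent.Helper10.AL.P.VF2
import Pool.Agent.Helper10.AL.P.VF3
import Pool.Agent.Helper10.AL.P.VF4
import Pool.Agent.Helper10.AL.P.VF5
import Pool.Agent.Helper10.AL.P.B2b
import Pool.Agent.Helper10.AL.P.B2c
import Pool.Agent.Helper10.AL.P.B3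
import Pool.Agent.Helper10.AL.P.C1
import Pool.Agent.Helper10.AL.P.C2
import Pool.Agent.Helper10.AL.P.E2
import Pool.Agent.Helper10.AL.P.G2o
import Pool.Agent.Helper10.AL.P.H1
import Pool.Agent.Helper10.AL.P.B6
import Pool.Agent.Helper10.AL.P.H3o
import Pool.Agent.Helper10.AL.P.H4a
import Pool.Agent.Helper10.AL.P.H4b
import Pool.Agent.Helper10.AL.P.H4c
import Pool.Agent.Helper10.AL.P.H4g
import Pool.Agent.Helper10.AL.P.A8
import Pool.Agent.Helper10.AL.P.A9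
import Pool.Agent.Helper10.AL.P.A10s
import Pool.Agent.Helper10.AL.P.A10
import Pool.Agent.Helper10.AL.P.N0
import Pool.Agent.Helper10.AL.P.A11
import Pool.Agent.Helper10.AL.P.B7
import Pool.Agent.Helper10.AL.P.LS
import Pool.Agent.Helper10.AL.P.N1
import Pool.Agent.Helper10.AL.P.O1
import Pool.Agent.Helper10.AL.P.K1
import Pool.Agent.Helper10.AL.P.K2u
import Pool.Agent.Helper10.AL.P.M2
import Pool.Agent.Helper10.AL.P.K3u
import Pool.Agent.Helper10.AL.P.N2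
import Pool.Agent.Helper10.AL.P.N3
import Pool.Agent.Helper10.AL.P.O8
import Pool.Agent.Helper10.AL.P.HHo
import Pool.Agent.Helper10.AL.P.I1g
import Pool.Agent.Helper10.AL.P.MainO
import Pool.Agent.Helper10.AL.P.P0
import Pool.Agent.Helper10.AL.P.P1z
import Pool.Agent.Helper10.AL.P.D2a
import Pool.Agent.Helper10.AL.P.P1
import Pool.Agent.Helper10.AL.P.TE
import Pool.Agent.Helper10.AL.P.X0
import Pool.Agent.Helper10.AL.P.X1
import Pool.Agent.Helper10.AL.P.X2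
import Pool.Agent.Helper10.AL.P.X3
import Pool.Agent.Helper10.AL.P.D2b
import Pool.Agent.Helper10.AL.P.P2
import Pool.Agent.Helper10.AL.P.X4
import Pool.Agent.Helper10.AL.P.Half
import Pool.Agent.Helper10.AL.P.MainX
import Pool.Agent.Helper10.AL.P.U1
import Pool.Agent.Helper10.AL.P.B5
import Pool.Agent.Helper10.AL.P.U2
import Pool.Agent.Helper10.AL.P.U3
import Pool.Agent.Helper10.AL.P.U4
import Pool.Agent.Helper10.AL.P.Po
import Pool.Agent.Helper10.AL.P.U5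
import Pool.Agent.Helper10.AL.P.U5e
import Pool.Agent.Helper10.AL.P.G2av
import Pool.Agent.Helper10.AL.P.U6
import Pool.Agent.Helper10.AL.P.UZ1
import Pool.Agent.Helper10.AL.P.U6r
import Pool.Agent.Helper10.AL.P.X3u
import Pool.Agent.Helper10.AL.P.UZ2
import Pool.Agent.Helper10.AL.P.X4u
import Pool.Agent.Helper10.AL.P.MainU

/-!
Arc length of polynomials over windows, large degree: assembly of the pieces.
-/

set_option autoImplicit false

namespace Pool.Agent.Helper10.AL.AsmU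

open Pool.Agent.Helper10.AL

theorem hA1 : A1 := a1

theorem hA2 : A2 := a2 hA1

theorem hG0 : G0 := g0

theorem hG0u : G0u := g0u

theorem hCA : CA := cA

theorem hH4d : H4d := h4d hA2

theorem hG1u : G1u := g1u hA1 hA2 hCA hH4d

theorem hM1 : M1 := m1 hA1 hA2

theorem hM3 : M3 := m3

theorem hG2au : G2au := g2au hA1 hA2 hM1 hM3

theorem hG3o : G3o := g3o hA1 hA2 hG0 hG0u hG1u hG2au

theorem hA4 : A4 := a4

theorem hCH : CH := cH hA1 hA4

theorem hB0 : B0 := b0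

theorem hB1 : B1 := b1 hA1 hA2 hB0

theorem hVF1 : VF1 := vF1

theorem hB2a : B2a := b2a hB1 hVF1

theorem hA3 : A3 := a3 hA2

theorem hVF6 : VF6 := vF6

theorem hVF2 : VF2 := vF2 hVF6

theorem hVF3 : VF3 := vF3 hVF2 hVF6

theorem hVF4 : VF4 := vF4 hVF6

theorem hVF5 : VF5 := vF5 hVF1 hVF3 hVF4 hVF6

theorem hB2b : B2b := b2b hA1 hA2 hA3 hB0 hB1 hVF6 hVF5

theorem hB2c : B2c := b2c hA3 hB0 hB1

theorem hB3 : B3 := b3 hA1 hA4 hB2a hB2b hB2c hVF1 hVF2 hVF5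

theorem hC1 : C1 := c1

theorem hC2 : C2 := c2 hC1

theorem hE2 : E2 := e2 hA2 hB1 hB3 hC1 hC2 hVF1 hVF3

theorem hG2o : G2o := g2o hA1 hA2 hG0 hG0u hG1u hG2au

theorem hH1 : H1 := h1 hA1 hA2

theorem hB6 : B6 := b6 hB1 hA2

theorem hH3o : H3o := h3o hA1 hA2 hB2c hB6 hC1 hC2 hE2 hVF1 hVF2 hVF4 hVF6

theorem hH4a : H4a := h4a

theorem hH4b : H4b := h4b

theorem hH4c : H4c := h4c hA1 hA2 hA3

theorem hH4g : H4g := h4g hA1 hA2 hB6 hCA hH4a hH4b hH4c hH4d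

theorem hA8 : A8 := a8

theorem hA9 : A9 := a9 hA8 hA1

theorem hA10s : A10s := a10s

theorem hA10 : A10 := a10 hA1 hA9 hA10s

theorem hN0 : N0 := n0

theorem hA11 : A11 := a11 hA2 hA10 hN0

theorem hB7 : B7 := b7 hA1 hA2 hA11 hN0

theorem hLS : LS := lS hA1 hA2 hB3 hB7

theorem hN1 : N1 := n1 hN0

theorem hO1 : O1 := o1 hA1 hA2 hB3 hB7 hC1 hC2 hLS hN1 hVF1 hVF2

theorem hK1 : K1 := k1

theorem hK2u : K2u := k2u hA1 hA2

theorem hM2 : M2 := m2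

theorem hK3u : K3u := k3u hA1 hA2 hK1 hK2u hM1 hM2

theorem hN2 : N2 := n2 hN0

theorem hN3 : N3 := n3 hN0

theorem hO8 : O8 := o8 hA1 hA2 hA11 hC1 hC2 hK3u hLS hN0 hN2 hN3 hO1 hVF1 hVF2

theorem hHHo : HHo := hHo hA1 hA2 hCH hE2 hG2o hH1 hH3o hH4g hO1 hO8

theorem hI1g : I1g := i1g

theorem hMainO : MainO := mainO hA1 hA2 hG3o hHHo hI1g hO1 hO8

theorem hP0 : P0 := p0

theorem hP1z : P1z := p1z

theorem hD2a : D2a := d2a

theorem hP1 : P1 := p1 hP1z hD2a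

theorem hTE : TE := tE

theorem hX0 : X0 := x0

theorem hX1 : X1 := x1

theorem hX2 : X2 := x2 hA2 hG0u hG2au hM1

theorem hX3 : X3 := x3 hO1 hX1 hX2

theorem hD2b : D2b := d2b

theorem hP2 : P2 := p2 hP1z hD2b

theorem hX4 : X4 := x4 hO1 hP1z hP2 hX1 hC1 hC2 hM1 hA2 hVF6

theorem hHalf : Half := half

theorem hMainX : MainX := mainX hMainO hP0 hP1 hTE hX0 hX3 hX4 hHalf

theorem hU1 : U1 := u1 hA1 hA2 hB3 hB7 hC1 hC2 hLS hN1 hVF1 hVF2

theorem hB5 : B5 := b5 hA1 hA4 hB2b hB2c hVF5 hVF6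

theorem hU2 : U2 := u2 hA1 hA2 hA11 hC1 hC2 hK3u hLS hN0 hN2 hN3 hU1 hVF1 hVF2

theorem hU3 : U3 := u3 hA1 hA2 hA4 hA10 hB1 hB5 hB6 hC1 hC2 hCH hE2 hU1 hU2 hVF1 hVF2 hVF3 hVF4 hVF6

theorem hU4 : U4 := u4 hA1 hA2 hB1 hU1 hU3

theorem hPo : Po := po

theorem hU5 : U5 := u5 hA2 hPo

theorem hU5e : U5e := u5e

theorem hG2av : G2av := g2av hA1 hA2 hM3

theorem hU6 : U6 := u6 hG0 hG0u hG1u hG2av

theorem hUZ1 : UZ1 := uZ1 hU1 hU3 hU4 hU5 hU5e hU6 hG1u hX0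

theorem hU6r : U6r := u6r hM1 hA1 hA2 hX1

theorem hX3u : X3u := x3u hX1

theorem hUZ2 : UZ2 := uZ2 hU1 hU3 hU4 hU5 hU5e hU6r hG1u hX3u

theorem hX4u : X4u := x4u hP1z hP2 hX1 hU3 hA2

theorem hMainU : MainU := mainU hMainX hHalf hUZ1 hUZ2 hU1 hU2 hI1g hP1 hTE hX0 hX3u hX4u hA1 hA2

end Pool.Agent.Helper10.AL.AsmU
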