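import Pool.Agent.Helper10.AL.AsmL

/-!
The polynomials of largest arc length over `[a, b]`, `-1 + δ ≤ a < b ≤ 1 - δ`, for large degree:
asymptotic form, and a criterion for the Chebyshev polynomials being the only ones.
-/

set_option autoImplicit false

namespace Pool.Agent.Helper10.AL.CrispI

open Polynomial Set Real
open Helper40.AS (arc Bdd Ext)
open Helper10.AL (VC mu Jv)

theorem result (δ ε : ℝ) (hδ : 0 < δ) (hε : 0 < ε) :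
    ∃ n0 : ℕ, ∀ n : ℕ, n0 ≤ n → ∀ a b : ℝ, -1 + δ ≤ a → a < b → b ≤ 1 - δ →
      (∀ P : ℝ[X], Ext n a b P → ∃ ρ ∈ Icc (-1 : ℝ) 1,
        (∀ ρ' ∈ Icc (-1 : ℝ) 1, Jv n ρ' a b ≤ Jv n ρ a b + ε) ∧
        |arc a b P - Jv n ρ a b| ≤ ε ∧
        ∃ σ : ℝ, (σ = 1 ∨ σ = -1) ∧ ∀ x ∈ Icc (-1 + δ) (1 - δ),
          |P.eval x - σ * cos (n * arccos x - mu ρ (arccos x))| ≤ ε) ∧
      ((∀ ρ ∈ Icc (-1 : ℝ) 1, Jv n ρ a b + ε * (1 - |ρ|) ≤ Jv n 1 a b) →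
        ∀ P : ℝ[X], Ext n a b P ↔ P = Chebyshev.T ℝ n ∨ P = -Chebyshev.T ℝ n) := by
  obtain ⟨n1, h1⟩ := Helper10.AL.Asm.hMainA δ ε hδ hε
  obtain ⟨n2, h2⟩ := Helper10.AL.Asm.hMainT δ ε hδ hε
  refine ⟨max n1 n2, fun n hn a b ha hab hb => ⟨fun P hP => ?_, fun hJ P => ?_⟩⟩
  · obtain ⟨ρ, hρ1, hρ2, h3, h4, h5⟩ := h1 n (le_trans (le_max_left _ _) hn) a b P ha hab hb hP
    exact ⟨ρ, ⟨hρ1, hρ2⟩, fun ρ' hρ' => h3 ρ' hρ'.1 hρ'.2, h4, h5⟩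
  · exact h2 n (le_trans (le_max_right _ _) hn) a b P ha hab hb
      (fun ρ hρ1 hρ2 => hJ ρ ⟨hρ1, hρ2⟩)

end Pool.Agent.Helper10.AL.CrispI
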