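import Pool.Agent.Helper40.AS.Many

/-!
Arc length of polynomials over compact windows, large degree: common definitions.
-/

set_option autoImplicit false

namespace Pool.Agent.Helper10.AL

open Polynomial Set Real MeasureTheory intervalIntegral

noncomputable section

/-- real trigonometric polynomials of degree at most `n` -/
def TP (n : ℕ) (f : ℝ → ℝ) : Prop :=
  ∃ F : ℂ[X], F.natDegree ≤ 2 * n ∧ ∀ θ : ℝ, F.eval (Complex.exp (θ * Complex.I)) =
    Complex.exp (n * θ * Complex.I) * (f θ : ℂ)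

/-- real trigonometric polynomials of degree at most `n`, bounded by `1` in absolute value -/
def TB (n : ℕ) (f : ℝ → ℝ) : Prop := TP n f ∧ ∀ θ : ℝ, |f θ| ≤ 1

/-- the trigonometric form of a polynomial -/
def qq (P : ℝ[X]) (θ : ℝ) : ℝ := P.eval (cos θ)

/-- arc length of the graph of `f` -/
def En (f : ℝ → ℝ) (u v : ℝ) : ℝ := ∫ θ in u..v, √(1 + (deriv f θ) ^ 2)

/-- total variation of `f` -/
def Va (f : ℝ → ℝ) (u v : ℝ) : ℝ := ∫ θ in u..v, |deriv f θ|

/-- total variation of the cosine over `[0, x]` -/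
def VC (x : ℝ) : ℝ := ∫ s in (0 : ℝ)..x, |sin s|

/-- the oscillation constant `0.42103...` of `VC x - 2 x / π` -/
def cs : ℝ := 2 * √(1 - 4 / π ^ 2) - 4 / π * arccos (2 / π)

/-- error per monotone piece -/
def kk (n : ℕ) : ℝ := 10 * (1 + Real.log n) / (n : ℝ) ^ 2

/-- error per window -/
def er (n : ℕ) : ℝ := 60 * (1 + Real.log n) / n

/-- smallest variation between two critical points at scaled distance `l` -/
def Wt (n : ℕ) (l : ℝ) : ℝ := if l ≤ π then 2 * (1 - cos (l / 2)) else 2 + (l - π) / n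

/-- the majorant near a slow point -/
def Gm (μ ψ s : ℝ) : ℝ := -cos (min (√(s ^ 2 + 2 * μ * ψ * s + ψ ^ 2)) π)

/-- compact windows of length bounded below -/
def Mid (δ a b : ℝ) : Prop := -1 + δ ≤ a ∧ a + δ ≤ b ∧ b ≤ 1 - δ

/-- non-degeneracy of `f` at level `1/1000` on `[u, v]` -/
def ND (n : ℕ) (f : ℝ → ℝ) (u v : ℝ) : Prop :=
  ∀ θ ∈ Icc u v, |deriv f θ| ≤ (n : ℝ) / 1000 → (n : ℝ) ^ 2 / 1000 ≤ |deriv (deriv f) θ|

end

end Pool.Agent.Helper10.AL
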