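import Pool.Agent.Helper10.AL.P.TE
import Pool.Agent.Helper10.AL.P.X0
import Pool.Agent.Helper10.AL.P.X1
import Pool.Agent.Helper10.AL.P.P2
import Pool.Agent.Helper10.AL.P.PA
import Pool.Agent.Helper10.AL.P.Half

/-!
Arc length of polynomials over windows: extremal polynomials with `n` alternation points, their
explicit form and the equation of the parameter.
-/

set_option autoImplicit false

namespace Pool.Agent.Helper10.AL

open Polynomial Set Real MeasureTheory intervalIntegral
open Pool.Agent.Helper40.AS (arc Bdd Ext quad)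

noncomputable section

/-- the first variation of the arc length over `[a, b]` in the direction `w P'`, where `w'` is the
derivative of `w` -/
def Bal (a b : ℝ) (P : ℝ[X]) (w w' : ℝ → ℝ) : ℝ :=
  w b * √(1 + P.derivative.eval b ^ 2) - w a * √(1 + P.derivative.eval a ^ 2) -
    ∫ x in a..b, w' x / √(1 + P.derivative.eval x ^ 2)

/-- the speed of the phase -/
def omg (n : ℕ) (c s p t : ℝ) : ℝ := n / √(1 + (s / |c - cos t| + p / (c - cos t) ^ 2))

/-- the Chebyshev polynomial -/
def DetT (n : ℕ) (a b : ℝ) (P : ℝ[X]) : Prop :=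
  (P = Chebyshev.T ℝ n ∨ P = -Chebyshev.T ℝ n) ∧
    0 ≤ Bal a b P (fun x => 1 + x) (fun _ => 1) ∧ Bal a b P (fun x => 1 - x) (fun _ => -1) ≤ 0

/-- stretched Chebyshev polynomials -/
def DetS (n : ℕ) (a b : ℝ) (P : ℝ[X]) : Prop := ∃ s : ℝ, 0 < s ∧
  (P = (Chebyshev.T ℝ n).comp (C (2 / (2 + s)) * X - C (s / (2 + s))) ∨
    P = -(Chebyshev.T ℝ n).comp (C (2 / (2 + s)) * X - C (s / (2 + s)))) ∧
  Bal a b P (fun x => 1 + x) (fun _ => 1) = 0

/-- stretched Chebyshev polynomials -/
def DetS' (n : ℕ) (a b : ℝ) (P : ℝ[X]) : Prop := ∃ s : ℝ, 0 < s ∧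
  (P = (Chebyshev.T ℝ n).comp (C (2 / (2 + s)) * X + C (s / (2 + s))) ∨
    P = -(Chebyshev.T ℝ n).comp (C (2 / (2 + s)) * X + C (s / (2 + s)))) ∧
  Bal a b P (fun x => 1 - x) (fun _ => -1) = 0

/-- the Chebyshev polynomial of degree `n - 1` -/
def DetU (n : ℕ) (a b : ℝ) (P : ℝ[X]) : Prop :=
  (P = Chebyshev.T ℝ ((n : ℤ) - 1) ∨ P = -Chebyshev.T ℝ ((n : ℤ) - 1)) ∧
    Bal a b P (fun x => 1 - x ^ 2) (fun x => -2 * x) = 0

/-- Zolotarev polynomials -/
def DetZ (n : ℕ) (a b : ℝ) (P : ℝ[X]) : Prop := ∃ c s p σ : ℝ, 1 < |c| ∧ 0 ≤ s ∧ 0 ≤ p ∧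
  p ≤ s ^ 2 / 4 ∧ (σ = 1 ∨ σ = -1) ∧ P.derivative.eval c = 0 ∧
  (∫ t in (0 : ℝ)..π, omg n c s p t) = ((n : ℝ) - 1) * π ∧
  (∀ θ ∈ Icc 0 π, P.eval (cos θ) = σ * cos (∫ t in (0 : ℝ)..θ, omg n c s p t)) ∧
  Bal a b P (fun x => (1 - x ^ 2) / (c - x)) (fun x => (x ^ 2 - 2 * c * x + 1) / (c - x) ^ 2) = 0

/-- the extremal polynomials and the equation of the parameter -/
def Det (n : ℕ) (a b : ℝ) (P : ℝ[X]) : Prop :=
  DetT n a b P ∨ DetS n a b P ∨ DetS' n a b P ∨ DetU n a b P ∨ DetZ n a b P

theorem bal_refl (a b : ℝ) (P : ℝ[X]) (w w' : ℝ → ℝ) :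
    Bal (-b) (-a) (P.comp (-X)) w w' = -Bal a b P (fun x => w (-x)) (fun x => -w' (-x)) := by
  unfold Bal
  have h : ∀ x : ℝ, (P.comp (-X)).derivative.eval x ^ 2 = P.derivative.eval (-x) ^ 2 := by
    intro x
    rw [Pool.Agent.Helper40.AS.comp_der_eval]
    ring
  simp only [h, neg_neg]
  have h2 : (∫ x in (-b)..(-a), w' x / √(1 + P.derivative.eval (-x) ^ 2)) =
      ∫ x in a..b, w' (-x) / √(1 + P.derivative.eval x ^ 2) := by
    have := intervalIntegral.integral_comp_neg (a := a) (b := b)
      (fun x => w' x / √(1 + P.derivative.eval (-x) ^ 2))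
    simp only [neg_neg] at this
    rw [this]
  have h3 : (∫ x in a..b, -w' (-x) / √(1 + P.derivative.eval x ^ 2)) =
      -∫ x in a..b, w' (-x) / √(1 + P.derivative.eval x ^ 2) := by
    rw [← intervalIntegral.integral_neg]
    refine intervalIntegral.integral_congr fun x _ => ?_
    ring
  rw [h2, h3]
  ring

/-- integration by parts for multiples of the derivative -/
theorem bal_one (a b : ℝ) (P W : ℝ[X]) :
    (∫ x in a..b, P.derivative.eval x * (W * P.derivative).derivative.eval x /
      √(1 + (P.derivative.eval x) ^ 2)) = Bal a b P (fun x => W.eval x)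
        (fun x => W.derivative.eval x) := by
  unfold Bal
  set s : ℝ → ℝ := fun x => √(1 + (P.derivative.eval x) ^ 2) with hs
  have hs1 : ∀ x, 0 < s x := fun x => Pool.Agent.Helper40.AS.s_pos P x
  have hsq : ∀ x, s x ^ 2 = 1 + (P.derivative.eval x) ^ 2 := fun x =>
    Real.sq_sqrt (by positivity)
  have hsc : Continuous s := Pool.Agent.Helper40.AS.cont_s P
  have hsd : ∀ x, HasDerivAt s (P.derivative.eval x * P.derivative.derivative.eval x / s x) x := by
    intro x
    have h1 : HasDerivAt (fun x => 1 + (P.derivative.eval x) ^ 2)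
        (2 * P.derivative.eval x * P.derivative.derivative.eval x) x := by
      have := ((P.derivative.hasDerivAt x).pow 2).const_add 1
      simpa using this
    have h2 := h1.sqrt (by positivity)
    convert h2 using 1
    simp only [hs]
    field_simp
  have hFd : ∀ x ∈ uIcc a b, HasDerivAt (fun x => W.eval x * s x)
      (P.derivative.eval x * (W * P.derivative).derivative.eval x / s x +
        W.derivative.eval x / s x) x := by
    intro x _
    refine ((W.hasDerivAt x).mul (hsd x)).congr_deriv ?_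
    have hsx := (hs1 x).ne'
    have e3 : (W * P.derivative).derivative.eval x =
        W.derivative.eval x * P.derivative.eval x + W.eval x * P.derivative.derivative.eval x := by
      rw [derivative_mul, eval_add, eval_mul, eval_mul]
    rw [e3]
    have e5 : W.derivative.eval x * s x = W.derivative.eval x * s x ^ 2 / s x := by field_simp
    rw [e5, hsq]
    field_simp
    ring
  have hi1 : IntervalIntegrable (fun x => P.derivative.eval x *
      (W * P.derivative).derivative.eval x / s x)
      volume a b := (Pool.Agent.Helper40.AS.cont_dens P (W * P.derivative)).intervalIntegrable _ _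
  have hi2 : IntervalIntegrable (fun x => W.derivative.eval x / s x) volume a b := by
    apply Continuous.intervalIntegrable
    exact Continuous.div (by fun_prop) hsc fun x => (hs1 x).ne'
  have h1 := intervalIntegral.integral_eq_sub_of_hasDerivAt hFd (hi1.add hi2)
  rw [intervalIntegral.integral_add hi1 hi2] at h1
  linarith

theorem det_T_aux {n : ℕ} (hn : 1 ≤ n) {a b : ℝ} (hab : a < b) {P : ℝ[X]} {σ : ℝ}
    (hσ : σ = 1 ∨ σ = -1) (hP : P = C σ * Chebyshev.T ℝ n) (h : Ext n a b P) :
    0 ≤ Bal a b P (fun x => 1 + x) (fun _ => 1) ∧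
      Bal a b P (fun x => 1 - x) (fun _ => -1) ≤ 0 := by
  have hσ2 : σ * σ = 1 := by rcases hσ with e | e <;> rw [e] <;> norm_num
  have hn1 : (0 : ℝ) < n := by exact_mod_cast hn
  have hd : P.derivative = C σ * (Chebyshev.T ℝ (n : ℤ)).derivative := by
    rw [hP, derivative_C_mul]
  have hdeg : P.natDegree ≤ n := natDegree_le_iff_degree_le.2 h.deg
  have hdd : P.derivative.natDegree ≤ n - 1 :=
    (natDegree_derivative_le P).trans (by omega)
  have h1 : P.eval 1 * P.derivative.eval 1 = (n : ℝ) ^ 2 := by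
    rw [hd, hP, eval_mul, eval_mul, eval_C, Chebyshev.T_derivative_eq_U, eval_mul,
      Chebyshev.T_eval_one, Chebyshev.U_eval_one]
    simp only [Int.cast_natCast, Int.cast_sub, Int.cast_one, eval_natCast]
    linear_combination (n : ℝ) ^ 2 * hσ2
  have h2 : P.eval (-1) * P.derivative.eval (-1) = -(n : ℝ) ^ 2 := by
    rw [hd, hP, eval_mul, eval_mul, eval_C, Chebyshev.T_derivative_eq_U, eval_mul,
      Chebyshev.T_eval_neg_one, Chebyshev.U_eval_neg_one]
    simp only [Int.cast_natCast, Int.cast_sub, Int.cast_one, eval_natCast]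
    have e1 : (((n : ℤ).negOnePow : ℤˣ) : ℝ) * ((((n : ℤ) - 1).negOnePow : ℤˣ) : ℝ) = -1 := by
      rw [Int.negOnePow_sub, Int.negOnePow_one]
      rcases Int.units_eq_one_or ((n : ℤ).negOnePow) with e | e <;> rw [e] <;> simp
    linear_combination (n : ℝ) ^ 2 * hσ2 * (((n : ℤ).negOnePow : ℤˣ) : ℝ) *
      ((((n : ℤ) - 1).negOnePow : ℤˣ) : ℝ) + (n : ℝ) ^ 2 * e1
  have hcon : ∀ W : ℝ[X], W.natDegree ≤ 1 → ∀ τ : ℝ,
      τ * (W.eval 1 * (P.eval 1 * P.derivative.eval 1)) ≤ 0 →
      τ * (W.eval (-1) * (P.eval (-1) * P.derivative.eval (-1))) ≤ 0 →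
      τ * Bal a b P (fun x => W.eval x) (fun x => W.derivative.eval x) ≤ 0 := by
    intro W hW τ w1 w2
    have h3 := Pool.Agent.Helper40.AS.kkt h hab.le (G := C τ * (W * P.derivative)) ?_ ?_
    · have h4 : (∫ x in a..b, P.derivative.eval x * (C τ * (W * P.derivative)).derivative.eval x /
          √(1 + (P.derivative.eval x) ^ 2)) = τ * ∫ x in a..b, P.derivative.eval x *
          (W * P.derivative).derivative.eval x / √(1 + (P.derivative.eval x) ^ 2) := by
        rw [← intervalIntegral.integral_const_mul]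
        refine intervalIntegral.integral_congr fun x _ => ?_
        simp only [derivative_C_mul, eval_mul, eval_C]
        ring
      rw [h4, bal_one] at h3
      exact h3
    · apply degree_le_of_natDegree_le
      refine natDegree_mul_le.trans ?_
      rw [natDegree_C, zero_add]
      refine natDegree_mul_le.trans ?_
      omega
    · intro x hx hx1
      rw [eval_mul, eval_mul, eval_C]
      rcases eq_or_lt_of_le hx.1 with e | e
      · rw [← e]
        linarith
      · rcases eq_or_lt_of_le hx.2 with e' | e'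
        · rw [e']
          linarith
        · rw [Pool.Agent.Helper40.AS.contact_int h.bdd ⟨e, e'⟩ hx1]
          simp
  constructor
  · have h3 := hcon (1 + X) ?_ (-1) ?_ ?_
    · have e1 : (fun x => (1 + X : ℝ[X]).eval x) = fun x : ℝ => 1 + x := by
        funext x; simp
      have e2 : (fun x => (1 + X : ℝ[X]).derivative.eval x) = fun _ : ℝ => 1 := by
        funext x; simp
      rw [e1, e2] at h3
      linarith
    · exact (natDegree_add_le _ _).trans (by simp)
    · rw [h1]
      simp only [eval_add, eval_one, eval_X]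
      nlinarith [sq_nonneg (n : ℝ)]
    · rw [h2]
      simp
  · have h3 := hcon (1 - X) ?_ 1 ?_ ?_
    · have e1 : (fun x => (1 - X : ℝ[X]).eval x) = fun x : ℝ => 1 - x := by
        funext x; simp
      have e2 : (fun x => (1 - X : ℝ[X]).derivative.eval x) = fun _ : ℝ => -1 := by
        funext x; simp
      rw [e1, e2] at h3
      linarith
    · exact (natDegree_sub_le _ _).trans (by simp)
    · rw [h1]
      simp
    · rw [h2]
      simp only [eval_sub, eval_one, eval_X]
      nlinarith [sq_nonneg (n : ℝ)]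

theorem det_T {n : ℕ} (hn : 1 ≤ n) {a b : ℝ} (hab : a < b) {P : ℝ[X]}
    (hP : P = Chebyshev.T ℝ n ∨ P = -Chebyshev.T ℝ n) (h : Ext n a b P) : DetT n a b P := by
  refine ⟨hP, ?_⟩
  rcases hP with e | e
  · exact det_T_aux hn hab (σ := 1) (Or.inl rfl) (by rw [e]; simp) h
  · exact det_T_aux hn hab (σ := -1) (Or.inr rfl) (by rw [e]; simp) h

/-- the first variation vanishes in the direction `W P'` -/
theorem det_zero {n : ℕ} (hn : 1 ≤ n) {a b : ℝ} (hab : a < b) {P W : ℝ[X]} (h : Ext n a b P)
    (hdeg : W.natDegree + P.natDegree ≤ 1 + n)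
    (hW1 : |P.eval 1| = 1 → W.eval 1 * P.derivative.eval 1 = 0)
    (hW2 : |P.eval (-1)| = 1 → W.eval (-1) * P.derivative.eval (-1) = 0) :
    Bal a b P (fun x => W.eval x) (fun x => W.derivative.eval x) = 0 := by
  rw [← bal_one]
  exact x1_zero (D := 1) hn hab h (by rw [one_mul])
    (fun x hx hx1 => Pool.Agent.Helper40.AS.contact_int h.bdd hx hx1) hW1 hW2 (by simpa using hdeg)

theorem det_U {n : ℕ} (hn : 3 ≤ n) {a b : ℝ} (hab : a < b) {P : ℝ[X]}
    (hP : P = Chebyshev.T ℝ ((n : ℤ) - 1) ∨ P = -Chebyshev.T ℝ ((n : ℤ) - 1)) (h : Ext n a b P) :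
    DetU n a b P := by
  refine ⟨hP, ?_⟩
  have hdT : (Chebyshev.T ℝ ((n : ℤ) - 1)).natDegree = n - 1 := by
    rw [Chebyshev.natDegree_T]
    omega
  have hd : P.natDegree = n - 1 := by
    rcases hP with e | e
    · rw [e, hdT]
    · rw [e, natDegree_neg, hdT]
  have h1 := det_zero (W := 1 - X ^ 2) (by omega) hab h ?_ (by simp) (by simp)
  · have e1 : (fun x => (1 - X ^ 2 : ℝ[X]).eval x) = fun x : ℝ => 1 - x ^ 2 := by
      funext x; simp
    have e2 : (fun x => (1 - X ^ 2 : ℝ[X]).derivative.eval x) = fun x : ℝ => -2 * x := by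
      funext x
      simp only [derivative_sub, derivative_one, derivative_X_pow, eval_sub, eval_zero, eval_mul,
        eval_C, eval_pow, eval_X]
      push_cast
      ring
    rw [e1, e2] at h1
    exact h1
  · rw [hd]
    have : (1 - X ^ 2 : ℝ[X]).natDegree ≤ 2 :=
      (natDegree_sub_le _ _).trans (by simp)
    omega

theorem det_S {n : ℕ} (hn : 3 ≤ n) {a b s : ℝ} (hab : a < b) {P : ℝ[X]} (h : Ext n a b P)
    (hPar : Par n 1 s 0 P) : DetT n a b P ∨ DetS n a b P := by
  have hne := Pool.Agent.Helper40.AS.ext_ne h (by omega) hab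
  have hdeg : P.natDegree ≤ n := natDegree_le_iff_degree_le.2 h.deg
  have hn1 : (0 : ℝ) < n := by exact_mod_cast (show 0 < n by omega)
  have hs := hPar.hs
  -- the identity of polynomials
  have hode : ∀ x ∈ Ioo (-1 : ℝ) 1, (n : ℝ) ^ 2 * (1 - P.eval x ^ 2) =
      (1 + x) * (1 + s - x) * P.derivative.eval x ^ 2 := by
    intro x hx
    have h1 := hPar.ode x hx
    have h2 : (1 : ℝ) - x ≠ 0 := by linarith [hx.2]
    rw [h1]
    field_simp
    ring
  have hid : C ((n : ℝ) ^ 2) * (1 - P ^ 2) = (1 + X) * (C (1 + s) - X) * P.derivative ^ 2 := by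
    refine Polynomial.eq_of_infinite_eval_eq _ _ ((Ioo_infinite (show (-1 : ℝ) < 1 by
      norm_num)).mono fun x hx => ?_)
    simp only [Set.mem_ofPred_eq, eval_mul, eval_C, eval_sub, eval_one, eval_pow, eval_add, eval_X]
    exact hode x hx
  have hid' : ∀ x : ℝ, (n : ℝ) ^ 2 * (1 - P.eval x ^ 2) =
      (1 + x) * (1 + s - x) * P.derivative.eval x ^ 2 := by
    intro x
    have := congrArg (fun Q : ℝ[X] => Q.eval x) hid
    simpa only [eval_mul, eval_C, eval_sub, eval_one, eval_pow, eval_add, eval_X] using this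
  rcases eq_or_lt_of_le hs with e | hs0
  · left
    apply det_T (by omega) hab _ h
    apply tE n P (by omega) hPar.hm hne
    intro x _
    rw [hid' x, ← e]
    ring
  right
  have h2s : (0 : ℝ) < 2 + s := by linarith
  refine ⟨s, hs0, ?_, ?_⟩
  · set Q : ℝ[X] := P.comp (C ((2 + s) / 2) * X + C (s / 2)) with hQ
    have hQd : Q.derivative = C ((2 + s) / 2) * P.derivative.comp (C ((2 + s) / 2) * X +
        C (s / 2)) := by
      rw [hQ, derivative_comp]
      simp
    have hQP : Q.comp (C (2 / (2 + s)) * X - C (s / (2 + s))) = P := by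
      rw [hQ, comp_assoc]
      have : (C ((2 + s) / 2) * X + C (s / 2) : ℝ[X]).comp
          (C (2 / (2 + s)) * X - C (s / (2 + s))) = X := by
        apply Polynomial.funext
        intro x
        simp only [eval_comp, eval_add, eval_sub, eval_mul, eval_C, eval_X]
        field_simp
        ring
      rw [this, comp_X]
    have hQne : Q.derivative ≠ 0 := by
      intro h0
      have h1 : Q.natDegree = 0 := derivative_eq_zero.1 h0
      apply hne
      rw [← hQP, eq_C_of_natDegree_eq_zero h1]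
      simp
    have hQ1 : |Q.eval (-1)| = 1 := by
      rw [hQ, eval_comp]
      have : (C ((2 + s) / 2) * X + C (s / 2) : ℝ[X]).eval (-1) = -1 := by
        simp only [eval_add, eval_mul, eval_C, eval_X]
        ring
      rw [this]
      exact hPar.hm
    have hQT := tE n Q (by omega) hQ1 hQne (by
      intro x _
      have e1 : Q.eval x = P.eval ((2 + s) / 2 * x + s / 2) := by
        rw [hQ, eval_comp]
        simp
      have e2 : Q.derivative.eval x = (2 + s) / 2 * P.derivative.eval ((2 + s) / 2 * x + s / 2) := by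
        rw [hQd, eval_mul, eval_comp]
        simp
      rw [e1, e2, hid']
      ring)
    rcases hQT with e | e
    · left
      rw [← hQP, e]
    · right
      rw [← hQP, e, neg_comp]
  · have h1 := det_zero (W := 1 + X) (by omega) hab h ?_ ?_ (by simp)
    · have e1 : (fun x => (1 + X : ℝ[X]).eval x) = fun x : ℝ => 1 + x := by
        funext x; simp
      have e2 : (fun x => (1 + X : ℝ[X]).derivative.eval x) = fun _ : ℝ => 1 := by
        funext x; simp
      rw [e1, e2] at h1
      exact h1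
    · have : (1 + X : ℝ[X]).natDegree ≤ 1 :=
        (natDegree_add_le _ _).trans (by simp)
      omega
    · intro h1
      have h2 := hid' 1
      have h3 : P.eval 1 ^ 2 = 1 := by rw [← sq_abs, h1, one_pow]
      rw [h3, sub_self, mul_zero] at h2
      have h4 : P.derivative.eval 1 ^ 2 = 0 := by
        have : (1 + 1) * (1 + s - 1) * P.derivative.eval 1 ^ 2 = 0 := h2.symm
        have h5 : (1 + 1) * (1 + s - 1) ≠ 0 := by
          have : (1 + 1) * (1 + s - 1) = 2 * s := by ring
          rw [this]; positivity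
        exact (mul_eq_zero.1 this).resolve_left h5
      rw [pow_eq_zero_iff (by norm_num)] at h4
      rw [h4, mul_zero]

theorem det_omg_cont {n : ℕ} {c s p : ℝ} (hc : 1 < |c|) (hs : 0 ≤ s) (hp : 0 ≤ p) :
    Continuous (omg n c s p) := by
  have h0 : ∀ t : ℝ, c - cos t ≠ 0 := by
    intro t h
    have h1 := abs_cos_le_one t
    have h2 : c = cos t := by linarith
    rw [h2] at hc
    linarith
  unfold omg
  refine Continuous.div continuous_const ?_ fun t => ?_
  · refine Continuous.sqrt (continuous_const.add (Continuous.add ?_ ?_))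
    · exact continuous_const.div (by fun_prop) fun t => abs_ne_zero.2 (h0 t)
    · exact continuous_const.div (by fun_prop) fun t => pow_ne_zero 2 (h0 t)
  · have : 0 ≤ s / |c - cos t| + p / (c - cos t) ^ 2 := by positivity
    positivity

theorem det_omg_eq {n : ℕ} {c s p : ℝ} (hc : 1 < c) : omg n c s p = om n c s p := by
  funext t
  have : |c - cos t| = c - cos t := abs_of_pos (by linarith [cos_le_one t])
  rw [omg, om, this]

theorem det_Z {n : ℕ} (hP2 : P2) (hn : 3 ≤ n) {a b c s p : ℝ} (ha : -1 ≤ a) (hab : a < b)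
    (hb : b ≤ 1) {P : ℝ[X]} (h : Ext n a b P) (hA : Alt n P) (hPar : Par n c s p P) (hc : 1 < c)
    (hd : P.derivative.eval c = 0) : DetZ n a b P := by
  have hdeg : P.natDegree ≤ n := natDegree_le_iff_degree_le.2 h.deg
  obtain ⟨q1, -, -, q4, -, -⟩ := hP2 n c s p P hn hdeg h.bdd hA hPar
  have hcabs : 1 < |c| := by rwa [abs_of_pos (by linarith)]
  have hcont := det_omg_cont (n := n) hcabs hPar.hs hPar.hp
  have hint : ∀ u v : ℝ, IntervalIntegrable (omg n c s p) volume u v := fun u v =>
    hcont.intervalIntegrable u v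
  rw [← det_omg_eq hc] at q1 q4
  have q4' := q4 hc
  refine ⟨c, s, p, P.eval (-1) * (-1) ^ (n - 1), hcabs, hPar.hs, hPar.hp, hPar.hps, ?_, hd, q4',
    ?_, ?_⟩
  · have h1 : |P.eval (-1) * (-1) ^ (n - 1)| = 1 := by
      rw [abs_mul, hPar.hm, abs_pow, abs_neg, abs_one, one_pow, one_mul]
    rcases abs_cases (P.eval (-1) * (-1) ^ (n - 1)) with e | e
    · left; linarith
    · right; linarith
  · have h1 : EqOn (fun θ : ℝ => P.eval (cos θ)) (fun θ => P.eval (-1) * (-1) ^ (n - 1) *
        cos (∫ t in (0 : ℝ)..θ, omg n c s p t)) (Ioo 0 π) := by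
      intro θ hθ
      have h2 := q1 θ hθ.1 hθ.2.le
      have h3 : (∫ t in θ..π, omg n c s p t) =
          ((n - 1 : ℕ) : ℝ) * π - ∫ t in (0 : ℝ)..θ, omg n c s p t := by
        have h4 := intervalIntegral.integral_add_adjacent_intervals (hint 0 θ) (hint θ π)
        rw [q4'] at h4
        rw [Nat.cast_sub (by omega)]
        push_cast
        linarith
      have h5 : P.eval (cos θ) = qq P θ := rfl
      simp only
      rw [h5, h2, h3, cos_sub, Real.cos_nat_mul_pi, Real.sin_nat_mul_pi]
      ring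
    have h2 : Continuous fun θ : ℝ => ∫ t in (0 : ℝ)..θ, omg n c s p t :=
      intervalIntegral.continuous_primitive hint 0
    have h3 := h1.closure (by fun_prop) (by fun_prop)
    rw [closure_Ioo pi_pos.ne] at h3
    exact fun θ hθ => h3 hθ
  · obtain ⟨R, hR⟩ := dvd_iff_isRoot.2 (show IsRoot P.derivative c from hd)
    have hPD : P.derivative = (C c - X) * (-R) := by rw [hR]; ring
    have hx : ∀ x : ℝ, x ≤ 1 → (C c - X : ℝ[X]).eval x ≠ 0 := by
      intro x hx
      simp only [eval_sub, eval_C, eval_X]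
      linarith
    have h1 := x1 n a b P (C c - X) (-R) (1 - X ^ 2) (by omega) ha hab hb h hPD ?_ ?_ (by simp)
      (by simp) (fun x hx' => hx x (hx'.2.trans hb))
    · unfold Bal
      simp only [eval_sub, eval_one, eval_pow, eval_X, eval_C, derivative_sub, derivative_one,
        derivative_X_pow, derivative_C, derivative_X, zero_sub, eval_neg, eval_mul] at h1
      rw [sub_eq_zero, h1]
      refine intervalIntegral.integral_congr fun x hx' => ?_
      simp only
      congr 2
      push_cast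
      ring
    · have e1 : (1 - X ^ 2 : ℝ[X]).natDegree ≤ 2 := (natDegree_sub_le _ _).trans (by simp)
      have e2 : (C c - X : ℝ[X]).natDegree = 1 := by
        rw [natDegree_sub, natDegree_X_sub_C]
      omega
    · intro x hx' hx1
      have h2 := Pool.Agent.Helper40.AS.contact_int h.bdd hx' hx1
      rw [hPD, eval_mul] at h2
      exact (mul_eq_zero.1 h2).resolve_left (hx x hx'.2.le)

theorem bal_neg (a b : ℝ) (P : ℝ[X]) (w w' : ℝ → ℝ) :
    Bal a b P (fun x => -w x) (fun x => -w' x) = -Bal a b P w w' := by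
  unfold Bal
  have h3 : (∫ x in a..b, -w' x / √(1 + P.derivative.eval x ^ 2)) =
      -∫ x in a..b, w' x / √(1 + P.derivative.eval x ^ 2) := by
    rw [← intervalIntegral.integral_neg]
    refine intervalIntegral.integral_congr fun x _ => ?_
    ring
  rw [h3]
  ring

theorem bal_congr {a b : ℝ} (P : ℝ[X]) {w w' v v' : ℝ → ℝ} (h : ∀ x, w x = v x)
    (h' : ∀ x, w' x = v' x) : Bal a b P w w' = Bal a b P v v' := by
  rw [show w = v from funext h, show w' = v' from funext h']

theorem det_cheb (n : ℕ) : (Chebyshev.T ℝ (n : ℤ)).comp (-X) = Chebyshev.T ℝ (n : ℤ) ∨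
    (Chebyshev.T ℝ (n : ℤ)).comp (-X) = -Chebyshev.T ℝ (n : ℤ) := by
  rcases Nat.even_or_odd n with h | h
  · left
    apply Polynomial.funext
    intro x
    have h1 : (((n : ℤ).negOnePow : ℤˣ) : ℤ) = 1 := by
      rw [Int.negOnePow_even _ (by exact_mod_cast h)]
      rfl
    rw [eval_comp, eval_neg, eval_X, Chebyshev.T_eval_neg, h1]
    simp
  · right
    apply Polynomial.funext
    intro x
    have h1 : (((n : ℤ).negOnePow : ℤˣ) : ℤ) = -1 := by
      rw [Int.negOnePow_odd _ (by exact_mod_cast h)]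
      rfl
    rw [eval_comp, eval_neg, eval_X, Chebyshev.T_eval_neg, h1]
    simp

theorem det_cc (P : ℝ[X]) : (P.comp (-X)).comp (-X) = P := by
  rw [comp_assoc]
  simp

theorem det_refl_T {n : ℕ} {P : ℝ[X]}
    (h : P.comp (-X) = Chebyshev.T ℝ n ∨ P.comp (-X) = -Chebyshev.T ℝ n) :
    P = Chebyshev.T ℝ n ∨ P = -Chebyshev.T ℝ n := by
  rcases det_cheb n with e | e <;> rcases h with e' | e'
  · left; rw [← det_cc P, e', e]
  · right; rw [← det_cc P, e', neg_comp, e]
  · right; rw [← det_cc P, e', e]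
  · left; rw [← det_cc P, e', neg_comp, e, neg_neg]

theorem det_refl_S {n : ℕ} {a b : ℝ} {P : ℝ[X]} (h : DetS n (-b) (-a) (P.comp (-X))) :
    DetS' n a b P := by
  obtain ⟨s, hs, h1, h2⟩ := h
  refine ⟨s, hs, ?_, ?_⟩
  · have key : ((Chebyshev.T ℝ n).comp (C (2 / (2 + s)) * X - C (s / (2 + s)))).comp (-X) =
        ((Chebyshev.T ℝ n).comp (-X)).comp (C (2 / (2 + s)) * X + C (s / (2 + s))) := by
      rw [comp_assoc, comp_assoc]
      congr 1
      simp only [sub_comp, mul_comp, C_comp, X_comp, neg_comp]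
      ring
    have h3 : P = ((Chebyshev.T ℝ n).comp (-X)).comp (C (2 / (2 + s)) * X + C (s / (2 + s))) ∨
        P = -((Chebyshev.T ℝ n).comp (-X)).comp (C (2 / (2 + s)) * X + C (s / (2 + s))) := by
      rcases h1 with e | e
      · left; rw [← det_cc P, e, key]
      · right; rw [← det_cc P, e, neg_comp, key]
    rcases det_cheb n with e | e <;> rw [e] at h3
    · exact h3
    · rw [neg_comp, neg_neg] at h3
      exact h3.symm
  · rw [bal_refl, neg_eq_zero] at h2
    rw [← h2]
    exact bal_congr P (fun x => by ring) (fun x => by ring)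

theorem det_refl_Z {n : ℕ} (hn : 3 ≤ n) {a b : ℝ} {P : ℝ[X]}
    (h : DetZ n (-b) (-a) (P.comp (-X))) : DetZ n a b P := by
  obtain ⟨c, s, p, σ, hc, hs, hp, hps, hσ, hd, htot, hph, hbal⟩ := h
  have hcont := det_omg_cont (n := n) hc hs hp
  have hint : ∀ u v : ℝ, IntervalIntegrable (omg n c s p) volume u v := fun u v =>
    hcont.intervalIntegrable u v
  have hom : ∀ t : ℝ, omg n (-c) s p t = omg n c s p (π - t) := by
    intro t
    have e1 : |-c - cos t| = |c - cos (π - t)| := by
      rw [cos_pi_sub, ← abs_neg]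
      congr 1
      ring
    have e2 : (-c - cos t) ^ 2 = (c - cos (π - t)) ^ 2 := by
      rw [cos_pi_sub]
      ring
    rw [omg, omg, e1, e2]
  have hI : ∀ θ : ℝ, (∫ t in (0 : ℝ)..θ, omg n (-c) s p t) =
      ∫ t in (π - θ)..π, omg n c s p t := by
    intro θ
    have e1 := intervalIntegral.integral_comp_sub_left (a := 0) (b := θ) (omg n c s p) π
    rw [sub_zero] at e1
    rw [← e1]
    exact intervalIntegral.integral_congr fun t _ => hom t
  refine ⟨-c, s, p, σ * (-1) ^ (n - 1), by rwa [abs_neg], hs, hp, hps, ?_, ?_, ?_, ?_, ?_⟩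
  · rcases hσ with e | e <;> rcases neg_one_pow_eq_or ℝ (n - 1) with e2 | e2 <;> rw [e, e2] <;>
      norm_num
  · rw [Pool.Agent.Helper40.AS.comp_der_eval] at hd
    linarith
  · rw [hI, sub_self, htot]
  · intro θ hθ
    have h1 := hph (π - θ) ⟨by linarith [hθ.2], by linarith [hθ.1]⟩
    have h2 : (P.comp (-X)).eval (cos (π - θ)) = P.eval (cos θ) := by
      rw [eval_comp, eval_neg, eval_X, cos_pi_sub, neg_neg]
    rw [h2] at h1
    have h4 := intervalIntegral.integral_add_adjacent_intervals (hint 0 (π - θ)) (hint (π - θ) π)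
    have h3 : (∫ t in (0 : ℝ)..(π - θ), omg n c s p t) =
        ((n - 1 : ℕ) : ℝ) * π - ∫ t in (0 : ℝ)..θ, omg n (-c) s p t := by
      rw [hI, Nat.cast_sub (by omega)]
      push_cast
      rw [htot] at h4
      linarith
    rw [h1, h3, cos_sub, Real.cos_nat_mul_pi, Real.sin_nat_mul_pi]
    ring
  · rw [bal_refl, neg_eq_zero, ← neg_eq_zero, ← bal_neg] at hbal
    rw [← hbal]
    refine bal_congr P (fun x => ?_) (fun x => ?_)
    · have e1 : -c - x = -(c - -x) := by ring
      rw [e1, div_neg]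
      ring
    · have e1 : (-c - x) ^ 2 = (c - -x) ^ 2 := by ring
      rw [e1]
      ring

/-- the extremal polynomials with `n` alternation points -/
theorem det (hP1 : P1) (hP2 : P2) {n : ℕ} (hn : 3 ≤ n) {a b : ℝ} (ha : -1 ≤ a) (hab : a < b)
    (hb : b ≤ 1) {P : ℝ[X]} (h : Ext n a b P) (hA : Alt n P) : Det n a b P := by
  have hdeg : P.natDegree ≤ n := natDegree_le_iff_degree_le.2 h.deg
  rcases hP1 n P hn hdeg h.bdd hA with e | ⟨c, s, p, hpar | hpar⟩
  · exact Or.inr (Or.inr (Or.inr (Or.inl (det_U hn hab e h))))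
  · rcases hpar.cas with ⟨e1, e2⟩ | ⟨e1, e2, -⟩
    · subst e1 e2
      rcases det_S hn hab h hpar with e | e
      · exact Or.inl e
      · exact Or.inr (Or.inl e)
    · exact Or.inr (Or.inr (Or.inr (Or.inr (det_Z hP2 hn ha hab hb h hA hpar e1 e2))))
  · have hR : Ext n (-b) (-a) (P.comp (-X)) := Pool.Agent.Helper40.AS.ext_refl h
    have hAR := pA_alt n P hA
    rcases hpar.cas with ⟨e1, e2⟩ | ⟨e1, e2, -⟩
    · subst e1 e2
      rcases det_S hn (neg_lt_neg hab) hR hpar with e | e
      · exact Or.inl (det_T (by omega) hab (det_refl_T e.1) h)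
      · exact Or.inr (Or.inr (Or.inl (det_refl_S e)))
    · exact Or.inr (Or.inr (Or.inr (Or.inr (det_refl_Z hn (det_Z hP2 hn (by linarith)
        (neg_lt_neg hab) (by linarith) hR hAR hpar e1 e2)))))

end

end Pool.Agent.Helper10.AL
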