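import Pool.Agent.Helper10.AL.Defs

/-!
Arc length of polynomials over compact windows, large degree: statements of the pieces.
-/

set_option autoImplicit false

namespace Pool.Agent.Helper10.AL

open Polynomial Set Real MeasureTheory intervalIntegral
open Pool.Agent.Helper40.AS (arc Bdd Ext)

noncomputable section

/-! ### A: trigonometric polynomials -/

/-- closure properties of the class -/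
def A1 : Prop :=
  (∀ (n : ℕ) (f : ℝ → ℝ), TP n f → (∀ k : ℕ, ContDiff ℝ k f) ∧ TP n (deriv f) ∧
    (∀ c : ℝ, TP n (fun θ => c * f θ)) ∧ (∀ c : ℝ, TP n (fun θ => f (θ + c))) ∧
    TP n (fun θ => f (-θ)) ∧ ∀ θ, f (θ + 2 * π) = f θ) ∧
  (∀ (n : ℕ) (f g : ℝ → ℝ), TP n f → TP n g → TP n (fun θ => f θ + g θ) ∧
    TP n (fun θ => f θ - g θ)) ∧
  (∀ (n : ℕ) (a b c : ℝ) (p : ℝ[X]), p.natDegree ≤ n →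
    TP n (fun θ => p.eval (a + b * cos θ + c * sin θ)))

/-- Bernstein inequalities -/
def A2 : Prop :=
  (∀ (n : ℕ) (f : ℝ → ℝ), 1 ≤ n → TB n f → TB n (fun θ => deriv f θ / n) ∧
    ∀ θ, (deriv f θ) ^ 2 + (n : ℝ) ^ 2 * (f θ) ^ 2 ≤ (n : ℝ) ^ 2 ∧
      (deriv (deriv f) θ) ^ 2 + (n : ℝ) ^ 2 * (deriv f θ) ^ 2 ≤ (n : ℝ) ^ 4 ∧
      |deriv f θ| ≤ n ∧ |deriv (deriv f) θ| ≤ (n : ℝ) ^ 2 ∧
      |deriv (deriv (deriv f)) θ| ≤ (n : ℝ) ^ 3) ∧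
  (∀ (n : ℕ) (P : ℝ[X]), P.natDegree ≤ n → Bdd P → TB n (qq P)) ∧
  (∀ (P : ℝ[X]) (θ : ℝ), deriv (qq P) θ = -(sin θ * P.derivative.eval (cos θ)) ∧
    deriv (deriv (qq P)) θ =
      sin θ ^ 2 * P.derivative.derivative.eval (cos θ) - cos θ * P.derivative.eval (cos θ))

/-- the derivative near a critical point -/
def A3 : Prop := ∀ (n : ℕ) (f : ℝ → ℝ) (θ0 s : ℝ), 1 ≤ n → TB n f → deriv f θ0 = 0 →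
  |s| ≤ π / 2 → |deriv f (θ0 + s / n)| ≤ n * sin |s|

/-- number of zeros in a period -/
def A4 : Prop := ∀ (n : ℕ) (f : ℝ → ℝ) (u : ℝ), TP n f → (∃ θ, f θ ≠ 0) →
  {θ | θ ∈ Ico u (u + 2 * π) ∧ f θ = 0}.Finite ∧
    {θ | θ ∈ Ico u (u + 2 * π) ∧ f θ = 0}.ncard ≤ 2 * n

/-- a polynomial of degree less than `m` with weakly alternating signs at `m + 1` points -/
def A8 : Prop := ∀ (m : ℕ) (p : ℝ[X]) (x : ℕ → ℝ), p.degree < (m : WithBot ℕ) →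
  (∀ i < m, x i < x (i + 1)) → (∀ i ≤ m, 0 ≤ (-1) ^ i * p.eval (x i)) → p = 0

/-- a trigonometric polynomial with a double zero and `2 n` alternating points -/
def A9 : Prop := ∀ (n : ℕ) (D : ℝ → ℝ) (θ0 : ℝ) (t : ℕ → ℝ), 1 ≤ n → TP n D → D θ0 = 0 →
  deriv D θ0 = 0 → θ0 < t 0 → (∀ i, i + 1 < 2 * n → t i < t (i + 1)) →
  t (2 * n - 1) < θ0 + 2 * π → (∀ i < 2 * n, 0 ≤ (-1) ^ i * D (t i)) → ∀ θ, D θ = 0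

/-- spherical against Euclidean law of cosines -/
def A10s : Prop := ∀ x y l : ℝ, 0 ≤ x → 0 ≤ y → x + y ≤ π → |l| ≤ 1 →
  cos (√(x ^ 2 + y ^ 2 + 2 * l * x * y)) ≤ cos x * cos y - l * (sin x * sin y)

/-- comparison lemma -/
def A10 : Prop := ∀ (n : ℕ) (f : ℝ → ℝ) (θ0 ψ l s : ℝ), 2 ≤ n → TB n f → 0 < ψ → ψ < π →
  f θ0 = cos ψ → deriv f θ0 = -(n * (l * sin ψ)) → |l| ≤ 1 → 0 ≤ s →
  cos (min (√(s ^ 2 + 2 * l * ψ * s + ψ ^ 2)) π) ≤ f (θ0 + s / n)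

/-- the derivative near a slow point -/
def A11 : Prop := ∀ (n : ℕ) (f : ℝ → ℝ) (θ0 ψ μ s : ℝ), 2 ≤ n → TB n f → π / 2 ≤ ψ → ψ < π →
  0 ≤ μ → |deriv f θ0| ≤ n * -cos ψ → |deriv (deriv f) θ0| ≤ (n : ℝ) ^ 2 * (μ * sin ψ) →
  0 ≤ s → |deriv f (θ0 + s / n)| ≤ n * Gm μ ψ s ∧ |deriv f (θ0 - s / n)| ≤ n * Gm μ ψ s

/-! ### VF: the variation of the cosine -/

def VF1 : Prop := 0.42 < cs ∧ cs < 0.4212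

def VF2 : Prop := ∀ x : ℝ, 0 ≤ x → VC x ≤ 2 / π * x + cs / 2 ∧ 2 / π * x - cs / 2 ≤ VC x

def VF3 : Prop := ∀ y l : ℝ, 0 ≤ l → 2 / π * l - cs ≤ ∫ s in y..(y + l), |sin s|

def VF4 : Prop := ∀ y l : ℝ, (0 ≤ l → l ≤ π → 2 * (1 - cos (l / 2)) ≤ ∫ s in y..(y + l), |sin s|) ∧
  ∫ s in y..(y + π), |sin s| = 2

def VF5 : Prop := ∀ (n : ℕ) (y l : ℝ), 4 ≤ n → 0 ≤ l →
  Wt n l ≤ (∫ s in y..(y + l), |sin s|) + 2 / (n : ℝ) ^ 2 ∧ Wt n l ≤ 2 / π * l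

def VF6 : Prop := Monotone VC ∧ (∀ x, VC (x + π) = VC x + 2) ∧ (∀ x y, |VC x - VC y| ≤ |x - y|) ∧
  (∀ x, 0 ≤ x → x ≤ π → VC x = 1 - cos x) ∧
  (∀ y l, ∫ s in y..(y + l), |sin s| = VC (y + l) - VC y)

/-! ### B: arc length of bounded trigonometric polynomials -/

def B0 : Prop := ∀ n : ℕ, 1 ≤ n →
  1 / (n : ℝ) * (∫ t in (0 : ℝ)..π, (√(1 + (n * sin t) ^ 2) - n * sin t)) ≤
    3 * (1 + Real.log n) / (n : ℝ) ^ 2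

/-- monotone stretches -/
def B1 : Prop := ∀ (n : ℕ) (f : ℝ → ℝ) (u v : ℝ), 1 ≤ n → TB n f → u ≤ v →
  (∀ θ ∈ Ioo u v, deriv f θ ≠ 0) →
  |arccos (f v) - arccos (f u)| ≤ n * (v - u) ∧
  Va f u v = |f v - f u| ∧
  En f u v ≤ |f v - f u| + ((v - u) - |arccos (f v) - arccos (f u)| / n) +
    3 * (1 + Real.log n) / (n : ℝ) ^ 2

def B2a : Prop := ∀ (n : ℕ) (f : ℝ → ℝ) (u v : ℝ), 4 ≤ n → TB n f → u ≤ v →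
  (∀ θ ∈ Ioo u v, deriv f θ ≠ 0) → En f u v ≤ 2 / π * (n * (v - u)) + cs + kk n

def B2b : Prop := ∀ (n : ℕ) (f : ℝ → ℝ) (u v : ℝ), 4 ≤ n → TB n f → u ≤ v →
  (∀ θ ∈ Ioo u v, deriv f θ ≠ 0) → deriv f u = 0 ∨ deriv f v = 0 →
  En f u v ≤ VC (n * (v - u)) + 8 / n + kk n

def B2c : Prop := ∀ (n : ℕ) (f : ℝ → ℝ) (u v : ℝ), 4 ≤ n → TB n f → u ≤ v →
  (∀ θ ∈ Ioo u v, deriv f θ ≠ 0) → deriv f u = 0 → deriv f v = 0 →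
  En f u v ≤ Wt n (n * (v - u)) + kk n

/-- windows -/
def B3 : Prop := ∀ (n : ℕ) (f : ℝ → ℝ) (u v : ℝ), 4 ≤ n → TB n f → u ≤ v → v ≤ u + 2 * π →
  En f u v ≤ 2 / π * (n * (v - u)) + cs + er n ∧
  (deriv f u = 0 → En f u v ≤ 2 / π * (n * (v - u)) + cs / 2 + er n) ∧
  (deriv f v = 0 → En f u v ≤ 2 / π * (n * (v - u)) + cs / 2 + er n) ∧
  (deriv f u = 0 → deriv f v = 0 → En f u v ≤ 2 / π * (n * (v - u)) + er n)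

/-- windows with a critical end point -/
def B5 : Prop := ∀ (n : ℕ) (f : ℝ → ℝ) (u v : ℝ), 4 ≤ n → TB n f → u ≤ v → v ≤ u + 2 * π →
  deriv f u = 0 ∨ deriv f v = 0 → En f u v ≤ VC (n * (v - u)) + er n

/-- chains of full oscillations -/
def B6 : Prop := ∀ (n N : ℕ) (f : ℝ → ℝ) (t : ℕ → ℝ), 1 ≤ n → TB n f →
  (∀ i < N, t i < t (i + 1)) → (∀ i ≤ N, |f (t i)| = 1) →
  (∀ i < N, ∀ θ ∈ Ioo (t i) (t (i + 1)), deriv f θ ≠ 0) →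
  N * π ≤ n * (t N - t 0) ∧
  En f (t 0) (t N) ≤ 2 * N + ((t N - t 0) - N * π / n) + N * kk n

/-- arc length near a slow point -/
def B7 : Prop := ∀ (n : ℕ) (f : ℝ → ℝ) (θ0 ψ μ T : ℝ), 2 ≤ n → TB n f → π / 2 ≤ ψ → ψ < π →
  0 ≤ μ → |deriv f θ0| ≤ n * -cos ψ → |deriv (deriv f) θ0| ≤ (n : ℝ) ^ 2 * (μ * sin ψ) →
  0 ≤ T → En f θ0 (θ0 + T / n) ≤ T / n + (∫ s in (0 : ℝ)..T, Gm μ ψ s) ∧
    En f (θ0 - T / n) θ0 ≤ T / n + (∫ s in (0 : ℝ)..T, Gm μ ψ s)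

/-! ### C: from polynomials to trigonometric polynomials -/

def C1 : Prop := ∀ (P : ℝ[X]) (a b : ℝ), -1 ≤ a → a ≤ b → b ≤ 1 →
  Va (qq P) (arccos b) (arccos a) ≤ arc a b P ∧ arc a b P ≤ En (qq P) (arccos b) (arccos a)

def C2 : Prop := ∀ (n : ℕ) (a b : ℝ) (P : ℝ[X]), 1 ≤ n → -1 ≤ a → a ≤ b → b ≤ 1 → Ext n a b P →
  (∫ s in (n * arccos b)..(n * arccos a), |sin s|) ≤ arc a b P

/-! ### N: numerical facts -/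

def N0 : Prop := (∀ μ μ' ψ ψ' s s' : ℝ, 0 ≤ μ → μ ≤ μ' → 0 ≤ ψ → ψ ≤ ψ' → 0 ≤ s → s ≤ s' →
    Gm μ ψ s ≤ Gm μ' ψ' s') ∧ (∀ μ ψ s, |Gm μ ψ s| ≤ 1) ∧ ∀ μ ψ, Continuous (Gm μ ψ)

def N1 : Prop := ∀ μ ψ : ℝ, 0 ≤ μ → μ ≤ 0.0011 → π / 2 ≤ ψ → ψ ≤ π / 2 + 0.0011 →
  (∫ s in (0 : ℝ)..1.6, Gm μ ψ s) ≤ 0.385 ∧ ∀ s ∈ Icc (0 : ℝ) 1.6, Gm μ ψ s ≤ 2 / π

def N2 : Prop := (∫ s in (0 : ℝ)..1.26, Gm 0.265 (π / 2) s) ≤ 0.3711 ∧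
  ∀ s ∈ Icc (0 : ℝ) 1.26, Gm 0.265 (π / 2) s ≤ 2 / π

def N3 : Prop := ∀ κ τ : ℝ, 0.265 ≤ κ → κ ≤ 1 → 0 < τ →
  Gm κ (π / 2) τ ≤ (2 * κ - 0.01) * τ

/-! ### D: Zolotarev polynomials -/

/-- `Z` vanishes at `x0`, increases there and has `n` alternation points -/
structure Zol (n : ℕ) (x0 : ℝ) (Z : ℝ[X]) : Prop where
  hx : x0 ∈ Ioo (-1 : ℝ) 1
  deg : Z.natDegree ≤ n
  bdd : Bdd Z
  z0 : Z.eval x0 = 0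
  z1 : 0 < Z.derivative.eval x0
  alt : ∃ (x : ℕ → ℝ) (σ : ℝ), (σ = 1 ∨ σ = -1) ∧ (∀ i, i + 1 < n → x i < x (i + 1)) ∧
    (∀ i < n, x i ∈ Icc (-1 : ℝ) 1) ∧ ∀ i < n, Z.eval (x i) = σ * (-1) ^ i

/-- a compactness argument: the extremal polynomial for the derivative -/
def D1a : Prop := ∀ (n : ℕ) (x0 : ℝ), 1 ≤ n → x0 ∈ Ioo (-1 : ℝ) 1 →
  ∃ Z : ℝ[X], Z.natDegree ≤ n ∧ Bdd Z ∧ Z.eval x0 = 0 ∧ 0 < Z.derivative.eval x0 ∧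
    ∀ Q : ℝ[X], Q.natDegree ≤ n → Bdd Q → Q.eval x0 = 0 →
      Q.derivative.eval x0 ≤ Z.derivative.eval x0

/-- a polynomial with prescribed signs -/
def D1b : Prop := ∀ (n : ℕ) (x0 : ℝ) (Z : ℝ[X]), 1 ≤ n → x0 ∈ Ioo (-1 : ℝ) 1 →
  Z.natDegree ≤ n → Bdd Z → Z.eval x0 = 0 → 0 < Z.derivative.eval x0 →
  (¬ ∃ (x : ℕ → ℝ) (σ : ℝ), (σ = 1 ∨ σ = -1) ∧ (∀ i, i + 1 < n → x i < x (i + 1)) ∧
    (∀ i < n, x i ∈ Icc (-1 : ℝ) 1) ∧ ∀ i < n, Z.eval (x i) = σ * (-1) ^ i) →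
  ∃ h : ℝ[X], h.natDegree ≤ n ∧ h.eval x0 = 0 ∧ 0 < h.derivative.eval x0 ∧
    ∀ x ∈ Icc (-1 : ℝ) 1, |Z.eval x| = 1 → Z.eval x * h.eval x < 0

def D1 : Prop := ∀ (n : ℕ) (x0 : ℝ), 1 ≤ n → x0 ∈ Ioo (-1 : ℝ) 1 → ∃ Z : ℝ[X], Zol n x0 Z

/-- the alternation points to the left and to the right of `x0` -/
def D0 : Prop := ∀ (n : ℕ) (x0 : ℝ) (Z : ℝ[X]), 2 ≤ n → Zol n x0 Z →
  ∃ (jL jR : ℕ) (TL TR : ℕ → ℝ), jL + jR = n ∧ TL 0 = x0 ∧ TR 0 = x0 ∧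
    (∀ i < jL, TL (i + 1) < TL i) ∧ (∀ i < jR, TR i < TR (i + 1)) ∧ -1 ≤ TL jL ∧ TR jR ≤ 1 ∧
    (∀ i, 1 ≤ i → i ≤ jL → Z.eval (TL i) = (-1) ^ i) ∧
    (∀ i, 1 ≤ i → i ≤ jR → Z.eval (TR i) = -(-1) ^ i)

/-- the Zolotarev polynomial oscillates at least as fast as any other polynomial -/
def D3 : Prop := ∀ (n j : ℕ) (x0 : ℝ) (Z P : ℝ[X]) (z : ℕ → ℝ), 2 ≤ n → Zol n x0 Z →
  P.natDegree ≤ n → Bdd P → P.eval x0 = 0 → z 0 = x0 → (∀ i < j, z (i + 1) < z i) →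
  -1 ≤ z j → (∀ i, 1 ≤ i → i ≤ j → P.eval (z i) = (-1) ^ i) →
  ∃ T : ℕ → ℝ, T 0 = x0 ∧ (∀ i < j, T (i + 1) < T i) ∧
    (∀ i ≤ j, z i ≤ T i) ∧ (∀ i, 1 ≤ i → i ≤ j → Z.eval (T i) = (-1) ^ i)

def D3r : Prop := ∀ (n j : ℕ) (x0 : ℝ) (Z P : ℝ[X]) (z : ℕ → ℝ), 2 ≤ n → Zol n x0 Z →
  P.natDegree ≤ n → Bdd P → P.eval x0 = 0 → z 0 = x0 → (∀ i < j, z i < z (i + 1)) →
  z j ≤ 1 → (∀ i, 1 ≤ i → i ≤ j → P.eval (z i) = -(-1) ^ i) →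
  ∃ T : ℕ → ℝ, T 0 = x0 ∧ (∀ i < j, T i < T (i + 1)) ∧
    (∀ i ≤ j, T i ≤ z i) ∧ (∀ i, 1 ≤ i → i ≤ j → Z.eval (T i) = -(-1) ^ i)

/-- structure of polynomials with `n` alternation points -/
def D2a : Prop := ∀ (n : ℕ) (x0 : ℝ) (Z : ℝ[X]), 3 ≤ n → Zol n x0 Z →
  ∃ r : ℝ → ℝ, ContinuousOn r (Ioo (-1 : ℝ) 1) ∧ (∀ x ∈ Ioo (-1 : ℝ) 1, 0 ≤ r x ∧
    (n : ℝ) ^ 2 * (1 - Z.eval x ^ 2) = (1 + r x) * ((1 - x ^ 2) * Z.derivative.eval x ^ 2)) ∧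
    ∀ δ : ℝ, 0 < δ → δ ≤ 1 → ∀ x ∈ Icc (-1 + δ) (1 - δ), ∀ y ∈ Icc (-1 + δ) (1 - δ),
      r x ≤ 100 / δ ^ 3 * r y

/-- the total phase -/
def D2b : Prop := ∀ (n : ℕ) (x0 : ℝ) (Z : ℝ[X]) (r : ℝ → ℝ), 2 ≤ n → Zol n x0 Z →
  ContinuousOn r (Ioo (-1 : ℝ) 1) → (∀ x ∈ Ioo (-1 : ℝ) 1, 0 ≤ r x ∧
    (n : ℝ) ^ 2 * (1 - Z.eval x ^ 2) = (1 + r x) * ((1 - x ^ 2) * Z.derivative.eval x ^ 2)) →
  ((n : ℝ) - 1) * π ≤ ∫ θ in (0 : ℝ)..π, n / √(1 + r (cos θ))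

/-- the speed of a Zolotarev polynomial on compact windows -/
def D2 : Prop := ∀ δ : ℝ, 0 < δ → δ ≤ 1 / 4 → ∃ K : ℝ, 0 < K ∧ ∃ n0 : ℕ, ∀ n ≥ n0, ∀ x0 Z,
  Zol n x0 Z → ∀ x ∈ Icc (-1 + δ) (1 - δ),
    (n : ℝ) ^ 2 * (1 - Z.eval x ^ 2) - (1 - x ^ 2) * Z.derivative.eval x ^ 2 ≤
      K * n * (1 - Z.eval x ^ 2)

/-- variation of a fast function -/
def D4 : Prop := ∀ (f : ℝ → ℝ) (u v ν : ℝ), ContDiff ℝ 1 f → (∀ θ, |f θ| ≤ 1) → 0 ≤ ν → u ≤ v →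
  (∀ θ ∈ Icc u v, ν * √(1 - f θ ^ 2) ≤ |deriv f θ|) → {θ | θ ∈ Icc u v ∧ |f θ| = 1}.Finite →
  |f u| = 1 ∨ |f v| = 1 → VC (ν * (v - u)) ≤ Va f u v

/-! ### K: first order condition for real critical points in the window -/

def K1 : Prop := ∀ (n : ℕ) (a b c : ℝ) (P R : ℝ[X]), 1 ≤ n → -1 ≤ a → a < c → c < b → b ≤ 1 →
  Ext n a b P → P.derivative = (X - C c) * R → |P.eval c| ≠ 1 →
  2 * ((1 - c ^ 2) * |R.eval c|) ≤ (1 - a ^ 2) * |R.eval a| + (1 - b ^ 2) * |R.eval b| +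
    ∫ x in a..b, |((1 - X ^ 2) * R).derivative.eval x| / (1 + P.derivative.eval x ^ 2)

def K2 : Prop := ∀ δ : ℝ, 0 < δ → δ ≤ 1 → ∃ K : ℝ, 0 < K ∧ ∀ (n : ℕ) (P R : ℝ[X]) (c x : ℝ),
  1 ≤ n → P.natDegree ≤ n → Bdd P → c ∈ Icc (-1 + δ) (1 - δ) → x ∈ Icc (-1 + δ) (1 - δ) →
  P.derivative = (X - C c) * R →
  |((1 - X ^ 2) * R).derivative.eval x| ≤ K * (n : ℝ) ^ 3 / (1 + n * |x - c|)

/-- cells -/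
def M1 : Prop := ∃ K : ℝ, 0 < K ∧ ∀ (n : ℕ) (f : ℝ → ℝ) (u v : ℝ), 2 ≤ n → TB n f → u ≤ v →
  v - u ≤ 1 / n → ND n f u v →
  (∫ θ in u..v, 1 / (1 + (deriv f θ) ^ 2)) ≤ K / (n : ℝ) ^ 2 ∧
  (∫ θ in u..v, 1 / √(1 + (deriv f θ) ^ 2)) ≤ K * (1 + Real.log n) / (n : ℝ) ^ 2

/-- sums over cells -/
def M2 : Prop := ∀ (n : ℕ) (g w : ℝ → ℝ) (u v c M K : ℝ), 1 ≤ n → Continuous g →
  ContinuousOn w (Icc u v) → (∀ θ, 0 ≤ g θ) → u ≤ v → 0 ≤ M → 0 ≤ K →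
  (∀ x y, u ≤ x → x ≤ y → y ≤ v → y - x ≤ 1 / n → (∫ θ in x..y, g θ) ≤ M) →
  (∀ θ ∈ Icc u v, |w θ| ≤ K / (1 + n * |θ - c|)) →
  (∫ θ in u..v, |w θ| * g θ) ≤ 8 * K * M * (1 + Real.log (1 + n * (v - u)))

end

end Pool.Agent.Helper10.AL
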