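import Pool.Agent.Helper10.AL.St

/-!
Arc length of polynomials over compact windows, large degree: statements of the pieces, part 2.
-/

set_option autoImplicit false

namespace Pool.Agent.Helper10.AL

open Polynomial Set Real MeasureTheory intervalIntegral
open Pool.Agent.Helper40.AS (arc Bdd Ext quad)

noncomputable section

/-! ### E: energy exclusion -/

/-- a chain of consecutive contact points of `f` -/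
structure Chain (f : ℝ → ℝ) (N : ℕ) (t : ℕ → ℝ) : Prop where
  inc : ∀ i < N, t i < t (i + 1)
  con : ∀ i ≤ N, |f (t i)| = 1
  mon : ∀ i < N, ∀ θ ∈ Ioo (t i) (t (i + 1)), deriv f θ ≠ 0

/-- non-degeneracy in the middle of the window -/
def E1 : Prop := ∃ n0 : ℕ, ∀ (n : ℕ) (a b : ℝ) (P : ℝ[X]), n0 ≤ n → -1 ≤ a → a < b → b ≤ 1 →
  Ext n a b P → ND n (qq P) (arccos b + 1.6 / n) (arccos a - 1.6 / n)

/-- gaps between critical points -/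
def E2 : Prop := ∃ n0 : ℕ, ∀ (n : ℕ) (a b u v : ℝ) (P : ℝ[X]), n0 ≤ n → -1 ≤ a → a < b → b ≤ 1 →
  Ext n a b P → arccos b ≤ u → u ≤ v → v ≤ arccos a →
  (∀ θ ∈ Ioo u v, deriv (qq P) θ ≠ 0) → n * (v - u) ≤ 6

/-- existence of chains -/
def CH : Prop := ∀ (n : ℕ) (f : ℝ → ℝ) (u v : ℝ), 1 ≤ n → TB n f → (∃ θ, deriv f θ ≠ 0) →
  u < v → deriv f u = 0 → deriv f v = 0 → (∀ θ ∈ Icc u v, deriv f θ = 0 → |f θ| = 1) →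
  ∃ (N : ℕ) (t : ℕ → ℝ), 1 ≤ N ∧ t 0 = u ∧ t N = v ∧ Chain f N t

/-- loss of arc length at a slow point -/
def LS : Prop := ∀ (n : ℕ) (f : ℝ → ℝ) (θ0 ψ μ T L : ℝ), 4 ≤ n → TB n f → π / 2 ≤ ψ → ψ < π →
  0 ≤ μ → |deriv f θ0| ≤ n * -cos ψ → |deriv (deriv f) θ0| ≤ (n : ℝ) ^ 2 * (μ * sin ψ) →
  0 < T → (∫ s in (0 : ℝ)..T, Gm μ ψ s) ≤ 2 / π * T - L →
  (∀ s ∈ Icc (0 : ℝ) T, Gm μ ψ s ≤ 2 / π) → cs ≤ L →
  (∀ v w : ℝ, deriv f v = 0 → v + T / n ≤ θ0 → θ0 ≤ w → w ≤ v + 2 * π →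
    En f v w ≤ 2 / π * (n * (w - v)) + cs / 2 - L + 2 * T / n + 2 * er n) ∧
  (∀ v w : ℝ, deriv f v = 0 → θ0 + T / n ≤ v → w ≤ θ0 → v ≤ w + 2 * π →
    En f w v ≤ 2 / π * (n * (v - w)) + cs / 2 - L + 2 * T / n + 2 * er n)

/-- the first order condition at a real critical point which is not a contact point -/
def K3 : Prop := ∀ δ : ℝ, 0 < δ → δ ≤ 1 / 4 → ∃ K : ℝ, 0 < K ∧ ∃ n0 : ℕ, ∀ n ≥ n0,
  ∀ (a b θ ρ : ℝ) (P : ℝ[X]), Mid δ a b → Ext n a b P → θ ∈ Ioo (arccos b) (arccos a) →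
  deriv (qq P) θ = 0 → |qq P θ| ≠ 1 → 0 ≤ ρ → ρ ≤ 2 →
  ND n (qq P) (arccos b + ρ / n) (arccos a - ρ / n) →
  2 * |deriv (deriv (qq P)) θ| ≤
    sin (arccos a) * |deriv (qq P) (arccos a)| / (cos θ - a) +
    sin (arccos b) * |deriv (qq P) (arccos b)| / (b - cos θ) + K * n * (1 + Real.log n) +
    K * ρ * (n : ℝ) ^ 2 * (1 / (1 + n * (arccos a - θ)) + 1 / (1 + n * (θ - arccos b)))

/-- critical points in the middle of the window are contact points -/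
def E3 : Prop := ∀ δ : ℝ, 0 < δ → δ ≤ 1 / 4 → ∃ R : ℝ, 0 < R ∧ ∃ n0 : ℕ, ∀ n ≥ n0,
  ∀ (a b θ : ℝ) (P : ℝ[X]), Mid δ a b → Ext n a b P → arccos b + R / n ≤ θ →
  θ ≤ arccos a - R / n → deriv (qq P) θ = 0 → |qq P θ| = 1

/-- comparison with a Zolotarev polynomial -/
def CL1 : Prop := ∀ δ : ℝ, 0 < δ → δ ≤ 1 / 4 → ∃ K : ℝ, 0 < K ∧ ∃ n0 : ℕ, ∀ n ≥ n0,
  ∀ (a b : ℝ) (P : ℝ[X]) (N : ℕ) (t : ℕ → ℝ), Mid δ a b → Ext n a b P → 1 ≤ N →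
  arccos b ≤ t 0 → t N ≤ arccos a → Chain (qq P) N t →
  2 * N + VC ((n - K) * (arccos a - t N)) + VC ((n - K) * (t 0 - arccos b)) ≤ arc a b P

/-- lower bounds for the arc length at the ends of the window -/
def CL : Prop := ∀ δ : ℝ, 0 < δ → δ ≤ 1 / 4 → ∃ K : ℝ, 0 < K ∧ ∃ n0 : ℕ, ∀ n ≥ n0,
  ∀ (a b : ℝ) (P : ℝ[X]) (N : ℕ) (t : ℕ → ℝ), Mid δ a b → Ext n a b P → 1 ≤ N →
  arccos b ≤ t 0 → t N ≤ arccos a → Chain (qq P) N t →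
  VC (n * (arccos a - t N)) -
    K * (1 + n * (arccos a - t N) + n * (t 0 - arccos b)) * (1 + Real.log n) / n ≤
      En (qq P) (t N) (arccos a) ∧
  VC (n * (t 0 - arccos b)) -
    K * (1 + n * (arccos a - t N) + n * (t 0 - arccos b)) * (1 + Real.log n) / n ≤
      En (qq P) (arccos b) (t 0)

/-- non-degeneracy on the whole window -/
def E6 : Prop := ∀ δ : ℝ, 0 < δ → δ ≤ 1 / 4 → ∃ n0 : ℕ, ∀ n ≥ n0, ∀ (a b : ℝ) (P : ℝ[X]),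
  Mid δ a b → Ext n a b P → ND n (qq P) (arccos b) (arccos a)

/-- the first exceptional critical point near the end of the window -/
def E8a : Prop := ∀ δ R : ℝ, 0 < δ → δ ≤ 1 / 4 → 0 < R → ∃ n0 : ℕ, ∀ n ≥ n0,
  ∀ (a b θc : ℝ) (P : ℝ[X]), Mid δ a b → Ext n a b P → arccos a - R / n < θc → θc < arccos a →
  deriv (qq P) θc = 0 →
  (∀ θ, arccos b + R / n ≤ θ → θ < θc → deriv (qq P) θ = 0 → |qq P θ| = 1) → |qq P θc| = 1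

/-- all real critical points in the window are contact points -/
def E8 : Prop := ∀ δ : ℝ, 0 < δ → δ ≤ 1 / 4 → ∃ n0 : ℕ, ∀ n ≥ n0, ∀ (a b θ : ℝ) (P : ℝ[X]),
  Mid δ a b → Ext n a b P → θ ∈ Ioo (arccos b) (arccos a) → deriv (qq P) θ = 0 → |qq P θ| = 1

/-! ### G: complex critical points -/

/-- slowly varying weights -/
def M3 : Prop := ∀ (n : ℕ) (g w : ℝ → ℝ) (u v A M : ℝ), 1 ≤ n → Continuous g →
  ContinuousOn w (Icc u v) → (∀ θ, 0 ≤ g θ) → (∀ θ ∈ Icc u v, 0 ≤ w θ) → u + 1 / n ≤ v → 0 ≤ M →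
  1 ≤ A → (∀ x y, u ≤ x → x ≤ y → y ≤ v → y - x ≤ 1 / n → (∫ θ in x..y, g θ) ≤ M) →
  (∀ x ∈ Icc u v, ∀ y ∈ Icc u v, |x - y| ≤ 1 / n → w x ≤ A * w y) →
  (∫ θ in u..v, w θ * g θ) ≤ 2 * n * A * M * ∫ θ in u..v, w θ

/-- weighted integrals of `1 / √(1 + P'²)` -/
def G2a : Prop := ∀ δ : ℝ, 0 < δ → δ ≤ 1 / 4 → ∃ K : ℝ, 0 < K ∧ ∃ n0 : ℕ, ∀ n ≥ n0,
  ∀ (a b A : ℝ) (P : ℝ[X]) (w : ℝ → ℝ), Mid δ a b → P.natDegree ≤ n → Bdd P →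
  ND n (qq P) (arccos b) (arccos a) → ContinuousOn w (Icc a b) → (∀ x ∈ Icc a b, 0 ≤ w x) →
  1 ≤ A → (∀ x ∈ Icc a b, ∀ y ∈ Icc a b, |x - y| ≤ 1 / n → w x ≤ A * w y) →
  (∫ x in a..b, w x / √(1 + P.derivative.eval x ^ 2)) ≤
    K * A * (1 + Real.log n) / n * ∫ x in a..b, w x

/-- the identity from the first order condition -/
def G0 : Prop := ∀ (n : ℕ) (a b : ℝ) (P D R l : ℝ[X]), 1 ≤ n → -1 ≤ a → a < b → b ≤ 1 →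
  Ext n a b P → P.derivative = D * R →
  (∀ x ∈ Ioo (-1 : ℝ) 1, |P.eval x| = 1 → R.eval x = 0) →
  l.natDegree + 2 + P.natDegree ≤ D.natDegree + 1 + n → (∀ x ∈ Icc a b, D.eval x ≠ 0) →
  ((1 - b ^ 2) * l.eval b / D.eval b) * √(1 + P.derivative.eval b ^ 2) -
    ((1 - a ^ 2) * l.eval a / D.eval a) * √(1 + P.derivative.eval a ^ 2) =
  ∫ x in a..b, ((((1 - X ^ 2) * l).derivative.eval x * D.eval x -
    ((1 - x ^ 2) * l.eval x) * D.derivative.eval x) / D.eval x ^ 2) /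
      √(1 + P.derivative.eval x ^ 2)

/-- complex inverse cosine near the real axis -/
def CA : Prop := ∀ δ : ℝ, 0 < δ → δ ≤ 1 → ∀ z : ℂ, ∃ w : ℂ, Complex.cos w = z ∧ 0 ≤ w.re ∧
  w.re ≤ π ∧ ∀ θ ∈ Icc (0 : ℝ) π, cos θ ∈ Icc (-1 + δ) (1 - δ) →
    ‖w - (θ : ℂ)‖ ≤ 3 / √δ * ‖z - ((cos θ : ℝ) : ℂ)‖

/-- growth of the derivative in the complex plane -/
def H4d : Prop := ∀ (n : ℕ) (P : ℝ[X]), 1 ≤ n → P.natDegree ≤ n → Bdd P → ∀ w : ℂ,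
  ‖Complex.sin w * aeval (Complex.cos w) P.derivative‖ ≤ n * Real.exp (n * |w.im|)

/-- non-real critical points are not close to the window -/
def G1 : Prop := ∀ δ : ℝ, 0 < δ → δ ≤ 1 / 4 → ∃ c : ℝ, 0 < c ∧ ∀ (n : ℕ) (a b : ℝ) (P : ℝ[X]),
  1 ≤ n → Mid δ a b → P.natDegree ≤ n → Bdd P → ND n (qq P) (arccos b) (arccos a) →
  ∀ z : ℂ, aeval z P.derivative = 0 → z.im ≠ 0 → ∀ x ∈ Icc a b, c / n ≤ ‖z - (x : ℂ)‖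

/-- localisation of the non-real critical points -/
def G2 : Prop := ∀ δ : ℝ, 0 < δ → δ ≤ 1 / 4 → ∃ K : ℝ, 0 < K ∧ ∃ n0 : ℕ, ∀ n ≥ n0,
  ∀ (a b : ℝ) (P : ℝ[X]) (z : ℂ), Mid δ a b → Ext n a b P →
  ND n (qq P) (arccos b) (arccos a) → aeval z P.derivative = 0 → 0 < z.im →
  z.im ≤ K * (1 + Real.log n) / n ∧ a + 1 / (K * (1 + Real.log n)) ≤ z.re ∧
  z.re ≤ b - 1 / (K * (1 + Real.log n)) ∧ |P.derivative.eval a| ≤ K * (1 + Real.log n) ∧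
  |P.derivative.eval b| ≤ K * (1 + Real.log n)

/-- real critical points outside `(-1, 1)` and the degree -/
def G3 : Prop := ∀ δ : ℝ, 0 < δ → δ ≤ 1 / 4 → ∃ n0 : ℕ, ∀ n ≥ n0, ∀ (a b : ℝ) (P : ℝ[X]),
  Mid δ a b → Ext n a b P → ND n (qq P) (arccos b) (arccos a) →
  (∀ y1 y2 : ℝ, 1 ≤ |y1| → 1 ≤ |y2| → ¬ (X - C y1) * (X - C y2) ∣ P.derivative) ∧
  (P.natDegree + 1 ≤ n → ∀ y : ℝ, 1 ≤ |y| → P.derivative.eval y ≠ 0) ∧ n ≤ P.natDegree + 1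

/-! ### H: the last case -/

/-- a critical point near a point with small derivative -/
def H1 : Prop := ∀ (n : ℕ) (f : ℝ → ℝ) (α m : ℝ), 1 ≤ n → TB n f → 0 ≤ m → |deriv f α| ≤ m →
  (n : ℝ) ^ 2 / 1000 ≤ |deriv (deriv f) α| → m ≤ n / 8000000 →
  ∃ θ : ℝ, |θ - α| ≤ 2000 * m / (n : ℝ) ^ 2 ∧ deriv f θ = 0

/-- the lag of a chain over the whole window -/
def H3 : Prop := ∀ δ K1 : ℝ, 0 < δ → δ ≤ 1 / 4 → 0 < K1 → ∃ K : ℝ, 0 < K ∧ ∃ n0 : ℕ, ∀ n ≥ n0,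
  ∀ (a b : ℝ) (P : ℝ[X]) (N : ℕ) (t : ℕ → ℝ), Mid δ a b → Ext n a b P → 1 ≤ N →
  Chain (qq P) N t → |t N - arccos a| ≤ K1 * (1 + Real.log n) / (n : ℝ) ^ 2 →
  |t 0 - arccos b| ≤ K1 * (1 + Real.log n) / (n : ℝ) ^ 2 →
  0 ≤ n * (t N - t 0) - N * π ∧ n * (t N - t 0) - N * π ≤ K * √((1 + Real.log n) / n)

/-- Jensen's inequality for functions of exponential growth -/
def H4a : Prop := ∀ (g : ℂ → ℂ) (m r A : ℝ) (S : Finset ℂ), Differentiable ℂ g → 0 < r → 0 ≤ A →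
  g (m : ℂ) ≠ 0 → (∀ ζ ∈ S, g ζ = 0 ∧ ‖ζ - (m : ℂ)‖ < r) →
  (∀ w : ℂ, ‖g w‖ ≤ Real.exp (A * |w.im|)) →
  (∑ ζ ∈ S, Real.log (r / ‖ζ - (m : ℂ)‖)) + Real.log ‖g (m : ℂ)‖ ≤ 2 / π * A * r

def H4b : Prop := ∀ M : ℕ, 1 ≤ M →
  (M : ℝ) - 0.44 ≤ ∑ k ∈ Finset.range M, Real.log ((M : ℝ) / (k + 1 / 2))

/-- the derivative in the middle of a nearly perfect oscillation -/
def H4c : Prop := ∀ (n : ℕ) (f : ℝ → ℝ) (u v : ℝ), 1 ≤ n → TB n f → u < v → |f u| = 1 →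
  |f v| = 1 → (∀ θ ∈ Ioo u v, deriv f θ ≠ 0) → n * (v - u) ≤ π + 1 / 100 →
  (n : ℝ) / 2 ≤ |deriv f ((u + v) / 2)|

/-- no non-real critical point in the middle of a nearly perfect chain -/
def H4 : Prop := ∀ δ K : ℝ, 0 < δ → δ ≤ 1 / 4 → 0 < K → ∃ n0 : ℕ, ∀ n ≥ n0,
  ∀ (a b : ℝ) (P : ℝ[X]) (N : ℕ) (t : ℕ → ℝ) (z : ℂ), Mid δ a b → P.natDegree ≤ n → Bdd P →
  1 ≤ N → Chain (qq P) N t → |t N - arccos a| ≤ K * (1 + Real.log n) / (n : ℝ) ^ 2 →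
  |t 0 - arccos b| ≤ K * (1 + Real.log n) / (n : ℝ) ^ 2 →
  n * (t N - t 0) - N * π ≤ K * √((1 + Real.log n) / n) → aeval z P.derivative = 0 →
  0 < z.im → z.im ≤ K * (1 + Real.log n) / n → a + 1 / (K * (1 + Real.log n)) ≤ z.re →
  z.re ≤ b - 1 / (K * (1 + Real.log n)) → False

/-- all critical points are real -/
def HH : Prop := ∀ δ : ℝ, 0 < δ → δ ≤ 1 / 4 → ∃ n0 : ℕ, ∀ n ≥ n0, ∀ (a b : ℝ) (P : ℝ[X]),
  Mid δ a b → Ext n a b P → ∀ z : ℂ, aeval z P.derivative = 0 → z.im = 0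

/-! ### I: alternation -/

/-- `P` has `n` alternation points -/
def Alt (n : ℕ) (P : ℝ[X]) : Prop :=
  ∃ x : Fin n → ℝ, StrictMono x ∧ (∀ i, x i ∈ Icc (-1 : ℝ) 1) ∧
    ((∀ i : Fin n, P.eval (x i) = (-1) ^ (i : ℕ)) ∨
      (∀ i : Fin n, P.eval (x i) = -(-1) ^ (i : ℕ)))

def I1 : Prop := ∀ (n : ℕ) (a b : ℝ) (P : ℝ[X]), 2 ≤ n → -1 < a → a < b → b < 1 → Ext n a b P →
  (∀ z : ℂ, aeval z P.derivative = 0 → z.im = 0) →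
  (∀ c ∈ Ioo (-1 : ℝ) 1, P.derivative.eval c = 0 →
    |P.eval c| = 1 ∧ P.derivative.derivative.eval c ≠ 0) →
  (∀ y1 y2 : ℝ, 1 ≤ |y1| → 1 ≤ |y2| → ¬ (X - C y1) * (X - C y2) ∣ P.derivative) →
  (P.natDegree + 1 ≤ n → ∀ y : ℝ, 1 ≤ |y| → P.derivative.eval y ≠ 0) → n ≤ P.natDegree + 1 →
  Alt n P

/-- the main result -/
def Main : Prop := ∀ δ : ℝ, 0 < δ → ∃ n0 : ℕ, ∀ n ≥ n0, ∀ (a b : ℝ) (P : ℝ[X]),
  -1 + δ ≤ a → a + δ ≤ b → b ≤ 1 - δ → Ext n a b P →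
  Alt n P ∧ (∀ c ∈ Ioo (-1 : ℝ) 1, P.derivative.eval c = 0 →
    |P.eval c| = 1 ∧ P.derivative.derivative.eval c ≠ 0) ∧
  (∀ z : ℂ, aeval z P.derivative = 0 → z.im = 0) ∧
  (∀ y1 y2 : ℝ, 1 ≤ |y1| → 1 ≤ |y2| → ¬ (X - C y1) * (X - C y2) ∣ P.derivative)

end

end Pool.Agent.Helper10.AL
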