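import Pool.Agent.Helper10.AL.St2

/-!
Arc length of polynomials over windows with an end point of `[-1,1]`, large degree: statements.
-/

set_option autoImplicit false

namespace Pool.Agent.Helper10.AL

open Polynomial Set Real MeasureTheory intervalIntegral
open Pool.Agent.Helper40.AS (arc Bdd Ext quad)

noncomputable section

/-- uniform bound for the test function of the first order condition -/
def K2u : Prop := ∃ K : ℝ, 0 < K ∧ ∀ (n : ℕ) (P R : ℝ[X]) (θc θ : ℝ), 1 ≤ n →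
  P.natDegree ≤ n → Bdd P → θc ∈ Icc 0 π → θ ∈ Icc 0 π →
  P.derivative = (X - C (cos θc)) * R →
  |sin θ * ((1 - X ^ 2) * R).derivative.eval (cos θ)| ≤ K * (n : ℝ) ^ 3 / (1 + n * |θ - θc|)

/-- uniform first order condition at a real critical point which is not a contact point -/
def K3u : Prop := ∃ K : ℝ, 0 < K ∧ ∀ (n : ℕ) (a b θ ρ : ℝ) (P : ℝ[X]), 2 ≤ n →
  -1 ≤ a → a < b → b ≤ 1 → Ext n a b P → θ ∈ Ioo (arccos b) (arccos a) →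
  deriv (qq P) θ = 0 → |qq P θ| ≠ 1 → 0 ≤ ρ → ρ ≤ 2 →
  ND n (qq P) (arccos b + ρ / n) (arccos a - ρ / n) →
  2 * |deriv (deriv (qq P)) θ| ≤
    sin (arccos a) * |deriv (qq P) (arccos a)| / (cos θ - a) +
    sin (arccos b) * |deriv (qq P) (arccos b)| / (b - cos θ) + K * n * (1 + Real.log n) +
    K * ρ * (n : ℝ) ^ 2 * (1 / (1 + n * (arccos a - θ)) + 1 / (1 + n * (θ - arccos b)))

/-- non-degeneracy for windows `[a, 1]` -/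
def O1 : Prop := ∀ δ : ℝ, 0 < δ → δ ≤ 1 / 4 → ∃ n0 : ℕ, ∀ n ≥ n0, ∀ (a : ℝ) (P : ℝ[X]),
  -1 + δ ≤ a → a ≤ 1 - δ → Ext n a 1 P → ND n (qq P) 0 (arccos a)

/-- real critical points for windows `[a, 1]` -/
def O8 : Prop := ∀ δ : ℝ, 0 < δ → δ ≤ 1 / 4 → ∃ n0 : ℕ, ∀ n ≥ n0, ∀ (a θ : ℝ) (P : ℝ[X]),
  -1 + δ ≤ a → a ≤ 1 - δ → Ext n a 1 P → θ ∈ Ioo 0 (arccos a) → deriv (qq P) θ = 0 →
  |qq P θ| = 1

/-- critical points off `[-1,1]` are not close to the window, uniform version -/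
def G1u : Prop := ∃ c : ℝ, 0 < c ∧ ∀ (n : ℕ) (a b : ℝ) (P : ℝ[X]), 1 ≤ n → -1 ≤ a → a < b →
  b ≤ 1 → P.natDegree ≤ n → Bdd P → ND n (qq P) (arccos b) (arccos a) →
  ∀ z : ℂ, aeval z P.derivative = 0 → (z.im ≠ 0 ∨ 1 < |z.re|) →
  ∀ θ ∈ Icc (arccos b) (arccos a), c * (sin θ + 1 / n) / n ≤ ‖z - ((cos θ : ℝ) : ℂ)‖

/-- weighted integrals, uniform version -/
def G2au : Prop := ∃ K : ℝ, 0 < K ∧ ∀ (n : ℕ) (a b A : ℝ) (P : ℝ[X]) (w : ℝ → ℝ), 2 ≤ n →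
  -1 ≤ a → a < b → b ≤ 1 → arccos b + 1 / n ≤ arccos a → P.natDegree ≤ n → Bdd P →
  ND n (qq P) (arccos b) (arccos a) → ContinuousOn w (Icc (arccos b) (arccos a)) →
  (∀ θ ∈ Icc (arccos b) (arccos a), 0 ≤ w θ) → 1 ≤ A →
  (∀ x ∈ Icc (arccos b) (arccos a), ∀ y ∈ Icc (arccos b) (arccos a), |x - y| ≤ 1 / n →
    w x ≤ A * w y) →
  (∫ θ in (arccos b)..(arccos a), w θ * (sin θ ^ 2 / √(sin θ ^ 2 + deriv (qq P) θ ^ 2))) ≤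
    K * A * (1 + Real.log n) / n * ∫ θ in (arccos b)..(arccos a), w θ * (sin θ + 1 / n)

/-- change of variables for the identity -/
def G0u : Prop := ∀ (a b : ℝ) (P : ℝ[X]) (F : ℝ → ℝ), -1 ≤ a → a ≤ b → b ≤ 1 →
  ContinuousOn F (Icc a b) →
  (∫ x in a..b, F x / √(1 + P.derivative.eval x ^ 2)) =
    ∫ θ in (arccos b)..(arccos a),
      F (cos θ) * (sin θ ^ 2 / √(sin θ ^ 2 + deriv (qq P) θ ^ 2))

/-- localisation of the non-real critical points for windows `[a, 1]` -/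
def G2o : Prop := ∀ δ : ℝ, 0 < δ → δ ≤ 1 / 4 → ∃ K : ℝ, 0 < K ∧ ∃ n0 : ℕ, ∀ n ≥ n0,
  ∀ (a : ℝ) (P : ℝ[X]) (z : ℂ), -1 + δ ≤ a → a ≤ 1 - δ → Ext n a 1 P →
  ND n (qq P) 0 (arccos a) → aeval z P.derivative = 0 → 0 < z.im →
  z.im ≤ K * (1 + Real.log n) / n ∧ a + 1 / (K * (1 + Real.log n)) ≤ z.re ∧
  z.re ≤ 1 - 1 / (K * (1 + Real.log n) ^ 2) ∧ |P.derivative.eval a| ≤ K * (1 + Real.log n)

/-- real critical points outside `(-1, 1)` and the degree for windows `[a, 1]` -/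
def G3o : Prop := ∀ δ : ℝ, 0 < δ → δ ≤ 1 / 4 → ∃ n0 : ℕ, ∀ n ≥ n0, ∀ (a : ℝ) (P : ℝ[X]),
  -1 + δ ≤ a → a ≤ 1 - δ → Ext n a 1 P → ND n (qq P) 0 (arccos a) →
  (∀ y1 y2 : ℝ, 1 ≤ |y1| → 1 ≤ |y2| → ¬ (X - C y1) * (X - C y2) ∣ P.derivative) ∧
  (P.natDegree + 1 ≤ n → ∀ y : ℝ, 1 ≤ |y| → P.derivative.eval y ≠ 0) ∧ n ≤ P.natDegree + 1

/-- the lag of a chain over a window `[a, 1]` -/
def H3o : Prop := ∀ δ K1 : ℝ, 0 < δ → δ ≤ 1 / 4 → 0 < K1 → ∃ K : ℝ, 0 < K ∧ ∃ n0 : ℕ, ∀ n ≥ n0,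
  ∀ (a : ℝ) (P : ℝ[X]) (N : ℕ) (t : ℕ → ℝ), -1 + δ ≤ a → a ≤ 1 - δ → Ext n a 1 P →
  ND n (qq P) 0 (arccos a) → 1 ≤ N → Chain (qq P) N t → 0 < t 0 →
  (∀ θ ∈ Ioo 0 (t 0), deriv (qq P) θ ≠ 0) →
  |t N - arccos a| ≤ K1 * (1 + Real.log n) / (n : ℝ) ^ 2 →
  0 ≤ n * (t N - t 0) - N * π ∧ n * (t N - t 0) - N * π ≤ K * √((1 + Real.log n) / n)

/-- no non-real critical point over a nearly perfect chain, general version -/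
def H4g : Prop := ∀ K : ℝ, 0 < K → ∃ n0 : ℕ, ∀ n ≥ n0,
  ∀ (P : ℝ[X]) (N : ℕ) (t : ℕ → ℝ) (z : ℂ), P.natDegree ≤ n → Bdd P →
  1 ≤ N → Chain (qq P) N t → n * (t N - t 0) - N * π ≤ K * √((1 + Real.log n) / n) →
  aeval z P.derivative = 0 → 0 < z.im → z.im ≤ K * (1 + Real.log n) / n →
  1 / (K * (1 + Real.log n)) ≤ sin (arccos z.re) → -1 ≤ z.re → z.re ≤ 1 →
  t 0 + 1 / (K * (1 + Real.log n) ^ 2) ≤ arccos z.re →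
  arccos z.re ≤ t N - 1 / (K * (1 + Real.log n) ^ 2) → False

/-- all critical points are real, windows `[a, 1]` -/
def HHo : Prop := ∀ δ : ℝ, 0 < δ → δ ≤ 1 / 4 → ∃ n0 : ℕ, ∀ n ≥ n0, ∀ (a : ℝ) (P : ℝ[X]),
  -1 + δ ≤ a → a ≤ 1 - δ → Ext n a 1 P → ∀ z : ℂ, aeval z P.derivative = 0 → z.im = 0

/-- counting, general windows -/
def I1g : Prop := ∀ (n : ℕ) (a b : ℝ) (P : ℝ[X]), 2 ≤ n → -1 ≤ a → a < b → b ≤ 1 → Ext n a b P →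
  (∀ z : ℂ, aeval z P.derivative = 0 → z.im = 0) →
  (∀ c ∈ Ioo (-1 : ℝ) 1, P.derivative.eval c = 0 →
    |P.eval c| = 1 ∧ P.derivative.derivative.eval c ≠ 0) →
  (∀ y1 y2 : ℝ, 1 ≤ |y1| → 1 ≤ |y2| → ¬ (X - C y1) * (X - C y2) ∣ P.derivative) →
  (P.natDegree + 1 ≤ n → ∀ y : ℝ, 1 ≤ |y| → P.derivative.eval y ≠ 0) → n ≤ P.natDegree + 1 →
  Alt n P

/-- the conclusion of the main results -/
def Good (n : ℕ) (P : ℝ[X]) : Prop :=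
  Alt n P ∧ (∀ c ∈ Ioo (-1 : ℝ) 1, P.derivative.eval c = 0 →
    |P.eval c| = 1 ∧ P.derivative.derivative.eval c ≠ 0) ∧
  (∀ z : ℂ, aeval z P.derivative = 0 → z.im = 0) ∧
  (∀ y1 y2 : ℝ, 1 ≤ |y1| → 1 ≤ |y2| → ¬ (X - C y1) * (X - C y2) ∣ P.derivative)

/-- windows `[a, 1]` -/
def MainO : Prop := ∀ δ : ℝ, 0 < δ → ∃ n0 : ℕ, ∀ n ≥ n0, ∀ (a : ℝ) (P : ℝ[X]),
  -1 + δ ≤ a → a ≤ 1 - δ → Ext n a 1 P → Good n P

/-- the whole interval, and windows in one half of the interval -/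
def Half : Prop := ∀ (n : ℕ) (a b : ℝ) (P : ℝ[X]), 1 ≤ n →
  (0 ≤ a ∧ a < 1 ∧ b = 1) ∨ (a = -1 ∧ -1 < b ∧ b ≤ 0) ∨ (a = -1 ∧ b = 1) → Ext n a b P →
  (P = Chebyshev.T ℝ n ∨ P = -Chebyshev.T ℝ n) ∧ Good n P

/-- all windows of length bounded below with end points in `{-1} ∪ [-1+δ, 1-δ] ∪ {1}` -/
def Main2 : Prop := ∀ δ : ℝ, 0 < δ → ∃ n0 : ℕ, ∀ n ≥ n0, ∀ (a b : ℝ) (P : ℝ[X]),
  (a = -1 ∨ -1 + δ ≤ a) → (b = 1 ∨ b ≤ 1 - δ) → a + δ ≤ b → Ext n a b P → Good n P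

end

end Pool.Agent.Helper10.AL
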