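import Pool.Agent.Helper10.AL.St3
import Pool.Agent.Helper40.Arc.Traj

/-!
Arc length of polynomials over windows of arbitrary length, large degree: statements.
-/

set_option autoImplicit false

namespace Pool.Agent.Helper10.AL

open Polynomial Set Real MeasureTheory intervalIntegral
open Pool.Agent.Helper40.AS (arc Bdd Ext quad)

noncomputable section

/-- windows of arbitrary length in a compact interval -/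
def MidL (δ a b : ℝ) : Prop := -1 + δ ≤ a ∧ a < b ∧ b ≤ 1 - δ

/-- the largest variation of a sine function over an interval of length `l` -/
def VM (l : ℝ) : ℝ := 2 * (⌊l / π⌋₊ : ℝ) + 2 * sin ((l - ⌊l / π⌋₊ * π) / 2)

def VMf : Prop := (∀ l : ℝ, 0 ≤ l → 2 / π * l ≤ VM l ∧ VM l ≤ l ∧
    ∀ y : ℝ, (∫ s in y..(y + l), |sin s|) ≤ VM l) ∧
  (∀ l : ℝ, 0 ≤ l → l ≤ π → VM l = 2 * sin (l / 2)) ∧ ContinuousOn VM (Ici 0) ∧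
  (∀ x y : ℝ, 0 ≤ x → 0 ≤ y → VC x + VC y ≤ VM (x + y)) ∧
  (∀ l : ℝ, 0 ≤ l → ∃ x y : ℝ, 0 ≤ x ∧ 0 ≤ y ∧ x + y = l ∧
    (∫ s in (0 : ℝ)..x, |cos s|) + (∫ s in (0 : ℝ)..y, |cos s|) = VM l)

/-- equality case for the variation -/
def S1e : Prop := ∀ (q u v : ℝ → ℝ) (l : ℝ), Helper40.Arc.Tr q u v → 0 < l →
  VM l ≤ (∫ t in (0 : ℝ)..l, |u t|) → ∀ t ∈ Icc 0 l, u t ^ 2 + v t ^ 2 = 1

/-- stability for the variation over bounded windows -/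
def S1 : Prop := ∀ K1 η : ℝ, 0 < K1 → 0 < η → ∃ ε : ℝ, 0 < ε ∧ ∀ (n : ℕ) (f : ℝ → ℝ) (u v : ℝ),
  1 ≤ n → TB n f → u < v → n * (v - u) ≤ K1 → (1 - ε) * VM (n * (v - u)) ≤ Va f u v →
  ∀ θ ∈ Icc u v, (1 - η) * (n : ℝ) ^ 4 ≤ (n : ℝ) ^ 2 * deriv f θ ^ 2 + deriv (deriv f) θ ^ 2

/-- lower bound for the largest arc length, all windows in a compact interval -/
def S2 : Prop := ∀ δ : ℝ, 0 < δ → δ ≤ 1 / 4 → ∃ K : ℝ, 0 < K ∧ ∃ n0 : ℕ, ∀ n ≥ n0,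
  ∀ (a b : ℝ) (P : ℝ[X]), MidL δ a b → Ext n a b P →
  (1 - K / n) * VM (n * (arccos a - arccos b)) ≤ arc a b P

/-- bounded windows -/
def S3 : Prop := ∀ δ K1 η : ℝ, 0 < δ → δ ≤ 1 / 4 → 0 < K1 → 0 < η → ∃ n0 : ℕ, ∀ n ≥ n0,
  ∀ (a b : ℝ) (P : ℝ[X]), MidL δ a b → Ext n a b P → n * (arccos a - arccos b) ≤ K1 →
  (∀ θ ∈ Icc (arccos b) (arccos a),
    (1 - η) * (n : ℝ) ^ 4 ≤ (n : ℝ) ^ 2 * deriv (qq P) θ ^ 2 + deriv (deriv (qq P)) θ ^ 2) ∧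
  (n * (arccos a - arccos b) ≤ 1 / 2 → ∀ θ ∈ Icc (arccos b) (arccos a),
    (n : ℝ) / 2 ≤ |deriv (qq P) θ|)

/-- real critical points in bounded windows -/
def S4 : Prop := ∀ δ K1 : ℝ, 0 < δ → δ ≤ 1 / 4 → 0 < K1 → ∃ n0 : ℕ, ∀ n ≥ n0,
  ∀ (a b θ : ℝ) (P : ℝ[X]), MidL δ a b → Ext n a b P → n * (arccos a - arccos b) ≤ K1 →
  θ ∈ Ioo (arccos b) (arccos a) → deriv (qq P) θ = 0 → |qq P θ| = 1

/-- critical points in the middle of the window, uniform version -/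
def E3L : Prop := ∃ R : ℝ, 0 < R ∧ ∃ n0 : ℕ, ∀ n ≥ n0, ∀ (a b θ : ℝ) (P : ℝ[X]),
  -1 ≤ a → a < b → b ≤ 1 → Ext n a b P → arccos b + R / n ≤ θ → θ ≤ arccos a - R / n →
  deriv (qq P) θ = 0 → |qq P θ| = 1

def CL1L : Prop := ∀ δ : ℝ, 0 < δ → δ ≤ 1 / 4 → ∃ K : ℝ, 0 < K ∧ ∃ n0 : ℕ, ∀ n ≥ n0,
  ∀ (a b : ℝ) (P : ℝ[X]) (N : ℕ) (t : ℕ → ℝ), MidL δ a b → Ext n a b P → 1 ≤ N →
  arccos b ≤ t 0 → t N ≤ arccos a → Chain (qq P) N t →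
  2 * N + VC ((n - K) * (arccos a - t N)) + VC ((n - K) * (t 0 - arccos b)) ≤ arc a b P

def CLL : Prop := ∀ δ : ℝ, 0 < δ → δ ≤ 1 / 4 → ∃ K : ℝ, 0 < K ∧ ∃ n0 : ℕ, ∀ n ≥ n0,
  ∀ (a b : ℝ) (P : ℝ[X]) (N : ℕ) (t : ℕ → ℝ), MidL δ a b → Ext n a b P → 1 ≤ N →
  arccos b ≤ t 0 → t N ≤ arccos a → Chain (qq P) N t →
  VC (n * (arccos a - t N)) -
    K * (1 + n * (arccos a - t N) + n * (t 0 - arccos b)) * (1 + Real.log n) / n ≤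
      En (qq P) (t N) (arccos a) ∧
  VC (n * (t 0 - arccos b)) -
    K * (1 + n * (arccos a - t N) + n * (t 0 - arccos b)) * (1 + Real.log n) / n ≤
      En (qq P) (arccos b) (t 0)

/-- non-degeneracy for all windows in a compact interval -/
def E6L : Prop := ∀ δ : ℝ, 0 < δ → δ ≤ 1 / 4 → ∃ n0 : ℕ, ∀ n ≥ n0, ∀ (a b : ℝ) (P : ℝ[X]),
  MidL δ a b → Ext n a b P → ND n (qq P) (arccos b) (arccos a)

/-- real critical points for all windows in a compact interval -/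
def E8L : Prop := ∀ δ : ℝ, 0 < δ → δ ≤ 1 / 4 → ∃ n0 : ℕ, ∀ n ≥ n0, ∀ (a b θ : ℝ) (P : ℝ[X]),
  MidL δ a b → Ext n a b P → θ ∈ Ioo (arccos b) (arccos a) → deriv (qq P) θ = 0 → |qq P θ| = 1

/-- weighted integrals for all windows in a compact interval -/
def G2aL : Prop := ∀ δ : ℝ, 0 < δ → δ ≤ 1 / 4 → ∃ K : ℝ, 0 < K ∧ ∃ n0 : ℕ, ∀ n ≥ n0,
  ∀ (a b A : ℝ) (P : ℝ[X]) (w : ℝ → ℝ), MidL δ a b → Ext n a b P →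
  ContinuousOn w (Icc a b) → (∀ x ∈ Icc a b, 0 ≤ w x) →
  1 ≤ A → (∀ x ∈ Icc a b, ∀ y ∈ Icc a b, |x - y| ≤ 1 / n → w x ≤ A * w y) →
  (∫ x in a..b, w x / √(1 + P.derivative.eval x ^ 2)) ≤
    K * A * (1 + Real.log n) / n * ∫ x in a..b, w x

def G2L : Prop := ∀ δ : ℝ, 0 < δ → δ ≤ 1 / 4 → ∃ K : ℝ, 0 < K ∧ ∃ n0 : ℕ, ∀ n ≥ n0,
  ∀ (a b : ℝ) (P : ℝ[X]) (z : ℂ), MidL δ a b → Ext n a b P →
  aeval z P.derivative = 0 → 0 < z.im →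
  z.im ≤ K * (1 + Real.log n) / n ∧ a + 1 / (K * (1 + Real.log n)) ≤ z.re ∧
  z.re ≤ b - 1 / (K * (1 + Real.log n)) ∧ |P.derivative.eval a| ≤ K * (1 + Real.log n) ∧
  |P.derivative.eval b| ≤ K * (1 + Real.log n)

def G3L : Prop := ∀ δ : ℝ, 0 < δ → δ ≤ 1 / 4 → ∃ n0 : ℕ, ∀ n ≥ n0, ∀ (a b : ℝ) (P : ℝ[X]),
  MidL δ a b → Ext n a b P →
  (∀ y1 y2 : ℝ, 1 ≤ |y1| → 1 ≤ |y2| → ¬ (X - C y1) * (X - C y2) ∣ P.derivative) ∧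
  (P.natDegree + 1 ≤ n → ∀ y : ℝ, 1 ≤ |y| → P.derivative.eval y ≠ 0) ∧ n ≤ P.natDegree + 1

def H3L : Prop := ∀ δ K1 : ℝ, 0 < δ → δ ≤ 1 / 4 → 0 < K1 → ∃ K : ℝ, 0 < K ∧ ∃ n0 : ℕ, ∀ n ≥ n0,
  ∀ (a b : ℝ) (P : ℝ[X]) (N : ℕ) (t : ℕ → ℝ), MidL δ a b → Ext n a b P → 1 ≤ N →
  Chain (qq P) N t → |t N - arccos a| ≤ K1 * (1 + Real.log n) / (n : ℝ) ^ 2 →
  |t 0 - arccos b| ≤ K1 * (1 + Real.log n) / (n : ℝ) ^ 2 →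
  0 ≤ n * (t N - t 0) - N * π ∧ n * (t N - t 0) - N * π ≤ K * √((1 + Real.log n) / n)

def HHL : Prop := ∀ δ : ℝ, 0 < δ → δ ≤ 1 / 4 → ∃ n0 : ℕ, ∀ n ≥ n0, ∀ (a b : ℝ) (P : ℝ[X]),
  MidL δ a b → Ext n a b P → ∀ z : ℂ, aeval z P.derivative = 0 → z.im = 0

/-- all windows in a compact interval -/
def MainL : Prop := ∀ δ : ℝ, 0 < δ → ∃ n0 : ℕ, ∀ n ≥ n0, ∀ (a b : ℝ) (P : ℝ[X]),
  -1 + δ ≤ a → a < b → b ≤ 1 - δ → Ext n a b P → Good n P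

/-- all windows with end points in `{-1} ∪ [-1+δ, 1-δ] ∪ {1}` -/
def Main3 : Prop := ∀ δ : ℝ, 0 < δ → ∃ n0 : ℕ, ∀ n ≥ n0, ∀ (a b : ℝ) (P : ℝ[X]),
  (a = -1 ∨ -1 + δ ≤ a) → (b = 1 ∨ b ≤ 1 - δ) → a < b → Ext n a b P → Good n P

/-- the largest arc length up to a bounded error -/
def Asym : Prop := ∃ n0 : ℕ, ∀ n ≥ n0, ∀ (a b : ℝ) (P : ℝ[X]), -1 ≤ a → a < b → b ≤ 1 →
  Ext n a b P → |arc a b P - 2 / π * (n * (arccos a - arccos b))| ≤ 0.4212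

end

end Pool.Agent.Helper10.AL
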