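import Pool.Agent.Helper10.AL.St4

/-!
Arc length of polynomials over windows, large degree: determination of the extremal polynomials,
statements of the pieces.
-/

set_option autoImplicit false

namespace Pool.Agent.Helper10.AL

open Polynomial Set Real MeasureTheory intervalIntegral
open Pool.Agent.Helper40.AS (arc Bdd Ext quad)

noncomputable section

/-- the phase shift -/
def mu (ρ θ : ℝ) : ℝ := if ρ = 1 then π else 2 * arctan ((1 + ρ) / (1 - ρ) * tan (θ / 2))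

/-- the limit functional -/
def Jv (n : ℕ) (ρ a b : ℝ) : ℝ :=
  VC (n * arccos a - mu ρ (arccos a)) - VC (n * arccos b - mu ρ (arccos b))

/-- the speed of the phase -/
def om (n : ℕ) (c s p t : ℝ) : ℝ := n / √(1 + (s / (c - cos t) + p / (c - cos t) ^ 2))

/-- the differential equation of the polynomials with `n` alternation points -/
def Ode (n : ℕ) (c s p : ℝ) (P : ℝ[X]) : Prop := ∀ x ∈ Ioo (-1 : ℝ) 1,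
  (n : ℝ) ^ 2 * (1 - P.eval x ^ 2) =
    (1 + (s / (c - x) + p / (c - x) ^ 2)) * ((1 - x ^ 2) * P.derivative.eval x ^ 2)

/-- the parameters of a polynomial with `n` alternation points -/
structure Par (n : ℕ) (c s p : ℝ) (P : ℝ[X]) : Prop where
  hc : 1 ≤ c
  hs : 0 ≤ s
  hp : 0 ≤ p
  hps : p ≤ s ^ 2 / 4
  hm : |P.eval (-1)| = 1
  ode : Ode n c s p P
  cas : (c = 1 ∧ p = 0) ∨ (1 < c ∧ P.derivative.eval c = 0 ∧ |P.eval 1| = 1)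

/-- elementary properties of the phase shift -/
def P0 : Prop :=
  (∀ ρ θ : ℝ, -1 ≤ ρ → ρ ≤ 1 → 0 < θ → θ < π → 0 ≤ mu ρ θ ∧ mu ρ θ ≤ π ∧
    mu (-ρ) (π - θ) = π - mu ρ θ) ∧
  (∀ ρ θ : ℝ, -1 < ρ → ρ < 1 → 0 < θ → θ < π →
    HasDerivAt (mu ρ) ((1 - ρ ^ 2) / (1 - 2 * ρ * cos θ + ρ ^ 2)) θ ∧
    ∀ ψ : ℝ, cos (ψ - mu ρ θ) * (1 - 2 * ρ * cos θ + ρ ^ 2) =
      cos (ψ - θ) - 2 * ρ * cos ψ + ρ ^ 2 * cos (ψ + θ)) ∧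
  (∀ δ : ℝ, 0 < δ → ∃ K : ℝ, 0 < K ∧ ∀ ρ θ : ℝ, -1 ≤ ρ → ρ ≤ 1 → 0 < θ → θ < π →
    (cos θ ≤ 1 - δ → |mu ρ θ - π| ≤ K * (1 - ρ)) ∧ (-1 + δ ≤ cos θ → |mu ρ θ| ≤ K * (1 + ρ)))

/-- polynomials with `n` alternation points have an upward zero -/
def P1z : Prop := ∀ (n : ℕ) (Z : ℝ[X]), 3 ≤ n → Z.natDegree ≤ n → Bdd Z → Alt n Z →
  ∃ x0 : ℝ, Zol n x0 Z

/-- structure of the polynomials with `n` alternation points -/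
def P1 : Prop := ∀ (n : ℕ) (Z : ℝ[X]), 3 ≤ n → Z.natDegree ≤ n → Bdd Z → Alt n Z →
  (Z = Chebyshev.T ℝ ((n : ℤ) - 1) ∨ Z = -Chebyshev.T ℝ ((n : ℤ) - 1)) ∨
  ∃ c s p : ℝ, Par n c s p Z ∨ Par n c s p (Z.comp (-X))

/-- the phase of the polynomials with `n` alternation points -/
def P2 : Prop := ∀ (n : ℕ) (c s p : ℝ) (P : ℝ[X]), 3 ≤ n → P.natDegree ≤ n → Bdd P →
  Alt n P → Par n c s p P →
  (∀ θ : ℝ, 0 < θ → θ ≤ π → qq P θ = P.eval (-1) * cos (∫ t in θ..π, om n c s p t)) ∧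
  ((n : ℝ) - 1) * π ≤ (∫ t in (0 : ℝ)..π, om n c s p t) ∧
  (∫ t in (0 : ℝ)..π, om n c s p t) ≤ n * π ∧
  (1 < c → (∫ t in (0 : ℝ)..π, om n c s p t) = ((n : ℝ) - 1) * π) ∧
  (∀ θ : ℝ, 0 < θ → θ < π →
    |deriv (qq P) θ| = om n c s p θ * |sin (∫ t in θ..π, om n c s p t)|) ∧
  (∀ u v : ℝ, 0 ≤ u → u ≤ v → v ≤ π → Va (qq P) u v =
    VC (∫ t in u..π, om n c s p t) - VC (∫ t in v..π, om n c s p t))

/-- asymptotics of the phase -/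
def P3 : Prop := ∀ δ ε : ℝ, 0 < δ → 0 < ε → ∃ n0 : ℕ, ∀ n ≥ n0, ∀ c s p : ℝ, 1 ≤ c → 0 ≤ s →
  0 ≤ p → p ≤ s ^ 2 / 4 → ((n : ℝ) - 1) * π ≤ (∫ t in (0 : ℝ)..π, om n c s p t) →
  (c = 1 ∨ (∫ t in (0 : ℝ)..π, om n c s p t) = ((n : ℝ) - 1) * π) →
  ∀ θ : ℝ, 0 < θ → θ < π → cos θ ≤ 1 - δ →
    |(∫ t in θ..π, om n c s p t) - (n * (π - θ) - (π - mu (c - √(c ^ 2 - 1)) θ))| ≤ ε

/-- the speed near the Chebyshev polynomial -/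
def P3b : Prop := ∀ δ ε : ℝ, 0 < δ → 0 < ε → ∃ n0 : ℕ, ∀ n ≥ n0, ∀ c s p : ℝ, 1 ≤ c → 0 ≤ s →
  0 ≤ p → p ≤ s ^ 2 / 4 → ((n : ℝ) - 1) * π ≤ (∫ t in (0 : ℝ)..π, om n c s p t) →
  ∀ θ : ℝ, cos θ ≤ 1 - δ → c ≤ 2 → |om n c s p θ / n - 1| ≤ ε

/-- phase representation on compact intervals -/
def PA : Prop := ∀ δ ε : ℝ, 0 < δ → 0 < ε → ∃ n0 : ℕ, ∀ n ≥ n0, ∀ Z : ℝ[X],
  Z.natDegree ≤ n → Bdd Z → Alt n Z →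
  ∃ (ρ : ℝ) (Φ : ℝ → ℝ) (m : ℤ), -1 ≤ ρ ∧ ρ ≤ 1 ∧
    (∀ θ : ℝ, 0 < θ → θ < π → qq Z θ = cos (Φ θ)) ∧
    (∀ u v : ℝ, 0 < u → u ≤ v → v < π → Va (qq Z) u v = VC (Φ v) - VC (Φ u)) ∧
    (∀ θ : ℝ, 0 < θ → θ < π → -1 + δ ≤ cos θ → cos θ ≤ 1 - δ →
      |Φ θ - (n * θ - mu ρ θ) - m * π| ≤ ε)

/-- variation of the members of the family -/
def PV : Prop := ∀ δ ε : ℝ, 0 < δ → 0 < ε → ∃ n0 : ℕ, ∀ n ≥ n0, ∀ (c s p : ℝ) (P : ℝ[X]),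
  P.natDegree ≤ n → Bdd P → Alt n P → Par n c s p P →
  ∀ u v : ℝ, 0 < u → u ≤ v → v < π → cos u ≤ 1 - δ →
    |Va (qq P) u v - (VC (n * v - mu (c - √(c ^ 2 - 1)) v) -
      VC (n * u - mu (c - √(c ^ 2 - 1)) u))| ≤ ε

/-- arc length and variation of extremal polynomials -/
def P5 : Prop := ∀ δ ε : ℝ, 0 < δ → 0 < ε → ∃ n0 : ℕ, ∀ n ≥ n0, ∀ (a b : ℝ) (P : ℝ[X]),
  MidL δ a b → Ext n a b P → arc a b P ≤ Va (qq P) (arccos b) (arccos a) + ε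

/-- polynomials with large variation -/
def P6a : Prop := ∀ η ε : ℝ, 0 < η → 0 < ε → ∃ n0 : ℕ, ∀ n ≥ n0, ∀ ρ : ℝ, |ρ| ≤ 1 - η →
  ∃ Q : ℝ[X], Q.natDegree ≤ n ∧ Bdd Q ∧ ∀ u v : ℝ, 0 < u → u ≤ v → v < π →
    VC (n * v - mu ρ v) - VC (n * u - mu ρ u) - ε ≤ Va (qq Q) u v

/-- lower bounds for the largest arc length -/
def P6 : Prop := ∀ δ ε : ℝ, 0 < δ → 0 < ε → ∃ n0 : ℕ, ∀ n ≥ n0, ∀ (ρ a b : ℝ) (P : ℝ[X]),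
  -1 ≤ ρ → ρ ≤ 1 → MidL δ a b → Ext n a b P → Jv n ρ a b - ε ≤ arc a b P

/-- the asymptotic form of the extremal polynomials -/
def MainA : Prop := ∀ δ ε : ℝ, 0 < δ → 0 < ε → ∃ n0 : ℕ, ∀ n ≥ n0, ∀ (a b : ℝ) (P : ℝ[X]),
  -1 + δ ≤ a → a < b → b ≤ 1 - δ → Ext n a b P →
  ∃ ρ : ℝ, -1 ≤ ρ ∧ ρ ≤ 1 ∧ (∀ ρ' : ℝ, -1 ≤ ρ' → ρ' ≤ 1 → Jv n ρ' a b ≤ Jv n ρ a b + ε) ∧
    |arc a b P - Jv n ρ a b| ≤ ε ∧ ∃ σ : ℝ, (σ = 1 ∨ σ = -1) ∧ ∀ x ∈ Icc (-1 + δ) (1 - δ),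
      |P.eval x - σ * cos (n * arccos x - mu ρ (arccos x))| ≤ ε

/-! ### T: windows inside the interval whose extremal polynomial is the Chebyshev polynomial -/

/-- existence of extremal polynomials -/
def X0 : Prop := (∀ (n : ℕ) (a b : ℝ), a ≤ b → ∃ P : ℝ[X], Ext n a b P) ∧
  (∀ (n : ℕ) (a b : ℝ) (P : ℝ[X]), Ext n a b P → Ext n a b (-P)) ∧
  (∀ (n : ℕ) (a b : ℝ) (P : ℝ[X]), Ext n a b P → Ext n (-b) (-a) (P.comp (-X)))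

/-- the equation of the Chebyshev polynomials -/
def TE : Prop := ∀ (n : ℕ) (P : ℝ[X]), 1 ≤ n → |P.eval (-1)| = 1 → P.derivative ≠ 0 →
  (∀ x ∈ Ioo (-1 : ℝ) 1, (n : ℝ) ^ 2 * (1 - P.eval x ^ 2) =
    (1 - x ^ 2) * P.derivative.eval x ^ 2) → P = Chebyshev.T ℝ n ∨ P = -Chebyshev.T ℝ n

/-- slopes of the limit functional at the Chebyshev polynomial -/
def T1 : Prop := ∀ (n : ℕ) (α β ε : ℝ), 0 < β → β ≤ α → α < π → 0 ≤ ε →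
  (∀ ρ : ℝ, -1 ≤ ρ → ρ ≤ 1 →
    (VC (n * α - mu ρ α) - VC (n * β - mu ρ β)) + ε * (1 - |ρ|) ≤
      VC (n * α - π) - VC (n * β - π)) →
  |sin (n * α)| * ((1 + cos α) / sin α) + ε ≤ |sin (n * β)| * ((1 + cos β) / sin β) ∧
  |sin (n * β)| * ((1 - cos β) / sin β) + ε ≤ |sin (n * α)| * ((1 - cos α) / sin α)

/-- the first order condition for multiples of the derivative -/
def X1 : Prop := ∀ (n : ℕ) (a b : ℝ) (P D R W : ℝ[X]), 1 ≤ n → -1 ≤ a → a < b → b ≤ 1 →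
  Ext n a b P → P.derivative = D * R → W.natDegree + P.natDegree ≤ D.natDegree + 1 + n →
  (∀ x ∈ Ioo (-1 : ℝ) 1, |P.eval x| = 1 → R.eval x = 0) →
  (|P.eval 1| = 1 → W.eval 1 * R.eval 1 = 0) →
  (|P.eval (-1)| = 1 → W.eval (-1) * R.eval (-1) = 0) → (∀ x ∈ Icc a b, D.eval x ≠ 0) →
  (W.eval b / D.eval b) * √(1 + P.derivative.eval b ^ 2) -
    (W.eval a / D.eval a) * √(1 + P.derivative.eval a ^ 2) =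
  ∫ x in a..b, ((W.derivative.eval x * D.eval x - W.eval x * D.derivative.eval x) /
    D.eval x ^ 2) / √(1 + P.derivative.eval x ^ 2)

/-- the first order condition within the family -/
def T2 : Prop := ∀ δ : ℝ, 0 < δ → δ ≤ 1 / 4 → ∃ K : ℝ, 0 < K ∧ ∀ (n : ℕ) (a b c : ℝ) (P : ℝ[X]),
  1 ≤ n → MidL δ a b → Ext n a b P →
  ((1 < c ∧ P.derivative.eval c = 0) ∨ (c = 1 ∧ (|P.eval 1| = 1 → P.derivative.eval 1 = 0))) →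
  |(1 - b ^ 2) / (c - b) * √(1 + P.derivative.eval b ^ 2) -
    (1 - a ^ 2) / (c - a) * √(1 + P.derivative.eval a ^ 2)| ≤ K

/-- the balance condition near the Chebyshev polynomial -/
def T3 : Prop := ∀ δ ε : ℝ, 0 < δ → δ ≤ 1 / 4 → 0 < ε → ∃ η : ℝ, 0 < η ∧ ∃ n0 : ℕ, ∀ n ≥ n0,
  ∀ (a b c s p : ℝ) (P : ℝ[X]), MidL δ a b → Ext n a b P → Alt n P → Par n c s p P →
  c ≤ 1 + η → P ≠ Chebyshev.T ℝ n → P ≠ -Chebyshev.T ℝ n →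
  |(|sin (n * arccos b)| * ((1 + b) / sin (arccos b)) -
    |sin (n * arccos a)| * ((1 + a) / sin (arccos a)))| ≤ ε

/-- windows whose extremal polynomials are the Chebyshev polynomials -/
def MainT : Prop := ∀ δ ε : ℝ, 0 < δ → 0 < ε → ∃ n0 : ℕ, ∀ n ≥ n0, ∀ (a b : ℝ) (P : ℝ[X]),
  -1 + δ ≤ a → a < b → b ≤ 1 - δ →
  (∀ ρ : ℝ, -1 ≤ ρ → ρ ≤ 1 → Jv n ρ a b + ε * (1 - |ρ|) ≤ Jv n 1 a b) →
  (Ext n a b P ↔ P = Chebyshev.T ℝ n ∨ P = -Chebyshev.T ℝ n)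

/-! ### X: windows `[a, 1]` -/

/-- weighted integrals over windows `[a, 1]` -/
def X2 : Prop := ∀ δ : ℝ, 0 < δ → δ ≤ 1 / 4 → ∃ K : ℝ, 0 < K ∧ ∃ n0 : ℕ, ∀ n ≥ n0,
  ∀ (a : ℝ) (P : ℝ[X]), -1 + δ ≤ a → a ≤ 1 - δ → P.natDegree ≤ n → Bdd P →
  ND n (qq P) 0 (arccos a) →
  (∫ x in a..1, 1 / √(1 + P.derivative.eval x ^ 2)) ≤ K * (1 + Real.log n) / n ∧
  ∀ c : ℝ, 1 < c → c ≤ 2 →
    (∫ x in a..1, ((c ^ 2 - 1) / (c - x) ^ 2) / √(1 + P.derivative.eval x ^ 2)) ≤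
      K * (1 + Real.log n) / n

/-- windows `[a, 1]`: critical points outside the interval and the left end point -/
def X3 : Prop := ∀ δ : ℝ, 0 < δ → δ ≤ 1 / 4 → ∃ n0 : ℕ, ∀ n ≥ n0, ∀ (a : ℝ) (P : ℝ[X]),
  -1 + δ ≤ a → a ≤ 1 - δ → Ext n a 1 P → (∀ y : ℝ, 1 < |y| → P.derivative.eval y ≠ 0) ∧
  n ≤ P.natDegree ∧ |P.eval (-1)| = 1 ∧ P.derivative.eval (-1) ≠ 0

/-- windows `[a, 1]`: the remaining family -/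
def X4 : Prop := ∀ δ : ℝ, 0 < δ → δ ≤ 1 / 4 → ∃ n0 : ℕ, ∀ n ≥ n0, ∀ (a s : ℝ) (P : ℝ[X]),
  -1 + δ ≤ a → a ≤ 1 - δ → Ext n a 1 P → Alt n P → Par n 1 s 0 P → s = 0

/-- windows with exactly one end point in common with `[-1,1]` -/
def MainX : Prop := ∀ δ : ℝ, 0 < δ → ∃ n0 : ℕ, ∀ n ≥ n0, ∀ (a b : ℝ) (P : ℝ[X]),
  (-1 + δ ≤ a ∧ a < 1 ∧ b = 1) ∨ (a = -1 ∧ -1 < b ∧ b ≤ 1 - δ) →
  (Ext n a b P ↔ P = Chebyshev.T ℝ n ∨ P = -Chebyshev.T ℝ n)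

end

end Pool.Agent.Helper10.AL
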