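import Pool.Agent.Helper10.AL.St5

/-!
Arc length of polynomials over windows `[a, 1]`, large degree, uniformly in `a`: statements of
the pieces.
-/

set_option autoImplicit false

namespace Pool.Agent.Helper10.AL

open Polynomial Set Real MeasureTheory intervalIntegral
open Pool.Agent.Helper40.AS (arc Bdd Ext quad)

noncomputable section

/-- weighted integrals, refined uniform version -/
def G2av : Prop := ∃ K : ℝ, 0 < K ∧ ∀ (n : ℕ) (a b A : ℝ) (P : ℝ[X]) (w : ℝ → ℝ), 2 ≤ n →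
  -1 ≤ a → a < b → b ≤ 1 → arccos b + 1 / n ≤ arccos a → P.natDegree ≤ n → Bdd P →
  ND n (qq P) (arccos b) (arccos a) → ContinuousOn w (Icc (arccos b) (arccos a)) →
  (∀ θ ∈ Icc (arccos b) (arccos a), 0 ≤ w θ) → 1 ≤ A →
  (∀ x ∈ Icc (arccos b) (arccos a), ∀ y ∈ Icc (arccos b) (arccos a), |x - y| ≤ 1 / n →
    w x ≤ A * w y) →
  (∫ θ in (arccos b)..(arccos a), w θ * (sin θ ^ 2 / √(sin θ ^ 2 + deriv (qq P) θ ^ 2))) ≤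
    K * A * (1 + Real.log n) / n * ∫ θ in (arccos b)..(arccos a), w θ * (sin θ + 1 / n) ^ 2

/-- non-degeneracy -/
def U1 : Prop := ∃ n0 : ℕ, ∀ n ≥ n0, ∀ (a : ℝ) (P : ℝ[X]), -1 ≤ a → a ≤ 0 → Ext n a 1 P →
  ND n (qq P) 0 (arccos a)

/-- critical points in the window -/
def U2 : Prop := ∃ n0 : ℕ, ∀ n ≥ n0, ∀ (a θ : ℝ) (P : ℝ[X]), -1 ≤ a → a ≤ 0 → Ext n a 1 P →
  θ ∈ Ioo 0 (arccos a) → deriv (qq P) θ = 0 → |qq P θ| = 1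

/-- the chain of critical points is nearly perfect -/
def U3 : Prop := ∃ K : ℝ, 0 < K ∧ ∃ n0 : ℕ, ∀ n ≥ n0, ∀ (a : ℝ) (P : ℝ[X]), -1 ≤ a → a ≤ 0 →
  Ext n a 1 P → ∃ (N : ℕ) (t : ℕ → ℝ), 1 ≤ N ∧ Chain (qq P) N t ∧ 0 < t 0 ∧ t N < arccos a ∧
    (∀ θ ∈ Ioo 0 (arccos a), deriv (qq P) θ = 0 → ∃ i ≤ N, t i = θ) ∧
    (∀ i ≤ N, |n * t i - ((i : ℝ) + 1) * π| ≤ K * √((1 + Real.log n) / n)) ∧
    n * (arccos a - t N) ≤ π + K * √((1 + Real.log n) / n) ∧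
    1 - K * ((1 + Real.log n) / n) ≤ |P.eval 1|

/-- closeness to the Chebyshev polynomial on the window -/
def U4 : Prop := ∀ ε : ℝ, 0 < ε → ∃ n0 : ℕ, ∀ n ≥ n0, ∀ (a : ℝ) (P : ℝ[X]), -1 ≤ a → a ≤ 0 →
  Ext n a 1 P → ∃ σ τ : ℝ, (σ = 1 ∨ σ = -1) ∧ 1 ≤ τ ∧ τ ≤ arccos a ∧ n * (arccos a - τ) ≤ 4 ∧
    ∀ θ ∈ Icc 0 τ, |qq P θ - σ * cos (n * θ)| ≤ ε ∧ |deriv (qq P) θ / n + σ * sin (n * θ)| ≤ ε

/-- Poisson integral of a polynomial which is small on an arc -/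
def Po : Prop := ∀ (F : ℂ[X]) (ξ : ℂ) (τ ε d : ℝ), 0 ≤ τ → τ ≤ π → 0 ≤ ε → 0 < d → ‖ξ‖ < 1 →
  (∀ θ : ℝ, ‖F.eval (Complex.exp (θ * Complex.I))‖ ≤ 2) →
  (∀ θ : ℝ, |θ| ≤ τ → ‖F.eval (Complex.exp (θ * Complex.I))‖ ≤ ε) →
  (∀ θ ∈ Icc τ (2 * π - τ), d ≤ ‖ξ - Complex.exp (θ * Complex.I)‖) →
  ‖F.eval ξ‖ ≤ ε + 4 * (π - τ) * (1 - ‖ξ‖) / (π * d ^ 2)

/-- no complex critical point over a nearly perfect chain -/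
def U5 : Prop := ∀ (n : ℕ) (P : ℝ[X]) (σ τ ε : ℝ), 1 ≤ n → P.natDegree ≤ n → Bdd P →
  (σ = 1 ∨ σ = -1) → 0 ≤ τ → τ ≤ π → 0 ≤ ε →
  (∀ θ ∈ Icc 0 τ, |qq P θ - σ * cos (n * θ)| ≤ ε ∧
    |deriv (qq P) θ / n + σ * sin (n * θ)| ≤ ε) →
  (∀ (w : ℂ) (d : ℝ), 0 < w.im → aeval (Complex.cos w) P.derivative = 0 → 0 < d →
    (∀ θ ∈ Icc τ (2 * π - τ), d ≤ ‖Complex.exp (w * Complex.I) -
      Complex.exp (θ * Complex.I)‖) →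
    1 - Real.exp (-(2 * n * w.im)) ≤
      4 * ε + 8 * (π - τ) * (1 - Real.exp (-w.im)) / (π * d ^ 2)) ∧
  (P.natDegree + 1 ≤ n → 1 ≤ 2 * ε + 4 * (π - τ) / π)

/-- distances to the gap -/
def U5e : Prop := ∃ c : ℝ, 0 < c ∧ ∀ (w : ℂ) (τ θ : ℝ), 0 ≤ w.re → w.re ≤ π → 0 < w.im →
  θ ∈ Icc τ (2 * π - τ) → 3 ≤ τ → τ ≤ π →
  (2 * (π - τ) ≤ ‖w - (π : ℂ)‖ → c * min 1 ‖w - (π : ℂ)‖ ≤
    ‖Complex.exp (w * Complex.I) - Complex.exp (θ * Complex.I)‖) ∧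
  (w.re ≤ τ → c * (τ - w.re) ≤
    ‖Complex.exp (w * Complex.I) - Complex.exp (θ * Complex.I)‖)

/-- the first order condition near the left end of the window: non-real critical points -/
def U6 : Prop := ∀ C : ℝ, 0 < C → ∃ K : ℝ, 0 < K ∧ ∃ n0 : ℕ, ∀ n ≥ n0, ∀ (a : ℝ) (P : ℝ[X])
  (z : ℂ), -1 < a → a ≤ 0 → 1 ≤ (n : ℝ) ^ 2 * (1 + a) → Ext n a 1 P →
  ND n (qq P) 0 (arccos a) → aeval z P.derivative = 0 → 0 < z.im → ‖z + 1‖ ≤ C * (1 + a) →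
  z.im ≤ K * (1 + Real.log n) / n ∧ a + 1 / (K * (1 + Real.log n)) ≤ z.re

/-- the first order condition near the left end of the window: real critical points -/
def U6r : Prop := ∀ C : ℝ, 0 < C → ∃ n0 : ℕ, ∀ n ≥ n0, ∀ (a y : ℝ) (P : ℝ[X]),
  -1 < a → a ≤ 0 → Ext n a 1 P → ND n (qq P) 0 (arccos a) → y < -1 →
  -1 - y ≤ C * (1 + a) → P.derivative.eval y ≠ 0

/-- the left end point -/
def X3u : Prop := ∀ (n : ℕ) (a : ℝ) (P : ℝ[X]), 1 ≤ n → -1 < a → a < 1 → Ext n a 1 P →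
  |P.eval (-1)| = 1 ∧ P.derivative.eval (-1) ≠ 0

/-- the remaining family -/
def X4u : Prop := ∃ n0 : ℕ, ∀ n ≥ n0, ∀ (a s : ℝ) (P : ℝ[X]), -1 < a → a ≤ 0 → Ext n a 1 P →
  Alt n P → Par n 1 s 0 P → s = 0

/-- non-real critical points -/
def UZ1 : Prop := ∃ δ : ℝ, 0 < δ ∧ ∃ n0 : ℕ, ∀ n ≥ n0, ∀ (a : ℝ) (P : ℝ[X]) (z : ℂ),
  -1 < a → a ≤ -1 + δ → Ext n a 1 P → aeval z P.derivative = 0 → z.im = 0

/-- real critical points outside the interval and the degree -/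
def UZ2 : Prop := ∃ δ : ℝ, 0 < δ ∧ ∃ n0 : ℕ, ∀ n ≥ n0, ∀ (a : ℝ) (P : ℝ[X]),
  -1 < a → a ≤ -1 + δ → Ext n a 1 P → n ≤ P.natDegree ∧
    ∀ y : ℝ, 1 ≤ |y| → P.derivative.eval y ≠ 0

/-- all windows with an end point in common with `[-1,1]`, for all large degrees -/
def MainU : Prop := ∃ n0 : ℕ, ∀ n ≥ n0, ∀ (a b : ℝ) (P : ℝ[X]),
  (-1 ≤ a ∧ a < 1 ∧ b = 1) ∨ (a = -1 ∧ -1 < b ∧ b ≤ 1) →
  (Ext n a b P ↔ P = Chebyshev.T ℝ n ∨ P = -Chebyshev.T ℝ n)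

end

end Pool.Agent.Helper10.AL
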