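import Pool.Agent.Helper10.AL.St6

/-!
Arc length of polynomials over all windows of angular length at least `R / n`, large degree:
statements of the pieces.
-/

set_option autoImplicit false

namespace Pool.Agent.Helper10.AL

open Polynomial Set Real MeasureTheory intervalIntegral
open Pool.Agent.Helper40.AS (arc Bdd Ext quad)

noncomputable section

/-- windows of angular length at least `R / n` -/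
def Wd (n : ℕ) (R a b : ℝ) : Prop :=
  -1 ≤ a ∧ a < b ∧ b ≤ 1 ∧ R ≤ n * (arccos a - arccos b)

/-- the lag of the phase -/
def lg (n : ℕ) (c s p u v : ℝ) : ℝ := ∫ t in u..v, (n - om n c s p t)

/-- the lag is concentrated near one end or spread out -/
def L3 : Prop := ∀ ε : ℝ, 0 < ε → ∃ κ : ℝ, 0 < κ ∧ κ ≤ 1 / 4 ∧ ∀ (n : ℕ) (c s p ψ1 ψ0 : ℝ),
  1 ≤ n → 1 ≤ c → 0 ≤ s → 0 ≤ p → p ≤ s ^ 2 / 4 →
  ((n : ℝ) - 1) * π ≤ (∫ t in (0 : ℝ)..π, om n c s p t) → 0 ≤ ψ1 → ψ1 ≤ κ * ψ0 → ψ0 ≤ π →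
  (lg n c s p 0 ψ1 ≤ ε ∨ lg n c s p ψ0 π ≤ ε) ∧ lg n c s p (π - ψ1) π ≤ ε ∧
  (∀ t ∈ Ioc 0 π, (n - om n c s p t) * t ≤ π) ∧
  (c = 1 → ∀ t ∈ Ioc 0 π, lg n c s p t π ≤ 1000 / (n * t))

/-- comparison of the phases of a chain and of a Zolotarev polynomial, small left gap -/
def ZC : Prop := ∀ ε : ℝ, 0 < ε → ∃ κ R : ℝ, 0 < κ ∧ 0 < R ∧ ∃ n0 : ℕ, ∀ n ≥ n0,
  ∀ (P : ℝ[X]) (N j : ℕ) (t : ℕ → ℝ) (θ0 : ℝ), P.natDegree ≤ n → Bdd P → Chain (qq P) N t →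
  j < N → 0 ≤ t 0 → t N ≤ π → t j < θ0 → θ0 < t (j + 1) → qq P θ0 = 0 → R ≤ n * (π - θ0) →
  π - t N ≤ κ * (π - θ0) →
  0 ≤ n * (t N - θ0) - (((N - j : ℕ) : ℝ) - 1 / 2) * π ∧
  ∃ (κ' : ℝ) (m : ℤ), n * θ0 = m * π - π / 2 - κ' ∧ -ε ≤ κ' ∧
    κ' ≤ n * (t N - θ0) - (((N - j : ℕ) : ℝ) - 1 / 2) * π + ε

/-- the mirror image -/
def ZCr : Prop := ∀ ε : ℝ, 0 < ε → ∃ κ R : ℝ, 0 < κ ∧ 0 < R ∧ ∃ n0 : ℕ, ∀ n ≥ n0,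
  ∀ (P : ℝ[X]) (N j : ℕ) (t : ℕ → ℝ) (θ0 : ℝ), P.natDegree ≤ n → Bdd P → Chain (qq P) N t →
  j < N → 0 ≤ t 0 → t N ≤ π → t j < θ0 → θ0 < t (j + 1) → qq P θ0 = 0 → R ≤ n * θ0 →
  t 0 ≤ κ * θ0 →
  0 ≤ n * (θ0 - t 0) - ((j : ℝ) + 1 / 2) * π ∧
  ∃ (κ' : ℝ) (m : ℤ), n * θ0 = m * π + π / 2 + κ' ∧ -ε ≤ κ' ∧
    κ' ≤ n * (θ0 - t 0) - ((j : ℝ) + 1 / 2) * π + ε

/-- lower bound for the largest arc length in terms of a chain -/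
def CLe : Prop := ∀ ε C : ℝ, 0 < ε → 0 < C → ∃ R : ℝ, 0 < R ∧ ∃ n0 : ℕ, ∀ n ≥ n0,
  ∀ (a b : ℝ) (P : ℝ[X]) (N : ℕ) (t : ℕ → ℝ), Wd n R a b → Ext n a b P → 1 ≤ N →
  arccos b ≤ t 0 → t N ≤ arccos a → Chain (qq P) N t → n * (t 0 - arccos b) ≤ C →
  n * (arccos a - t N) ≤ C →
  2 * N + VC (n * (arccos a - t N)) + VC (n * (t 0 - arccos b)) - ε ≤ arc a b P

/-- lower bounds for the arc length at the ends of the window -/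
def CLf : Prop := ∀ ε C : ℝ, 0 < ε → 0 < C → ∃ R : ℝ, 0 < R ∧ ∃ n0 : ℕ, ∀ n ≥ n0,
  ∀ (a b : ℝ) (P : ℝ[X]) (N : ℕ) (t : ℕ → ℝ), Wd n R a b → Ext n a b P → 1 ≤ N →
  arccos b ≤ t 0 → t N ≤ arccos a → Chain (qq P) N t → n * (t 0 - arccos b) ≤ C →
  n * (arccos a - t N) ≤ C →
  VC (n * (arccos a - t N)) - ε ≤ En (qq P) (t N) (arccos a) ∧
  VC (n * (t 0 - arccos b)) - ε ≤ En (qq P) (arccos b) (t 0) ∧ n * (t N - t 0) - N * π ≤ 3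

/-- non-degeneracy -/
def E6e : Prop := ∃ R : ℝ, 0 < R ∧ ∃ n0 : ℕ, ∀ n ≥ n0, ∀ (a b : ℝ) (P : ℝ[X]), Wd n R a b →
  Ext n a b P → ND n (qq P) (arccos b) (arccos a)

/-- critical points in the window -/
def E8e : Prop := ∃ R : ℝ, 0 < R ∧ ∃ n0 : ℕ, ∀ n ≥ n0, ∀ (a b θ : ℝ) (P : ℝ[X]), Wd n R a b →
  Ext n a b P → θ ∈ Ioo (arccos b) (arccos a) → deriv (qq P) θ = 0 → |qq P θ| = 1

/-- the chain of all critical points in the window -/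
def CHe : Prop := ∃ R : ℝ, 0 < R ∧ ∃ n0 : ℕ, ∀ n ≥ n0, ∀ (a b : ℝ) (P : ℝ[X]), Wd n R a b →
  Ext n a b P → ∃ (N : ℕ) (t : ℕ → ℝ), 1 ≤ N ∧ Chain (qq P) N t ∧ arccos b < t 0 ∧
    t N < arccos a ∧ (∀ θ ∈ Ioo (arccos b) (arccos a), deriv (qq P) θ = 0 → ∃ i ≤ N, t i = θ) ∧
    n * (t 0 - arccos b) ≤ 6 ∧ n * (arccos a - t N) ≤ 6 ∧ ∀ i < N, n * (t (i + 1) - t i) ≤ 6

/-- one small gap: the chain is nearly perfect -/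
def NP1 : Prop := ∀ ε : ℝ, 0 < ε → ∃ η R : ℝ, 0 < η ∧ 0 < R ∧ ∃ n0 : ℕ, ∀ n ≥ n0,
  ∀ (a b : ℝ) (P : ℝ[X]), Wd n R a b → Ext n a b P →
  (π - arccos a ≤ η * (arccos a - arccos b) ∨ arccos b ≤ η * (arccos a - arccos b)) →
  ∃ (N : ℕ) (t : ℕ → ℝ) (m : ℤ), 1 ≤ N ∧ Chain (qq P) N t ∧ arccos b < t 0 ∧
    t N < arccos a ∧ (∀ θ ∈ Ioo (arccos b) (arccos a), deriv (qq P) θ = 0 → ∃ i ≤ N, t i = θ) ∧
    (∀ i ≤ N, |n * t i - ((m : ℝ) + i) * π| ≤ ε) ∧ n * (t 0 - arccos b) ≤ π + ε ∧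
    n * (arccos a - t N) ≤ π + ε ∧
    VC (n * (arccos a - t N)) - ε ≤ En (qq P) (t N) (arccos a) ∧
    VC (n * (t 0 - arccos b)) - ε ≤ En (qq P) (arccos b) (t 0)

/-- one small gap: closeness to the Chebyshev polynomial on the window -/
def NP : Prop := ∀ ε : ℝ, 0 < ε → ∃ η R : ℝ, 0 < η ∧ 0 < R ∧ ∃ n0 : ℕ, ∀ n ≥ n0,
  ∀ (a b : ℝ) (P : ℝ[X]), Wd n R a b → Ext n a b P →
  (π - arccos a ≤ η * (arccos a - arccos b) ∨ arccos b ≤ η * (arccos a - arccos b)) →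
  ∃ σ : ℝ, (σ = 1 ∨ σ = -1) ∧ ∀ θ ∈ Icc (arccos b) (arccos a),
    |qq P θ - σ * cos (n * θ)| ≤ ε ∧ |deriv (qq P) θ / n + σ * sin (n * θ)| ≤ ε ∧
    |deriv (deriv (qq P)) θ / (n : ℝ) ^ 2 + σ * cos (n * θ)| ≤ ε

/-- no further critical point near a non-degenerate end point of `[-1,1]` -/
def FT : Prop := ∃ c : ℝ, 0 < c ∧ ∀ (n : ℕ) (P : ℝ[X]), 1 ≤ n → P.natDegree ≤ n → Bdd P →
  ((n : ℝ) ^ 2 / 3 ≤ |deriv (deriv (qq P)) π| → P.derivative.eval (-1) ≠ 0 ∧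
    ∀ w : ℂ, w ≠ π → ‖w - (π : ℂ)‖ ≤ c / n → aeval (Complex.cos w) P.derivative ≠ 0) ∧
  ((n : ℝ) ^ 2 / 3 ≤ |deriv (deriv (qq P)) 0| → P.derivative.eval 1 ≠ 0 ∧
    ∀ w : ℂ, w ≠ 0 → ‖w‖ ≤ c / n → aeval (Complex.cos w) P.derivative ≠ 0)

/-- the Poisson kernel of the unit disc -/
def pk (ξ : ℂ) (θ : ℝ) : ℝ := (1 - ‖ξ‖ ^ 2) / ‖ξ - Complex.exp (θ * Complex.I)‖ ^ 2

/-- Poisson integrals over two gaps -/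
def Pw : Prop := ∀ (F : ℂ[X]) (ξ : ℂ) (β α ε : ℝ), 0 ≤ β → β ≤ α → α ≤ π → 0 ≤ ε → ‖ξ‖ < 1 →
  (∀ θ : ℝ, ‖F.eval (Complex.exp (θ * Complex.I))‖ ≤ 2) →
  (∀ θ : ℝ, β ≤ |θ| → |θ| ≤ α → ‖F.eval (Complex.exp (θ * Complex.I))‖ ≤ ε) →
  ‖F.eval ξ‖ ≤ ε + 1 / π * ((∫ θ in (-β)..β, pk ξ θ) + ∫ θ in α..(2 * π - α), pk ξ θ)

/-- no complex critical point over a nearly perfect chain, two gaps -/
def U5w : Prop := ∀ (n : ℕ) (P : ℝ[X]) (σ β α ε : ℝ), 1 ≤ n → P.natDegree ≤ n → Bdd P →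
  (σ = 1 ∨ σ = -1) → 0 ≤ β → β ≤ α → α ≤ π → 0 ≤ ε →
  (∀ θ ∈ Icc β α, |qq P θ - σ * cos (n * θ)| ≤ ε ∧
    |deriv (qq P) θ / n + σ * sin (n * θ)| ≤ ε) →
  (∀ w : ℂ, 0 < w.im → aeval (Complex.cos w) P.derivative = 0 →
    1 - Real.exp (-(2 * n * w.im)) ≤ 4 * ε + 2 / π *
      ((∫ θ in (-β)..β, pk (Complex.exp (w * Complex.I)) θ) +
        ∫ θ in α..(2 * π - α), pk (Complex.exp (w * Complex.I)) θ)) ∧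
  (P.natDegree + 1 ≤ n → 1 ≤ 2 * ε + 2 / π * (β + (π - α)))

/-- estimates of Poisson integrals -/
def Hm : Prop := ∃ C : ℝ, 0 < C ∧ ∀ w : ℂ, 0 ≤ w.re → w.re ≤ π → 0 < w.im →
  (∀ α : ℝ, 0 ≤ α → α ≤ π → 2 * (π - α) ≤ ‖w - (π : ℂ)‖ →
    (∫ θ in α..(2 * π - α), pk (Complex.exp (w * Complex.I)) θ) ≤
      C * (π - α) * min 1 w.im / min 1 ‖w - (π : ℂ)‖ ^ 2) ∧
  (∀ β : ℝ, 0 ≤ β → β ≤ π → 2 * β ≤ ‖w‖ →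
    (∫ θ in (-β)..β, pk (Complex.exp (w * Complex.I)) θ) ≤
      C * β * min 1 w.im / min 1 ‖w‖ ^ 2) ∧
  (∀ α : ℝ, w.re < α → α ≤ π →
    (∫ θ in α..(2 * π - α), pk (Complex.exp (w * Complex.I)) θ) ≤ C * w.im / (α - w.re)) ∧
  (∀ β : ℝ, 0 ≤ β → β < w.re →
    (∫ θ in (-β)..β, pk (Complex.exp (w * Complex.I)) θ) ≤ C * w.im / (w.re - β))

/-- first order condition, large right gap -/
def FR : Prop := ∀ η c : ℝ, 0 < η → 0 < c → ∃ K R : ℝ, 0 < K ∧ 0 < R ∧ ∃ n0 : ℕ, ∀ n ≥ n0,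
  ∀ (a b : ℝ) (P : ℝ[X]) (z : ℂ), Wd n R a b → η * (arccos a - arccos b) ≤ arccos b →
  Ext n a b P → ND n (qq P) (arccos b) (arccos a) → aeval z P.derivative = 0 → 0 < z.im →
  (z.re ≤ a ∧ ‖z - (a : ℂ)‖ ≤ c * (b - a)) ∨
  (a < z.re ∧ z.re ≤ b - 1 / (K * (1 + Real.log n)) ∧ z.im ≤ K * (1 + Real.log n) / n ∧
    1 / (K * (1 + Real.log n)) ≤ 1 - z.re ^ 2 ∧ |P.derivative.eval b| ≤ K * (1 + Real.log n))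

/-- first order condition, near a small left gap -/
def FL : Prop := ∀ C c : ℝ, 0 < C → 0 < c → ∃ η K R : ℝ, 0 < η ∧ 0 < K ∧ 0 < R ∧ ∃ n0 : ℕ,
  ∀ n ≥ n0, ∀ (a b : ℝ) (P : ℝ[X]) (z : ℂ), Wd n R a b →
  π - arccos a ≤ η * (arccos a - arccos b) → c ≤ n * (π - arccos a) → Ext n a b P →
  ND n (qq P) (arccos b) (arccos a) → aeval z P.derivative = 0 → 0 < z.im →
  ‖z + 1‖ ≤ C * (1 + a) →
  z.im ≤ K * (1 + Real.log n) / n ∧ a + 1 / (K * (1 + Real.log n)) ≤ z.re ∧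
  1 / (K * (1 + Real.log n)) ≤ 1 + a

/-- the lag of a chain over the whole window -/
def H3e : Prop := ∀ K1 : ℝ, 0 < K1 → ∃ K : ℝ, 0 < K ∧ ∃ n0 : ℕ, ∀ n ≥ n0,
  ∀ (a b : ℝ) (P : ℝ[X]) (N : ℕ) (t : ℕ → ℝ), -1 ≤ a → a < b → b ≤ 1 → Ext n a b P → 1 ≤ N →
  Chain (qq P) N t → |t N - arccos a| ≤ K1 * (1 + Real.log n) / (n : ℝ) ^ 2 →
  |t 0 - arccos b| ≤ K1 * (1 + Real.log n) / (n : ℝ) ^ 2 →
  0 ≤ n * (t N - t 0) - N * π ∧ n * (t N - t 0) - N * π ≤ K * √((1 + Real.log n) / n)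

/-- non-real critical points, two large gaps -/
def HHl : Prop := ∀ η : ℝ, 0 < η → ∃ R : ℝ, 0 < R ∧ ∃ n0 : ℕ, ∀ n ≥ n0, ∀ (a b : ℝ) (P : ℝ[X]),
  Wd n R a b → η * (arccos a - arccos b) ≤ arccos b →
  η * (arccos a - arccos b) ≤ π - arccos a → Ext n a b P →
  ∀ z : ℂ, aeval z P.derivative = 0 → z.im = 0

/-- non-real critical points, small left gap -/
def HHs : Prop := ∃ η R : ℝ, 0 < η ∧ 0 < R ∧ ∃ n0 : ℕ, ∀ n ≥ n0, ∀ (a b : ℝ) (P : ℝ[X]),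
  Wd n R a b → π - arccos a ≤ η * (arccos a - arccos b) → Ext n a b P →
  ∀ z : ℂ, aeval z P.derivative = 0 → z.im = 0

/-- the conclusion about real critical points outside `(-1, 1)` and the degree -/
def Gc (n : ℕ) (P : ℝ[X]) : Prop :=
  (∀ y1 y2 : ℝ, 1 ≤ |y1| → 1 ≤ |y2| → ¬ (X - C y1) * (X - C y2) ∣ P.derivative) ∧
  (P.natDegree + 1 ≤ n → ∀ y : ℝ, 1 ≤ |y| → P.derivative.eval y ≠ 0) ∧ n ≤ P.natDegree + 1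

/-- large right gap -/
def G3r : Prop := ∀ η : ℝ, 0 < η → ∃ R : ℝ, 0 < R ∧ ∃ n0 : ℕ, ∀ n ≥ n0, ∀ (a b : ℝ) (P : ℝ[X]),
  Wd n R a b → η * (arccos a - arccos b) ≤ arccos b → Ext n a b P →
  ND n (qq P) (arccos b) (arccos a) → Gc n P

/-- two small gaps -/
def G3s : Prop := ∃ η R : ℝ, 0 < η ∧ 0 < R ∧ ∃ n0 : ℕ, ∀ n ≥ n0, ∀ (a b : ℝ) (P : ℝ[X]),
  Wd n R a b → π - arccos a ≤ η * (arccos a - arccos b) →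
  arccos b ≤ η * (arccos a - arccos b) → Ext n a b P → Gc n P

/-- all windows of angular length at least `R / n` -/
def MainE : Prop := ∃ R : ℝ, 0 < R ∧ ∃ n0 : ℕ, ∀ n ≥ n0, ∀ (a b : ℝ) (P : ℝ[X]), -1 ≤ a →
  a < b → b ≤ 1 → R ≤ n * (arccos a - arccos b) → Ext n a b P → Good n P

end

end Pool.Agent.Helper10.AL
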