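import Pool.Agent.Helper10.AL.St7

/-!
Arc length of polynomials over short windows away from the end points, large degree, and the
final theorem: statements of the pieces.
-/

set_option autoImplicit false

namespace Pool.Agent.Helper10.AL

open Polynomial Set Real MeasureTheory intervalIntegral
open Pool.Agent.Helper40.AS (arc Bdd Ext quad)

noncomputable section

/-- windows of angular length at most `K / n` with end points at angular distance at least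
`R / n` from `0` and `π` -/
def Wc (n : ℕ) (R K a b : ℝ) : Prop :=
  -1 ≤ a ∧ a < b ∧ b ≤ 1 ∧ n * (arccos a - arccos b) ≤ K ∧ R ≤ n * sin (arccos a) ∧
    R ≤ n * sin (arccos b)

/-- lower bound for the largest arc length -/
def S2e : Prop := ∀ ε K : ℝ, 0 < ε → 0 < K → ∃ R : ℝ, 0 < R ∧ ∃ n0 : ℕ, ∀ n ≥ n0,
  ∀ (a b : ℝ) (P : ℝ[X]), Wc n R K a b → Ext n a b P →
  (1 - ε) * VM (n * (arccos a - arccos b)) ≤ arc a b P

/-- bounded windows -/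
def S3e : Prop := ∀ K η : ℝ, 0 < K → 0 < η → ∃ R : ℝ, 0 < R ∧ ∃ n0 : ℕ, ∀ n ≥ n0,
  ∀ (a b : ℝ) (P : ℝ[X]), Wc n R K a b → Ext n a b P →
  (∀ θ ∈ Icc (arccos b) (arccos a),
    (1 - η) * (n : ℝ) ^ 4 ≤ (n : ℝ) ^ 2 * deriv (qq P) θ ^ 2 + deriv (deriv (qq P)) θ ^ 2) ∧
  ND n (qq P) (arccos b) (arccos a) ∧
  (n * (arccos a - arccos b) ≤ 1 / 2 → ∀ θ ∈ Icc (arccos b) (arccos a),
    (n : ℝ) / 2 ≤ |deriv (qq P) θ|)

/-- real critical points in bounded windows -/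
def S4e : Prop := ∀ K : ℝ, 0 < K → ∃ R : ℝ, 0 < R ∧ ∃ n0 : ℕ, ∀ n ≥ n0,
  ∀ (a b θ : ℝ) (P : ℝ[X]), Wc n R K a b → Ext n a b P →
  θ ∈ Ioo (arccos b) (arccos a) → deriv (qq P) θ = 0 → |qq P θ| = 1

/-- weighted integrals over bounded windows -/
def G2ac : Prop := ∀ K : ℝ, 0 < K → ∃ K' R : ℝ, 0 < K' ∧ 0 < R ∧ ∃ n0 : ℕ, ∀ n ≥ n0,
  ∀ (a b A : ℝ) (P : ℝ[X]) (w : ℝ → ℝ), Wc n R K a b → Ext n a b P →
  ContinuousOn w (Icc a b) → (∀ x ∈ Icc a b, 0 ≤ w x) → 1 ≤ A →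
  (∀ x ∈ Icc a b, ∀ y ∈ Icc a b, |x - y| ≤ sin (arccos b) / n → w x ≤ A * w y) →
  (∫ x in a..b, w x / √(1 + P.derivative.eval x ^ 2)) ≤
    K' * A * (1 + Real.log n) * sin (arccos b) / n * ∫ x in a..b, w x

/-- non-real critical points -/
def HHc : Prop := ∀ K : ℝ, 0 < K → ∃ R : ℝ, 0 < R ∧ ∃ n0 : ℕ, ∀ n ≥ n0,
  ∀ (a b : ℝ) (P : ℝ[X]), Wc n R K a b → Ext n a b P →
  ∀ z : ℂ, aeval z P.derivative = 0 → z.im = 0

/-- real critical points outside `(-1, 1)` and the degree -/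
def G3c : Prop := ∀ K : ℝ, 0 < K → ∃ R : ℝ, 0 < R ∧ ∃ n0 : ℕ, ∀ n ≥ n0,
  ∀ (a b : ℝ) (P : ℝ[X]), Wc n R K a b → Ext n a b P → Gc n P

/-- bounded windows away from the end points -/
def MainC : Prop := ∀ K : ℝ, 0 < K → ∃ R : ℝ, 0 < R ∧ ∃ n0 : ℕ, ∀ n ≥ n0,
  ∀ (a b : ℝ) (P : ℝ[X]), Wc n R K a b → Ext n a b P → Good n P

/-- all windows which are not contained in a neighbourhood of size `C / n ^ 2` of an end point
of `[-1, 1]` -/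
def MainF : Prop := ∃ C : ℝ, 0 < C ∧ ∃ n0 : ℕ, ∀ n ≥ n0, ∀ (a b : ℝ) (P : ℝ[X]), -1 ≤ a →
  a < b → b ≤ 1 → a ≤ 1 - C / (n : ℝ) ^ 2 → -1 + C / (n : ℝ) ^ 2 ≤ b → Ext n a b P → Good n P

end

end Pool.Agent.Helper10.AL
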