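import Pool.Agent.Helper10.AL.St8

/-!
Arc length of polynomials over windows in a neighbourhood of size `K / n ^ 2` of `1`, large
degree: statements of the pieces.
-/

set_option autoImplicit false

namespace Pool.Agent.Helper10.AL

open Polynomial Set Real MeasureTheory intervalIntegral
open Pool.Agent.Helper40.AS (arc Bdd Ext quad)

noncomputable section

/-- total variation of `P` over `[a, b]` -/
def Vp (P : ℝ[X]) (a b : ℝ) : ℝ := ∫ x in a..b, |P.derivative.eval x|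

/-- windows near `1` -/
def Wh (n : ℕ) (K a b : ℝ) : Prop :=
  1 ≤ n ∧ 1 / 2 ≤ a ∧ a < b ∧ b < 1 ∧ (n : ℝ) ^ 2 * (1 - a) ≤ K

/-! ### input from the variation problem -/

/-- a critical point which is not a contact point costs variation -/
def TV1 : Prop := ∀ K d h c : ℝ, 0 < K → 0 < d → 0 < h → 0 < c → ∃ c' : ℝ, 0 < c' ∧ ∃ n0 : ℕ,
  ∀ n ≥ n0, ∀ (a b t : ℝ) (P : ℝ[X]), -1 ≤ a → a < b → b < 1 → n * arccos a ≤ K →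
  d ≤ n * (arccos a - arccos b) → P.natDegree ≤ n → Bdd P →
  (∀ x ∈ Icc a b, |P.derivative.eval x| ≤ h * (n : ℝ) ^ 2 →
    c * (n : ℝ) ^ 4 ≤ |P.derivative.derivative.eval x|) → t ∈ Icc a b →
  P.derivative.eval t = 0 →
  ∃ Q : ℝ[X], Q.natDegree ≤ n ∧ Bdd Q ∧ Vp P a b + c' * (1 - |P.eval t|) ≤ Vp Q a b

/-- polynomials with nearly maximal variation are non-degenerate -/
def TV2 : Prop := ∀ K d : ℝ, 0 < K → 0 < d → ∃ c h : ℝ, 0 < c ∧ 0 < h ∧ ∃ n0 : ℕ, ∀ n ≥ n0,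
  ∀ (a b t : ℝ) (P : ℝ[X]), -1 ≤ a → a < b → b < 1 → n * arccos a ≤ K →
  d ≤ n * (arccos a - arccos b) → P.natDegree ≤ n → Bdd P →
  (∀ Q : ℝ[X], Q.natDegree ≤ n → Bdd Q → Vp Q a b ≤ Vp P a b + h) → t ∈ Icc a b →
  |P.derivative.eval t| ≤ h * (n : ℝ) ^ 2 → c * (n : ℝ) ^ 4 ≤ |P.derivative.derivative.eval t|

/-! ### general facts -/

/-- bounds for the derivatives -/
def Mk : Prop := ∀ (n : ℕ) (P : ℝ[X]), 1 ≤ n → P.natDegree ≤ n → Bdd P →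
  (∀ k : ℕ, ∀ x ∈ Icc (-1 : ℝ) 1, |(derivative^[k] P).eval x| ≤ (2 * (n : ℝ) ^ 2) ^ k) ∧
  (∀ (t : ℝ) (R : ℝ[X]), t ∈ Icc (-1 : ℝ) 1 → P.derivative = (X - C t) * R →
    R.eval t = P.derivative.derivative.eval t ∧ ∀ x ∈ Icc (-1 : ℝ) 1,
      |R.eval x| ≤ 4 * (n : ℝ) ^ 4 ∧ |R.derivative.eval x| ≤ 4 * (n : ℝ) ^ 6)

/-- non-real critical points are not close to points of non-degeneracy -/
def Zs : Prop := ∀ h c : ℝ, 0 < h → 0 < c → ∃ s : ℝ, 0 < s ∧ ∀ (n : ℕ) (P : ℝ[X]) (x : ℝ) (z : ℂ),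
  1 ≤ n → P.natDegree ≤ n → Bdd P → x ∈ Icc (-1 : ℝ) 1 →
  (|P.derivative.eval x| ≤ h * (n : ℝ) ^ 2 → c * (n : ℝ) ^ 4 ≤ |P.derivative.derivative.eval x|) →
  aeval z P.derivative = 0 → z.im ≠ 0 → s ≤ (n : ℝ) ^ 2 * ‖z - (x : ℂ)‖

/-- integrals over non-degenerate windows -/
def Ia : Prop := ∀ K h c : ℝ, 0 < K → 0 < h → 0 < c → ∃ M : ℝ, 0 < M ∧
  ∀ (n : ℕ) (a b : ℝ) (P : ℝ[X]), 1 ≤ n → -1 ≤ a → a ≤ b → b ≤ 1 →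
  (n : ℝ) ^ 2 * (b - a) ≤ K → P.natDegree ≤ n → Bdd P →
  (∀ x ∈ Icc a b, |P.derivative.eval x| ≤ h * (n : ℝ) ^ 2 →
    c * (n : ℝ) ^ 4 ≤ |P.derivative.derivative.eval x|) →
  (∫ x in a..b, 1 / (1 + P.derivative.eval x ^ 2)) ≤ M / (n : ℝ) ^ 4 ∧
  (∫ x in a..b, 1 / √(1 + P.derivative.eval x ^ 2)) ≤ M * (1 + Real.log n) / (n : ℝ) ^ 4

/-- perturbation at a critical point which is nearly a contact point -/
def Pe : Prop := ∀ K c e : ℝ, 0 < K → 0 < c → 0 < e → ∃ M ε0 c' : ℝ, 0 < M ∧ 0 < ε0 ∧ 0 < c' ∧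
  ∀ (n : ℕ) (P R : ℝ[X]) (t ε : ℝ), 1 ≤ n → P.natDegree ≤ n → Bdd P →
  P.derivative = (X - C t) * R → 0 ≤ t → t < 1 → (n : ℝ) ^ 2 * (1 - t) ≤ K →
  c ≤ (n : ℝ) ^ 2 * (1 - t) → e ≤ (n : ℝ) ^ 2 * (1 - t) → c * (n : ℝ) ^ 4 ≤ |R.eval t| →
  P.eval t * R.eval t < 0 → 1 / 2 ≤ |P.eval t| → 0 < ε → ε ≤ ε0 →
  (∀ x ∈ Icc (-1 : ℝ) 1, |P.eval x + ε * ((1 - x ^ 2) * R.eval x / (n : ℝ) ^ 2)| ≤ 1 + M * ε ^ 2) ∧
  ∃ u : ℝ, |u - t| ≤ e / (n : ℝ) ^ 2 ∧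
    P.derivative.eval u + ε * (((1 - X ^ 2) * R).derivative.eval u / (n : ℝ) ^ 2) = 0 ∧
    |P.eval u + ε * ((1 - u ^ 2) * R.eval u / (n : ℝ) ^ 2)| ≤ 1 - c' * ε

/-! ### non-degeneracy -/

/-- the derivative of extremal polynomials near `1` -/
def Nn : Prop := ∀ K d : ℝ, 0 < K → 0 < d → ∃ h e : ℝ, 0 < h ∧ 0 < e ∧ ∃ n0 : ℕ, ∀ n ≥ n0,
  ∀ (a b x : ℝ) (P : ℝ[X]), Wh n K a b → d ≤ (n : ℝ) ^ 2 * (b - a) → Ext n a b P →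
  x ∈ Icc a b → (n : ℝ) ^ 2 * (1 - x) ≤ e → h * (n : ℝ) ^ 2 < |P.derivative.eval x|

/-- short windows -/
def Sw : Prop := ∀ K : ℝ, 0 < K → ∃ h d : ℝ, 0 < h ∧ 0 < d ∧ ∃ n0 : ℕ, ∀ n ≥ n0,
  ∀ (a b x : ℝ) (P : ℝ[X]), Wh n K a b → (n : ℝ) ^ 2 * (b - a) ≤ d → Ext n a b P →
  x ∈ Icc a b → h * (n : ℝ) ^ 2 < |P.derivative.eval x|

/-- non-degeneracy of extremal polynomials -/
def Nh : Prop := ∀ K : ℝ, 0 < K → ∃ h c e : ℝ, 0 < h ∧ 0 < c ∧ 0 < e ∧ ∃ n0 : ℕ, ∀ n ≥ n0,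
  ∀ (a b : ℝ) (P : ℝ[X]), Wh n K a b → Ext n a b P →
  ((n : ℝ) ^ 2 * (b - a) ≤ e → ∀ x ∈ Icc a b, h * (n : ℝ) ^ 2 < |P.derivative.eval x|) ∧
  ∀ x ∈ Icc a b, |P.derivative.eval x| ≤ h * (n : ℝ) ^ 2 →
    c * (n : ℝ) ^ 4 ≤ |P.derivative.derivative.eval x| ∧ e ≤ (n : ℝ) ^ 2 * (1 - x)

/-- small integrals -/
def Iw : Prop := ∀ K ε : ℝ, 0 < K → 0 < ε → ∃ n0 : ℕ, ∀ n ≥ n0, ∀ (a b : ℝ) (P : ℝ[X]),
  Wh n K a b → Ext n a b P → (∫ x in a..b, 1 / √(1 + P.derivative.eval x ^ 2)) ≤ ε * (b - a)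

/-! ### critical points outside the window and the degree -/

/-- all critical points are real -/
def HHh : Prop := ∀ K : ℝ, 0 < K → ∃ n0 : ℕ, ∀ n ≥ n0, ∀ (a b : ℝ) (P : ℝ[X]), Wh n K a b →
  Ext n a b P → ∀ z : ℂ, aeval z P.derivative = 0 → z.im = 0

/-- real critical points outside `(-1, 1)` and the degree -/
def G3h : Prop := ∀ K : ℝ, 0 < K → ∃ n0 : ℕ, ∀ n ≥ n0, ∀ (a b : ℝ) (P : ℝ[X]), Wh n K a b →
  Ext n a b P → Gc n P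

/-- a large derivative at the right end and a small derivative at the left end of the window -/
def Oz : Prop := ∀ K c : ℝ, 0 < K → 0 < c → ∃ e : ℝ, 0 < e ∧ ∃ n0 : ℕ, ∀ n ≥ n0,
  ∀ (a b : ℝ) (P : ℝ[X]), Wh n K a b → Ext n a b P →
  |P.derivative.eval a| ≤ e * (n : ℝ) ^ 2 → c ≤ (1 - b ^ 2) * |P.derivative.eval b| →
  n ≤ P.natDegree ∧ |P.eval 1| = 1 ∧ |P.eval (-1)| = 1 ∧
    ∀ y : ℝ, 1 ≤ |y| → P.derivative.eval y ≠ 0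

/-! ### critical points in the window -/

/-- comparison of the derivatives at the ends of the window -/
def Shf : Prop := ∀ K : ℝ, 0 < K → ∃ M : ℝ, 0 < M ∧ ∃ n0 : ℕ, ∀ n ≥ n0, ∀ (a b : ℝ) (P : ℝ[X]),
  Wh n K a b → Ext n a b P → |P.derivative.eval a| ≤ |P.derivative.eval b| + M * n

/-- first order condition at a critical point which is not a contact point -/
def Fh : Prop := ∀ K : ℝ, 0 < K → ∃ M : ℝ, 0 < M ∧ ∃ n0 : ℕ, ∀ n ≥ n0, ∀ (a b t : ℝ) (P : ℝ[X]),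
  Wh n K a b → Ext n a b P → t ∈ Ioo a b → P.derivative.eval t = 0 → |P.eval t| ≠ 1 →
  2 * ((1 - t ^ 2) * |P.derivative.derivative.eval t|) ≤
    (1 - a ^ 2) * |P.derivative.eval a| / (t - a) +
      (1 - b ^ 2) * |P.derivative.eval b| / (b - t) + M

/-- critical points are nearly contact points -/
def Nc : Prop := ∀ K : ℝ, 0 < K → ∃ M : ℝ, 0 < M ∧ ∃ n0 : ℕ, ∀ n ≥ n0, ∀ (a b t : ℝ) (P : ℝ[X]),
  Wh n K a b → Ext n a b P → t ∈ Ioo a b → P.derivative.eval t = 0 →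
  1 - M / (n : ℝ) ^ 2 ≤ |P.eval t| ∧ P.eval t * P.derivative.derivative.eval t < 0

/-- critical points in the middle of the window are contact points -/
def Bi : Prop := ∀ K e : ℝ, 0 < K → 0 < e → ∃ n0 : ℕ, ∀ n ≥ n0, ∀ (a b t : ℝ) (P : ℝ[X]),
  Wh n K a b → Ext n a b P → t ∈ Ioo a b → P.derivative.eval t = 0 →
  e ≤ (n : ℝ) ^ 2 * (t - a) → e ≤ (n : ℝ) ^ 2 * (b - t) → |P.eval t| = 1

/-- critical points near the right end of the window are contact points -/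
def Br : Prop := ∀ K : ℝ, 0 < K → ∃ e : ℝ, 0 < e ∧ ∃ n0 : ℕ, ∀ n ≥ n0, ∀ (a b t : ℝ) (P : ℝ[X]),
  Wh n K a b → Ext n a b P → t ∈ Ioo a b → P.derivative.eval t = 0 →
  (n : ℝ) ^ 2 * (b - t) ≤ e → |P.eval t| = 1

/-- enumeration of the critical points -/
def Np1 : Prop := ∀ (n : ℕ) (P : ℝ[X]), 1 ≤ n → P.natDegree = n →
  (∀ z : ℂ, aeval z P.derivative = 0 → z.im = 0) →
  (∀ y : ℝ, 1 ≤ |y| → P.derivative.eval y ≠ 0) →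
  (∀ x : ℝ, P.derivative.eval x = 0 → P.derivative.derivative.eval x ≠ 0) →
  ∃ s : ℕ → ℝ, s 0 = 0 ∧ s n = π ∧ (∀ i < n, s i < s (i + 1)) ∧
    (∀ i, 1 ≤ i → i < n → P.derivative.eval (cos (s i)) = 0) ∧
    ∀ i < n, ∀ θ ∈ Ioo (s i) (s (i + 1)), deriv (qq P) θ ≠ 0

/-- polynomials with one bad contact point are close to the Chebyshev polynomial -/
def Np2 : Prop := ∃ M : ℝ, 0 < M ∧ ∀ (n : ℕ) (P : ℝ[X]) (s : ℕ → ℝ) (t ε : ℝ), 1 ≤ n →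
  P.natDegree ≤ n → Bdd P → |P.eval 1| = 1 → |P.eval (-1)| = 1 →
  s 0 = 0 → s n = π → (∀ i < n, s i < s (i + 1)) →
  (∀ i, 1 ≤ i → i < n → P.derivative.eval (cos (s i)) = 0) →
  (∀ i < n, ∀ θ ∈ Ioo (s i) (s (i + 1)), deriv (qq P) θ ≠ 0) → 0 ≤ ε → ε ≤ 1 / 2 →
  (∀ x ∈ Ioo (-1 : ℝ) 1, P.derivative.eval x = 0 → 1 - ε ^ 2 ≤ |P.eval x| ∧
    P.eval x * P.derivative.derivative.eval x < 0 ∧ (x ≠ t → |P.eval x| = 1)) →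
  ∃ σ : ℝ, (σ = 1 ∨ σ = -1) ∧ ∀ θ : ℝ, |qq P θ - σ * cos (n * θ)| ≤ M * ε

/-- critical points near the left end of the window are contact points -/
def Bl : Prop := ∀ K : ℝ, 0 < K → ∃ e : ℝ, 0 < e ∧ ∃ n0 : ℕ, ∀ n ≥ n0, ∀ (a b t : ℝ) (P : ℝ[X]),
  Wh n K a b → Ext n a b P → t ∈ Ioo a b → P.derivative.eval t = 0 →
  (n : ℝ) ^ 2 * (t - a) ≤ e → |P.eval t| = 1

/-! ### main results -/

/-- windows near `1` -/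
def MainH : Prop := ∀ K : ℝ, 0 < K → ∃ n0 : ℕ, ∀ n ≥ n0, ∀ (a b : ℝ) (P : ℝ[X]), -1 ≤ a →
  a < b → b ≤ 1 → (n : ℝ) ^ 2 * (1 - a) ≤ K → Ext n a b P → Good n P

/-- all windows -/
def MainG : Prop := ∃ n0 : ℕ, ∀ n ≥ n0, ∀ (a b : ℝ) (P : ℝ[X]), -1 ≤ a → a < b → b ≤ 1 →
  Ext n a b P → Good n P

end

end Pool.Agent.Helper10.AL
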